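import Pool.Agent.Lib.MP_1a91b9_ntT.S6.Bs1

/-!
# Job S6_Bs2: the base case, value at 1 (DOC6 6.9)

`algebraMap K F` bijective: `finrank K F = 1`, `m = 0`, `σ : Fin 1 → (F →ₐ[K] ℂ)` (`nf_exists`),
`Algebra.norm K (algebraMap K F x) = x`, `Algebra.trace K F (algebraMap K F x) = x`,
`𝓞 F` = image of `𝓞 K`. `𝔟 = ⊤`, `𝔪 = span {3}`, `t = 1`; `1 ∉ span {3} * ⊤`.
Let `g` be as in the statement. `R₀` from `de_adm1`, `β, b` from `sm_exists` with `R = 3 R₀`
(`finrank = 2^0`). `Adm2 (del1 ..) {1}`: from `Adm2 (del1 ..) ∅` (`bdd`, `lat`, `zero` the same; `ne`: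
`Tr(1 * z) ≠ 0` for `z ≠ 0`; `mean`: for `B ⊆ {1}` with an orthogonal `α ≠ 0`, `1 ∉ B` since
`Tr(α) ≠ 0`, so `B = ∅`: use the property for `∅`). `s2_main` with `m = 0` (`ε : Fin 0 → F`,
`regM` is the `1 × 1` matrix `1`, `IsReps` for the empty family: `R = X`; here
`cls = support (del1)` and `unV (span {3})` is trivial: a unit `≡ 1 mod 3` is `1`, so
`IsRepsU (span {3}) X R ↔ R = X` for `0 ∉ X`): entire `g₁` with
`HasSum (del1 z term s z) (g₁ s)` over `cls`, so by `co_smooth1` `g₁ s = g s * facQ b s` for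
`Re s > 2`, hence everywhere; `facQ b 1 = 1 - conj b ≠ 0`.
`g₁ 1 = I ![1]` (one permutation of `Fin 0`, `path ε s 1 0 = 1`). Frame clause with
`v = fun _ => 1` (linearly independent), `D = 1`, `c = 3 k`, `k = ‖embK b‖²` (natural, odd):
hypotheses: `Tr(z) = z ∈ 𝓞 K` on the support; `μ ∈ c 𝓞 K` : `del1 (z + μ) = del1 z`. `zz a` =
`algebraMap K F (a 0)`. The determinant is `σ 0 1 = 1`. The value of `del1` at
`algebraMap (p + q ω)` is `bsw b k (p, q)` (`Fin (c * D) = Fin (3 * k * 1)`, reindex). So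
`g₁ 1 = (1 - conj b) E1(1/3)/3` by `bs_val`, and `g 1 = E1 (1/3)/3`.
-/

set_option autoImplicit false
set_option linter.unusedSectionVars false

namespace Pool.Agent.Lib.MP_1a91b9_ntT

open NumberField

universe u

section bs2

variable {F : Type u} [Field F] [NumberField F] [Algebra K F]

private theorem bs2_finrank (h : Function.Bijective (algebraMap K F)) : Module.finrank K F = 1 := by
  have e : K ≃ₐ[K] F := AlgEquiv.ofBijective (Algebra.ofId K F) h
  rw [← LinearEquiv.finrank_eq e.toLinearEquiv, Module.finrank_self]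

private theorem bs2_trace (h : Function.Bijective (algebraMap K F)) (x : K) :
    Algebra.trace K F (algebraMap K F x) = x := by
  rw [Algebra.trace_algebraMap, bs2_finrank h, one_smul]

private theorem bs2_norm (h : Function.Bijective (algebraMap K F)) (x : K) :
    Algebra.norm K (algebraMap K F x) = x := by
  rw [Algebra.norm_algebraMap, bs2_finrank h, pow_one]

private theorem bs2_coe (a : 𝓞 K) :
    ((algebraMap (𝓞 K) (𝓞 F) a : 𝓞 F) : F) = algebraMap K F (a : K) := rfl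

private theorem bs2_inj (a a' : 𝓞 K) (h : algebraMap (𝓞 K) (𝓞 F) a = algebraMap (𝓞 K) (𝓞 F) a') :
    a = a' := by
  have h1 := congrArg (fun w : 𝓞 F => (w : F)) h
  simp only [bs2_coe] at h1
  exact RingOfIntegers.ext ((algebraMap K F).injective h1)

private theorem bs2_surj (h : Function.Bijective (algebraMap K F)) (w : 𝓞 F) :
    ∃ a : 𝓞 K, algebraMap (𝓞 K) (𝓞 F) a = w := by
  obtain ⟨x, hx⟩ := h.2 (w : F)
  have hi : IsIntegral ℤ x := by
    have h1 : IsIntegral ℤ (algebraMap K F x) := by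
      rw [hx]
      exact w.2
    exact (isIntegral_algebraMap_iff (algebraMap K F).injective).1 h1
  refine ⟨⟨x, hi⟩, RingOfIntegers.ext ?_⟩
  exact hx

private theorem bs2_dvd (h : Function.Bijective (algebraMap K F)) (a c : 𝓞 K) :
    algebraMap (𝓞 K) (𝓞 F) a ∣ algebraMap (𝓞 K) (𝓞 F) c ↔ a ∣ c := by
  constructor
  · rintro ⟨w, hw⟩
    obtain ⟨y, rfl⟩ := bs2_surj h w
    rw [← map_mul] at hw
    exact ⟨y, bs2_inj _ _ hw⟩
  · rintro ⟨y, rfl⟩
    exact ⟨algebraMap (𝓞 K) (𝓞 F) y, by rw [map_mul]⟩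

private theorem bs2_beta (h : Function.Bijective (algebraMap K F)) (β : 𝓞 F) (b : 𝓞 K)
    (hn : Algebra.norm K (β : F) = b) : β = algebraMap (𝓞 K) (𝓞 F) b := by
  obtain ⟨y, rfl⟩ := bs2_surj h β
  rw [bs2_coe, bs2_norm h] at hn
  rw [RingOfIntegers.ext hn]

private theorem bs2_mem_cls (z : 𝓞 F) :
    (z : F) ∈ cls (⊤ : Ideal (𝓞 F)) (Ideal.span {3}) 1 ↔ (3 : 𝓞 F) ∣ z - 1 := by
  constructor
  · rintro ⟨w, hw, hm⟩
    have e : w = z := RingOfIntegers.ext hw
    subst e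
    rw [Ideal.mul_top, Ideal.mem_span_singleton] at hm
    exact hm
  · intro hz
    refine ⟨z, rfl, ?_⟩
    rw [Ideal.mul_top, Ideal.mem_span_singleton]
    exact hz

private theorem bs2_mem_mulI (β z : 𝓞 F) :
    (z : F) ∈ mulI (⊤ : Ideal (𝓞 F)) β ↔ β ∣ z := by
  constructor
  · rintro ⟨w, -, hw⟩
    exact ⟨w, RingOfIntegers.ext (by rw [hw]; rfl)⟩
  · rintro ⟨w, hw⟩
    exact ⟨w, trivial, by rw [hw]; rfl⟩

private theorem bs2_three : (3 : 𝓞 F) = algebraMap (𝓞 K) (𝓞 F) 3 := (map_ofNat _ 3).symm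

open Classical in
/-- The value of `del1` at an integral element of the base field. -/
private theorem bs2_del1 (h : Function.Bijective (algebraMap K F)) (β : 𝓞 F) (b : 𝓞 K)
    (hβ : β = algebraMap (𝓞 K) (𝓞 F) b) (k : ℕ) (hk : (k : ℝ) = ‖embK (b : K)‖ ^ 2) (a : 𝓞 K) :
    del1 (⊤ : Ideal (𝓞 F)) (Ideal.span {3}) 1 β b (algebraMap K F (a : K)) =
      if (3 : 𝓞 K) ∣ a - 1 then 1 - (k : ℂ) * (if b ∣ a then 1 else 0) else 0 := by
  have h1 : algebraMap K F (a : K) ∈ cls (⊤ : Ideal (𝓞 F)) (Ideal.span {3}) 1 ↔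
      (3 : 𝓞 K) ∣ a - 1 := by
    rw [← bs2_coe, bs2_mem_cls]
    have e3 : (3 : 𝓞 F) = algebraMap (𝓞 K) (𝓞 F) 3 := bs2_three
    have e1 : algebraMap (𝓞 K) (𝓞 F) a - 1 = algebraMap (𝓞 K) (𝓞 F) (a - 1) := by simp
    rw [e3, e1, bs2_dvd h]
  have h2 : algebraMap K F (a : K) ∈ mulI (⊤ : Ideal (𝓞 F)) β ↔ b ∣ a := by
    rw [← bs2_coe, bs2_mem_mulI, hβ, bs2_dvd h]
  unfold del1
  by_cases c1 : (3 : 𝓞 K) ∣ a - 1
  · rw [if_pos (h1.2 c1), if_pos c1, ← hk]
    by_cases c2 : b ∣ a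
    · rw [if_pos (h2.2 c2), if_pos c2]
      push_cast
      rfl
    · rw [if_neg (fun q => c2 (h2.1 q)), if_neg c2]
      push_cast
      rfl
  · rw [if_neg (fun q => c1 (h1.1 q)), if_neg c1]

/-- A support point is integral. -/
private theorem bs2_supp (h : Function.Bijective (algebraMap K F)) (β : 𝓞 F) (b : 𝓞 K) (z : F)
    (hz : del1 (⊤ : Ideal (𝓞 F)) (Ideal.span {3}) 1 β b z ≠ 0) :
    ∃ a : 𝓞 K, z = algebraMap K F (a : K) := by
  unfold del1 at hz
  have h1 : z ∈ cls (⊤ : Ideal (𝓞 F)) (Ideal.span {3}) 1 := by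
    by_contra hc
    rw [if_neg hc] at hz
    exact hz rfl
  obtain ⟨w, hw, -⟩ := h1
  obtain ⟨a, rfl⟩ := bs2_surj h w
  exact ⟨a, by rw [← hw, bs2_coe]⟩

/-- From the empty set to the set `{1}`. -/
private theorem bs2_adm (h : Function.Bijective (algebraMap K F)) (δ : F → ℂ)
    (hA : Adm2 δ (∅ : Set F)) : Adm2 δ ({1} : Set F) where
  bdd := hA.bdd
  lat := hA.lat
  zero := hA.zero
  ne := by
    intro v hv
    rw [Set.mem_singleton_iff] at hv
    subst hv
    refine ⟨one_ne_zero, fun z hz h0 => hz ?_⟩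
    obtain ⟨x, rfl⟩ := h.2 z
    rw [one_mul, bs2_trace h] at h0
    rw [h0, map_zero]
    exact hA.zero
  mean := by
    intro B hB α hα hBα
    have hB' : ∀ v ∈ B, False := by
      intro v hv
      have h1 := hB hv
      rw [Set.mem_singleton_iff] at h1
      have h2 := hBα v hv
      rw [h1, one_mul] at h2
      obtain ⟨x, rfl⟩ := h.2 α
      rw [bs2_trace h] at h2
      rw [h2, map_zero] at hα
      exact hα rfl
    obtain ⟨r, a, hr, -, ha⟩ := hA.mean ∅ (Set.empty_subset _) α hα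
      (fun v hv => absurd hv (Set.notMem_empty v))
    exact ⟨r, a, hr, fun j v hv => (hB' v hv).elim, ha⟩

end bs2

/-- Reindexing of a sum over functions from `Fin 1`. -/
private theorem bs2_reindex (G : ℕ → ℕ → ℂ) (N N' : ℕ) (hN : N = N') :
    ∑ x : Fin (0 + 1) → Fin N × Fin N, G (x 0).1 (x 0).2 =
      ∑ x : Fin N' × Fin N', G x.1 x.2 := by
  subst hN
  exact Fintype.sum_equiv (Equiv.funUnique (Fin 1) (Fin N × Fin N)) _ _ fun x => rfl

theorem bs_main (F : Type u) [Field F] [NumberField F] [Algebra K F]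
    (h : Function.Bijective (algebraMap K F)) (g : ℂ → ℂ) (hg : Differentiable ℂ g)
    (hgs : ∀ X : Set F, IsRepsU (Ideal.span {(3 : 𝓞 F)}) (cls ⊤ (Ideal.span {3}) 1) X →
      ∀ s : ℂ, 2 < s.re → HasSum (fun z : X => term s (z : F)) (g s)) :
    g 1 = E1 (1 / 3) / 3 := by
  have hfin := bs2_finrank h
  -- the embedding
  obtain ⟨σ, hσ⟩ : ∃ σ : Fin (0 + 1) → (F →ₐ[K] ℂ), Function.Bijective σ := by
    have := nf_exists (F := F)
    rw [hfin] at this
    exact this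
  -- the modulus
  have hm : (Ideal.span {(3 : 𝓞 F)}) ≠ ⊥ := by
    rw [Ne, Ideal.span_singleton_eq_bot]
    norm_num
  have hb : (⊤ : Ideal (𝓞 F)) ≠ ⊥ := top_ne_bot
  have h1' : (1 : 𝓞 F) ∉ (Ideal.span {(3 : 𝓞 F)}) * ⊤ := by
    rw [Ideal.mul_top, Ideal.mem_span_singleton]
    intro hd
    have e3 : (3 : 𝓞 F) = algebraMap (𝓞 K) (𝓞 F) 3 := bs2_three
    have e1 : (1 : 𝓞 F) = algebraMap (𝓞 K) (𝓞 F) 1 := by simp
    rw [e3, e1, bs2_dvd h] at hd
    have hu := kf_unit (-1) isUnit_one.neg (dvd_trans hd (one_dvd _))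
    norm_num at hu
  -- the smoothing element
  obtain ⟨R₀, hR₀, hadm⟩ := de_adm1 (⊤ : Ideal (𝓞 F)) (Ideal.span {(3 : 𝓞 F)}) hb hm 1 trivial h1'
  obtain ⟨β, b, hS⟩ := sm_exists (F := F) 0 (by rw [hfin, pow_zero]) (3 * R₀)
    ((by decide : Odd 3).mul hR₀)
  have hβ : β = algebraMap (𝓞 K) (𝓞 F) b := bs2_beta h β b hS.nrm
  obtain ⟨k, hk, hbk⟩ := kf_normInt b
  have hkodd : Odd k := by
    obtain ⟨c, k', hk', -, he⟩ := kf_odd b hS.odd0
    have : (k' : ℝ) = k := by rw [he, hk]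
    rw [← Nat.cast_injective this]
    exact hk'
  have hk0 : 0 < k := hkodd.pos
  have hA : Adm2 (del1 (⊤ : Ideal (𝓞 F)) (Ideal.span {3}) 1 β b) ({1} : Set F) :=
    bs2_adm h _ (hadm (3 * R₀) β b (dvd_mul_left _ _) hS)
  have h3b : (3 : 𝓞 K) ∣ b - 1 := by
    have h1 : ((3 * R₀ : ℕ) : 𝓞 F) ∣ β - 1 := hS.one
    have h2 : (3 : 𝓞 F) ∣ β - 1 := by
      refine dvd_trans ?_ h1
      push_cast
      exact dvd_mul_right _ _
    have e3 : (3 : 𝓞 F) = algebraMap (𝓞 K) (𝓞 F) 3 := bs2_three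
    have e1 : β - 1 = algebraMap (𝓞 K) (𝓞 F) (b - 1) := by rw [hβ]; simp
    rwa [e3, e1, bs2_dvd h] at h2
  -- the main theorem of S2
  obtain ⟨I, -, -, hframe, hunits⟩ := s2_main σ hσ (del1 (⊤ : Ideal (𝓞 F)) (Ideal.span {3}) 1 β b)
    ({1} : Set F) (Set.finite_singleton _) hA
  obtain ⟨ε, hε, hεb⟩ := un_free σ hσ (Ideal.span {(3 : 𝓞 F)}) hm le_rfl
  have hdet := un_det σ hσ (Ideal.span {(3 : 𝓞 F)}) hm le_rfl ε hε hεb
  obtain ⟨g₁, hg₁, hg₁s, hval⟩ := hunits (fun i => ((ε i : 𝓞 F) : F)) (fun i => i.elim0)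
    (fun i => i.elim0) (fun i => i.elim0) hdet
  have hI : g₁ 1 = I (fun _ => 1) := by
    rw [hval 1 one_ne_zero (fun T => by
      rw [Finset.eq_empty_of_isEmpty T]
      simp)]
    have hd : (regM σ (fun i => ((ε i : 𝓞 F) : F))).det = 1 := by
      rw [Matrix.det_fin_one]
      rfl
    rw [hd]
    have hp : ∀ s : Equiv.Perm (Fin 0), path (fun i => ((ε i : 𝓞 F) : F)) s 1 = fun _ => 1 := by
      intro s
      funext j
      simp [path]
    simp [hp]
  have hIv : I (fun _ => 1) = (1 - (starRingEnd ℂ) (embK (b : K))) * E1 (1 / 3) / 3 := by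
    have : Subsingleton (Fin (0 + 1)) := inferInstanceAs (Subsingleton (Fin 1))
    have hli : LinearIndependent K (fun _ : Fin (0 + 1) => (1 : F)) :=
      LinearIndependent.of_subsingleton 0 one_ne_zero
    have hper : ∀ (a : 𝓞 K) (z : F), del1 (⊤ : Ideal (𝓞 F)) (Ideal.span {3}) 1 β b
        (z + algebraMap K F (((3 * k : ℕ) : 𝓞 K) * a : 𝓞 K)) =
          del1 (⊤ : Ideal (𝓞 F)) (Ideal.span {3}) 1 β b z := by
      classical
      intro a z
      by_cases hz : ∃ a' : 𝓞 K, z = algebraMap K F (a' : K)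
      · obtain ⟨a', rfl⟩ := hz
        have e : algebraMap K F (a' : K) + algebraMap K F ((((3 * k : ℕ) : 𝓞 K) * a : 𝓞 K) : K) =
            algebraMap K F ((a' + ((3 * k : ℕ) : 𝓞 K) * a : 𝓞 K) : K) := by
          rw [← map_add]
          rfl
        rw [e, bs2_del1 h β b hβ k hk, bs2_del1 h β b hβ k hk]
        have c1 : (3 : 𝓞 K) ∣ a' + ((3 * k : ℕ) : 𝓞 K) * a - 1 ↔ (3 : 𝓞 K) ∣ a' - 1 := by
          have e1 : a' + ((3 * k : ℕ) : 𝓞 K) * a - 1 = (a' - 1) + 3 * ((k : 𝓞 K) * a) := by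
            push_cast
            ring
          rw [e1]
          exact (dvd_add_left (dvd_mul_right _ _))
        have c2 : b ∣ a' + ((3 * k : ℕ) : 𝓞 K) * a ↔ b ∣ a' := by
          refine dvd_add_left ?_
          refine Dvd.dvd.mul_right ?_ a
          push_cast
          exact Dvd.dvd.mul_left hbk 3
        exact if_congr c1 (congrArg _ (congrArg _ (if_congr c2 rfl rfl))) rfl
      · have hz' : ¬ ∃ a' : 𝓞 K, z + algebraMap K F ((((3 * k : ℕ) : 𝓞 K) * a : 𝓞 K) : K) =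
            algebraMap K F (a' : K) := by
          rintro ⟨a', ha'⟩
          refine hz ⟨a' - ((3 * k : ℕ) : 𝓞 K) * a, ?_⟩
          have : ((a' - ((3 * k : ℕ) : 𝓞 K) * a : 𝓞 K) : K) =
            (a' : K) - ((((3 * k : ℕ) : 𝓞 K) * a : 𝓞 K) : K) := rfl
          rw [this, map_sub, ← ha']
          ring
        rw [show del1 (⊤ : Ideal (𝓞 F)) (Ideal.span {3}) 1 β b z = 0 from by
            by_contra hc
            exact hz (bs2_supp h β b z hc)]
        by_contra hc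
        exact hz' (bs2_supp h β b _ hc)
    have hfr := hframe (fun _ => 1) (fun i => Set.mem_singleton _) hli 1 (3 * k) one_pos
      (by positivity)
      (fun i z hz => by
        obtain ⟨a, rfl⟩ := bs2_supp h β b z hz
        exact ⟨a, by rw [one_mul, bs2_trace h, Nat.cast_one, one_mul]⟩)
      (fun μ hμ z => by
        obtain ⟨a, ha⟩ := hμ 0
        obtain ⟨x, rfl⟩ := h.2 μ
        rw [one_mul, bs2_trace h] at ha
        rw [ha]
        exact hper a z)
      (fun a => algebraMap K F (a 0))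
      (fun a i => by
        rw [one_mul, bs2_trace h]
        congr 1
        exact Subsingleton.elim _ _)
    have hdet1 : (Matrix.of fun i j : Fin (0 + 1) => σ j ((fun _ : Fin (0 + 1) => (1 : F)) i)).det =
        1 := by
      rw [Matrix.det_fin_one]
      simp
    rw [hfr, hdet1, one_mul, ← bs_val b k hkodd hk h3b]
    refine Eq.trans ?_ (bs2_reindex (fun p q =>
      del1 (⊤ : Ideal (𝓞 F)) (Ideal.span {3}) 1 β b
        (algebraMap K F (((p : K) + (q : K) * om) / ((1 : ℕ) : K))) *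
        (((3 * k : ℕ) : ℂ)⁻¹ * E1 (((p : ℂ) + (q : ℂ) * zt) / ((1 : ℕ) : ℂ) / ((3 * k : ℕ) : ℂ))))
      (3 * k * 1) (3 * k) (mul_one _)) |>.trans ?_
    · refine Finset.sum_congr rfl fun x _ => ?_
      congr 1
      rw [Fin.prod_univ_one]
      rfl
    · refine Finset.sum_congr rfl fun x _ => ?_
      have e : (((x.1 : ℕ) : K) + ((x.2 : ℕ) : K) * om) / ((1 : ℕ) : K) =
          ((((x.1 : ℕ) : 𝓞 K) + ((x.2 : ℕ) : 𝓞 K) * omO : 𝓞 K) : K) := by
        rw [Nat.cast_one, div_one]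
        rfl
      simp only [e]
      rw [bs2_del1 h β b hβ k hk, Nat.cast_one, div_one]
      rfl
  have hb0 : b ≠ 0 := fun h0 => hS.odd0 (h0 ▸ dvd_zero _)
  have hgg : g₁ = fun s => g s * facQ b s := by
    refine AnalyticOnNhd.eq_of_eventuallyEq (𝕜 := ℂ) (z₀ := 3)
      (fun z _ => hg₁.analyticAt z) (fun z _ => (hg.mul (facQ_diff b hb0)).analyticAt z) ?_
    have hopen : IsOpen {s : ℂ | 2 < s.re} := isOpen_lt continuous_const Complex.continuous_re
    filter_upwards [hopen.mem_nhds (show (3 : ℂ) ∈ {s : ℂ | 2 < s.re} by norm_num)] with s hs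
    obtain ⟨hc0, hcV⟩ := co_cls (⊤ : Ideal (𝓞 F)) (Ideal.span {(3 : 𝓞 F)}) 1 trivial h1'
    obtain ⟨X, hX⟩ := co_exists (Ideal.span {(3 : 𝓞 F)}) (cls ⊤ (Ideal.span {3}) 1) hc0 hcV
    have h1 := hgs X hX s hs
    have hR : ((3 * R₀ : ℕ) : 𝓞 F) ∈ Ideal.span {(3 : 𝓞 F)} := by
      rw [Ideal.mem_span_singleton]
      push_cast
      exact dvd_mul_right _ _
    have h2 := co_smooth1 (⊤ : Ideal (𝓞 F)) (Ideal.span {(3 : 𝓞 F)}) 1 trivial h1' le_rfl hR hS X
      hX s (g s) h1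
    have hX' := (co_reps (Ideal.span {(3 : 𝓞 F)}) ε hε hεb _ X).1 hX
    rw [← co_sup1 (⊤ : Ideal (𝓞 F)) (Ideal.span {(3 : 𝓞 F)}) 1 (dvd_mul_right 3 R₀) hS] at hX'
    have h3 := hg₁s X hX' s hs
    refine h3.unique ?_
    have e : (fun z : X => del1 (⊤ : Ideal (𝓞 F)) (Ideal.span {3}) 1 β b z *
        (starRingEnd ℂ) (NF (z : F)) * (‖NF (z : F)‖ : ℂ) ^ (-2 * s)) =
        fun z : X => del1 (⊤ : Ideal (𝓞 F)) (Ideal.span {3}) 1 β b z * term s (z : F) := by
      funext z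
      rw [term, mul_assoc]
    rw [e]
    exact h2
  have hn0 : ‖embK (b : K)‖ ≠ 0 := by
    intro h0
    rw [h0] at hk
    have : (k : ℝ) = 0 := by rw [hk]; norm_num
    exact hk0.ne' (by exact_mod_cast this)
  have hfac : facQ b 1 = 1 - (starRingEnd ℂ) (embK (b : K)) := by
    have e : (-2 * 1 : ℂ) = ((-2 : ℤ) : ℂ) := by norm_num
    have hn1 : (‖embK (b : K)‖ : ℂ) ≠ 0 := by exact_mod_cast hn0
    rw [facQ, e, Complex.cpow_intCast]
    push_cast
    field_simp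
  have hne : 1 - (starRingEnd ℂ) (embK (b : K)) ≠ 0 := by
    intro h0
    have h1 : (starRingEnd ℂ) (embK (b : K)) = 1 := (sub_eq_zero.1 h0).symm
    have h2 : embK (b : K) = 1 := by
      have := congrArg (starRingEnd ℂ) h1
      rwa [Complex.conj_conj, map_one] at this
    have h3 : (b : K) = 1 := by
      apply embK.toRingHom.injective
      simpa using h2
    have h4 : b = 1 := RingOfIntegers.ext h3
    exact hS.odd1 (by rw [h4, sub_self]; exact dvd_zero _)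
  have hfinal : g 1 * (1 - (starRingEnd ℂ) (embK (b : K))) =
      (1 - (starRingEnd ℂ) (embK (b : K))) * E1 (1 / 3) / 3 := by
    rw [← hIv, ← hI, hgg, ← hfac]
  apply mul_right_cancel₀ hne
  rw [hfinal]
  ring

end Pool.Agent.Lib.MP_1a91b9_ntT
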