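import Pool.Agent.Lib.MP_1a91b9_ntT.S6.Du2

/-!
# Job S6_Ar1: reduction at 2 (DOC6 6.6)

Induction on `e`. `S` for `e = 0`: the image of `v` (`Unimod`, `bb.det v ≠ 0` so `v` is linearly
independent, `Module.Basis.det` / `is_basis_iff_det`).
Step `e + 1`. `b'` = norm of `β'`, `β' ∣ b'` (`nf_dvd`), so `b' v_i ∈ DL 𝔟`: the coordinates
`M_ij := b' * bb.repr (v i) j` are in `𝓞 K`. `k det(v) = 2^(e+1) u`, `det M = b'^(m+1) det v`, so
`2 ∣ det M` (`kf_two`, `k` odd). Over the domain `𝓞 K / (2)` (`kf_two`) the determinant vanishes: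
`Matrix.exists_vecMul_eq_zero_iff`: there are `c_i ∈ 𝓞 K`, not all divisible by `2`, with
`2 ∣ ∑ c_i M_ij` for all `j` (`ar_dep`). Replace the even `c_i` by `0` (still true).
Let `i₁` with `2 ∤ c_{i₁}`, `w₀ = (1/2) ∑ c_i v_i`. `b' w₀` has coordinates
`(1/2) ∑ c_i M_ij ∈ 𝓞 K` so `b' w₀ ∈ DL`; `2 β' w₀ = ∑ c_i β' v_i ∈ DL` and
`b' (β' w₀) ∈ DL`; `2` and `b'` are coprime in `𝓞 K` (`kf_odd`: `b' c = k'` odd) so `β' w₀ ∈ DL`.
`gen_rep` (with `v_{i₁}`): `w₀ = y v_{i₁} + w'`, `w' ∈ DL`. `w := v_{i₁} + w' = w₀ + (1-y) v_{i₁}`,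
`Gen w` (`gen_add`), `w = (1/2) ∑ c'_i v_i` with `c'_{i₁} = c_{i₁} + 2 (1-y)` odd, `c'_i = c_i`
otherwise (odd or zero).
For `j : Fin (m+1)` the tuple `T_j := Fin.cons w (fun i => v (j.succAbove i))` satisfies
`bb.det T_j = (1/2) c'_j (±1) bb.det v` (multilinearity in the first entry, `ar_det`:
`det (cons v_k (v ∘ succAbove j))` is `0` for `k ≠ j` (repeated vector) and `(-1)^j det v` for
`k = j`). So `T_j` is dependent if `c'_j = 0`, and otherwise `k det T_j = 2^e (± c'_j u)` with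
`2 ∤ c'_j u`. Take the sets `S_j` of the induction hypothesis (for `c'_j ≠ 0`) and
`S = {w} ∪ image v ∪ ⋃ S_j`. The cocycle relation for `Fin.cons w v : Fin (m+2) → F` gives
`I v = ∑_j (-1)^j I T_j`, a sum of elements of `M`.
-/

set_option autoImplicit false

namespace Pool.Agent.Lib.MP_1a91b9_ntT

open NumberField

universe u

section cast

variable {L : Type*} [Field L]

theorem ar1_mul (a b : 𝓞 L) : ((a * b : 𝓞 L) : L) = (a : L) * (b : L) :=
  map_mul (algebraMap (𝓞 L) L) a b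

theorem ar1_add (a b : 𝓞 L) : ((a + b : 𝓞 L) : L) = (a : L) + (b : L) :=
  map_add (algebraMap (𝓞 L) L) a b

theorem ar1_sub (a b : 𝓞 L) : ((a - b : 𝓞 L) : L) = (a : L) - (b : L) :=
  map_sub (algebraMap (𝓞 L) L) a b

theorem ar1_neg (a : 𝓞 L) : ((-a : 𝓞 L) : L) = -(a : L) :=
  map_neg (algebraMap (𝓞 L) L) a

theorem ar1_one : ((1 : 𝓞 L) : L) = 1 :=
  map_one (algebraMap (𝓞 L) L)

theorem ar1_zero : ((0 : 𝓞 L) : L) = 0 :=
  map_zero (algebraMap (𝓞 L) L)

theorem ar1_nat (n : ℕ) : (((n : ℕ) : 𝓞 L) : L) = n :=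
  map_natCast (algebraMap (𝓞 L) L) n

theorem ar1_ofTwo : ((2 : 𝓞 L) : L) = 2 :=
  map_ofNat (algebraMap (𝓞 L) L) 2

theorem ar1_pow (a : 𝓞 L) (n : ℕ) : ((a ^ n : 𝓞 L) : L) = (a : L) ^ n :=
  map_pow (algebraMap (𝓞 L) L) a n

theorem ar1_sum {ι : Type*} (s : Finset ι) (a : ι → 𝓞 L) :
    ((∑ i ∈ s, a i : 𝓞 L) : L) = ∑ i ∈ s, (a i : L) :=
  map_sum (algebraMap (𝓞 L) L) a s

theorem ar1_inj (a b : 𝓞 L) (h : (a : L) = (b : L)) : a = b :=
  NumberField.RingOfIntegers.coe_injective h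

end cast

variable {F : Type u} [Field F] [NumberField F] [Algebra K F]

theorem ar1_two : ¬ (2 : 𝓞 K) ∣ 1 :=
  kf_odd' 1 1 odd_one 1 (by norm_num)

theorem ar1_prime : (Ideal.span {(2 : 𝓞 K)}).IsPrime := by
  refine ⟨?_, ?_⟩
  · intro h
    have h1 : (1 : 𝓞 K) ∈ Ideal.span {(2 : 𝓞 K)} := by rw [h]; trivial
    exact ar1_two (Ideal.mem_span_singleton.mp h1)
  · intro x y hxy
    rw [Ideal.mem_span_singleton] at hxy
    rcases kf_two x y hxy with h | h
    · exact Or.inl (Ideal.mem_span_singleton.mpr h)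
    · exact Or.inr (Ideal.mem_span_singleton.mpr h)

theorem ar_dep {n : ℕ} (M : Matrix (Fin n) (Fin n) (𝓞 K)) (h : (2 : 𝓞 K) ∣ M.det) :
    ∃ c : Fin n → 𝓞 K, (∃ i, ¬ (2 : 𝓞 K) ∣ c i) ∧ (∀ i, (2 : 𝓞 K) ∣ c i → c i = 0) ∧
      ∀ j, (2 : 𝓞 K) ∣ ∑ i, c i * M i j := by
  classical
  have := ar1_prime
  have : IsDomain (𝓞 K ⧸ Ideal.span {(2 : 𝓞 K)}) := Ideal.Quotient.isDomain _
  set q := Ideal.Quotient.mk (Ideal.span {(2 : 𝓞 K)}) with hq
  have hdet : (q.mapMatrix M).det = 0 := by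
    rw [← RingHom.map_det, hq, Ideal.Quotient.eq_zero_iff_mem, Ideal.mem_span_singleton]
    exact h
  obtain ⟨v, hv0, hv⟩ := Matrix.exists_vecMul_eq_zero_iff.mpr hdet
  choose c₀ hc₀ using fun i => Ideal.Quotient.mk_surjective (v i)
  have hqc : ∀ i, q (if v i = 0 then 0 else c₀ i) = v i := by
    intro i
    split_ifs with h0
    · rw [map_zero, h0]
    · exact hc₀ i
  have hdvd : ∀ x : 𝓞 K, (2 : 𝓞 K) ∣ x ↔ q x = 0 := by
    intro x
    rw [hq, Ideal.Quotient.eq_zero_iff_mem, Ideal.mem_span_singleton]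
  refine ⟨fun i => if v i = 0 then 0 else c₀ i, ?_, ?_, ?_⟩
  · by_contra hcon
    push Not at hcon
    apply hv0
    funext i
    rw [← hqc i, Pi.zero_apply]
    exact (hdvd _).mp (hcon i)
  · intro i hi
    rw [hdvd, hqc] at hi
    exact if_pos hi
  · intro j
    rw [hdvd, map_sum]
    have h1 := congrFun hv j
    rw [Pi.zero_apply] at h1
    refine Eq.trans ?_ h1
    rw [Matrix.vecMul, dotProduct]
    refine Finset.sum_congr rfl fun i _ => ?_
    rw [map_mul]
    exact congrArg (· * q (M i j)) (hqc i)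

theorem ar_det {m : ℕ} (bb : Module.Basis (Fin (m + 1)) K F) (v : Fin (m + 1) → F)
    (c : Fin (m + 1) → K) (j : Fin (m + 1)) :
    bb.det (Fin.cons (∑ i, c i • v i) (fun i => v (j.succAbove i)) : Fin (m + 1) → F) =
      (-1) ^ (j : ℕ) * c j * bb.det v := by
  classical
  set τ : Equiv.Perm (Fin (m + 1)) := j.cycleRange.symm with hτ
  have hτ0 : τ 0 = j := Fin.cycleRange_symm_zero j
  have hτs : ∀ i : Fin m, τ i.succ = j.succAbove i := fun i => Fin.cycleRange_symm_succ j i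
  have h1 : ∀ x : F, (Fin.cons x (fun i => v (j.succAbove i)) : Fin (m + 1) → F) =
      Function.update (v ∘ τ) 0 x := by
    intro x
    funext i
    refine Fin.cases ?_ (fun i => ?_) i
    · simp
    · rw [Fin.cons_succ, Function.update_of_ne (Fin.succ_ne_zero i), Function.comp_apply, hτs]
  rw [h1, AlternatingMap.map_update_sum, Finset.sum_eq_single j]
  · rw [AlternatingMap.map_update_smul]
    have h2 : Function.update (v ∘ τ) 0 (v j) = v ∘ τ := by
      rw [← hτ0]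
      exact Function.update_eq_self 0 (v ∘ τ)
    rw [h2, AlternatingMap.map_perm, hτ, Equiv.Perm.sign_symm, Fin.sign_cycleRange, smul_eq_mul]
    rw [Units.smul_def, zsmul_eq_mul]
    push_cast
    ring
  · intro i _ hij
    rw [AlternatingMap.map_update_smul]
    have h3 : τ.symm i ≠ 0 := by
      intro h
      apply hij
      rw [← hτ0, ← h, Equiv.apply_symm_apply]
    have h4 : v i = (v ∘ τ) (τ.symm i) := by simp
    rw [h4, AlternatingMap.map_update_self _ _ h3.symm, smul_zero]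
  · intro h
    exact absurd (Finset.mem_univ j) h

omit [NumberField F] in
/-- The determinant of a tuple and of its matrix of coordinates. -/
theorem ar1_detmat {m : ℕ} (bb : Module.Basis (Fin (m + 1)) K F) (v : Fin (m + 1) → F)
    (b' : 𝓞 K) (M : Matrix (Fin (m + 1)) (Fin (m + 1)) (𝓞 K))
    (hM : ∀ i j, ((M i j : 𝓞 K) : K) = (b' : K) * bb.repr (v i) j) :
    ((M.det : 𝓞 K) : K) = (b' : K) ^ (m + 1) * bb.det v := by
  have h1 : ((M.det : 𝓞 K) : K) = ((algebraMap (𝓞 K) K).mapMatrix M).det :=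
    RingHom.map_det _ _
  have h2 : (algebraMap (𝓞 K) K).mapMatrix M = (b' : K) • (bb.toMatrix v).transpose := by
    ext i j
    rw [RingHom.mapMatrix_apply, Matrix.map_apply, Matrix.smul_apply, Matrix.transpose_apply,
      Module.Basis.toMatrix_apply, smul_eq_mul]
    exact hM i j
  rw [h1, h2, Matrix.det_smul, Matrix.det_transpose, Fintype.card_fin, Module.Basis.det_apply]

/-- Integral coordinates of the multiples of generators. -/
theorem ar1_coord {m : ℕ} (𝔟 : Ideal (𝓞 F)) {R : ℕ} (β' : 𝓞 F) (b' : 𝓞 K)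
    (hβ : Smooth R β' b') (bb : Module.Basis (Fin (m + 1)) K F)
    (hbb : ∀ v : F, v ∈ DL 𝔟 ↔ ∀ i, ∃ a : 𝓞 K, bb.repr v i = a) (v : F)
    (hv : (β' : F) * v ∈ DL 𝔟) : ∀ j, ∃ a : 𝓞 K, (a : K) = (b' : K) * bb.repr v j := by
  obtain ⟨w, hw⟩ := nf_dvd β' b' hβ.nrm
  have h1 : algebraMap K F (b' : K) = (w : F) * (β' : F) := by
    have h2 := congrArg (algebraMap (𝓞 F) F) hw
    rw [map_mul, mul_comm] at h2
    exact h2
  have h3 : (b' : K) • v ∈ DL 𝔟 := by
    rw [Algebra.smul_def, h1, mul_assoc]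
    exact dl_smul 𝔟 w hv
  intro j
  obtain ⟨a, ha⟩ := (hbb _).mp h3 j
  refine ⟨a, ?_⟩
  rw [← ha, map_smul, Finsupp.smul_apply, smul_eq_mul]

omit [NumberField F] in
theorem ar1_det_ne {m : ℕ} (bb : Module.Basis (Fin (m + 1)) K F) (v : Fin (m + 1) → F) :
    LinearIndependent K v ↔ bb.det v ≠ 0 := by
  constructor
  · intro h
    have h1 : IsUnit (bb.det v) := by
      rw [← Module.Basis.is_basis_iff_det]
      refine ⟨h, ?_⟩
      have h2 : Fintype.card (Fin (m + 1)) = Module.finrank K F := by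
        rw [Module.finrank_eq_card_basis bb]
      exact h.span_eq_top_of_card_eq_finrank h2
    exact h1.ne_zero
  · intro h
    have h1 : IsUnit (bb.det v) := isUnit_iff_ne_zero.mpr h
    rw [← Module.Basis.is_basis_iff_det] at h1
    exact h1.1

theorem ar1_odd (k : ℕ) (hk : Odd k) : ¬ (2 : 𝓞 K) ∣ (k : 𝓞 K) :=
  kf_odd' (k : 𝓞 K) k hk 1 (by rw [mul_one])

/-- The element `w₀ = (1/2) ∑ c_i v_i`. -/
theorem ar1_step {m : ℕ} (𝔟 : Ideal (𝓞 F)) {R : ℕ} (β' : 𝓞 F) (b' : 𝓞 K)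
    (hβ : Smooth R β' b') (bb : Module.Basis (Fin (m + 1)) K F)
    (hbb : ∀ v : F, v ∈ DL 𝔟 ↔ ∀ i, ∃ a : 𝓞 K, bb.repr v i = a) (v : Fin (m + 1) → F)
    (hv : ∀ i, Gen 𝔟 β' (v i)) (M : Fin (m + 1) → Fin (m + 1) → 𝓞 K)
    (hM : ∀ i j, ((M i j : 𝓞 K) : K) = (b' : K) * bb.repr (v i) j) (c : Fin (m + 1) → 𝓞 K)
    (hc : ∀ j, (2 : 𝓞 K) ∣ ∑ i, c i * Matrix.of M i j) (i₁ : Fin (m + 1)) :
    ∃ y : 𝓞 K, ∃ w' ∈ DL 𝔟, (2 : K)⁻¹ • ∑ i, (c i : K) • v i = algebraMap K F (y : K) * v i₁ + w' := by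
  have hβ0 : β' ≠ 0 := smooth_ne hβ
  set w₀ : F := (2 : K)⁻¹ • ∑ i, (c i : K) • v i with hw₀
  have h2w : (2 : F) * w₀ = ∑ i, (c i : K) • v i := by
    rw [hw₀, Algebra.smul_def, map_inv₀, map_ofNat, mul_inv_cancel_left₀ two_ne_zero]
  -- `b' w₀ ∈ DL`
  have hbw : (b' : K) • w₀ ∈ DL 𝔟 := by
    rw [hbb]
    intro j
    obtain ⟨q, hq⟩ := hc j
    refine ⟨q, ?_⟩
    have h3 : ((∑ i, c i * Matrix.of M i j : 𝓞 K) : K) = 2 * (q : K) := by
      rw [hq, ar1_mul, ar1_ofTwo]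
    rw [ar1_sum] at h3
    rw [hw₀, map_smul, map_smul, map_sum, Finsupp.smul_apply, Finsupp.smul_apply,
      Finsupp.finsetSum_apply, smul_eq_mul, smul_eq_mul]
    have h4 : (b' : K) * ((2 : K)⁻¹ * ∑ i, (bb.repr ((c i : K) • v i)) j) =
        (2 : K)⁻¹ * ∑ i, ((c i * Matrix.of M i j : 𝓞 K) : K) := by
      rw [mul_left_comm, Finset.mul_sum]
      congr 1
      refine Finset.sum_congr rfl fun i _ => ?_
      rw [map_smul, Finsupp.smul_apply, smul_eq_mul, ar1_mul]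
      have := hM i j
      have h5 : ((Matrix.of M i j : 𝓞 K) : K) = (b' : K) * bb.repr (v i) j := this
      rw [h5]
      ring
    rw [h4, h3, inv_mul_cancel_left₀ two_ne_zero]
  have hint : ∀ (x : 𝓞 F) (z : F), z ∈ DL 𝔟 → (x : F) * z ∈ DL 𝔟 := fun x z hz => dl_smul 𝔟 x hz
  have hintK : ∀ (x : 𝓞 K) (z : F), z ∈ DL 𝔟 → (x : K) • z ∈ DL 𝔟 := by
    intro x z hz
    have h := dl_smul 𝔟 (algebraMap (𝓞 K) (𝓞 F) x) hz
    rw [Algebra.smul_def]
    exact h
  have h0mem : (0 : F) ∈ DL 𝔟 := by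
    have := dl_smul 𝔟 0 hbw
    rwa [ar1_zero, zero_mul] at this
  -- `2 β' w₀ ∈ DL`
  have h2β : (2 : F) * ((β' : F) * w₀) ∈ DL 𝔟 := by
    have e1 : (2 : F) * ((β' : F) * w₀) = ∑ i, (c i : K) • ((β' : F) * v i) := by
      rw [mul_left_comm, h2w, Finset.mul_sum]
      refine Finset.sum_congr rfl fun i _ => ?_
      rw [mul_smul_comm]
    rw [e1]
    exact Finset.sum_induction _ (fun z => z ∈ DL 𝔟) (fun x y hx hy => dl_add 𝔟 hx hy) h0mem
      fun i _ => hintK _ _ (hv i).1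
  have hbβ : (b' : K) • ((β' : F) * w₀) ∈ DL 𝔟 := by
    rw [← mul_smul_comm]
    exact dl_smul 𝔟 β' hbw
  have hβw : (β' : F) * w₀ ∈ DL 𝔟 := by
    obtain ⟨c₂, k', hk', hck, -⟩ := kf_odd b' hβ.odd0
    obtain ⟨t, ht⟩ := hk'
    have h5 : (c₂ : K) • ((b' : K) • ((β' : F) * w₀)) ∈ DL 𝔟 := hintK _ _ hbβ
    have h6 : (c₂ : K) * (b' : K) = 2 * (t : K) + 1 := by
      rw [← ar1_mul, mul_comm, hck, ht, ar1_nat]
      push_cast
      rfl
    rw [smul_smul, h6] at h5
    have h7 := dl_smul 𝔟 (-(t : 𝓞 F)) h2β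
    have h8 := dl_add 𝔟 h5 h7
    have e2 : (2 * (t : K) + 1) • ((β' : F) * w₀) + ((-(t : 𝓞 F) : 𝓞 F) : F) * (2 * ((β' : F) * w₀)) =
        (β' : F) * w₀ := by
      rw [Algebra.smul_def, map_add, map_mul, map_one, map_ofNat, map_natCast, ar1_neg, ar1_nat]
      ring
    rwa [e2] at h8
  exact gen_rep 𝔟 β' hβ0 (v i₁) w₀ (hv i₁) hβw

theorem ar_main {m : ℕ} (𝔟 : Ideal (𝓞 F)) (hb : 𝔟 ≠ ⊥) {R : ℕ} (β' : 𝓞 F) (b' : 𝓞 K)
    (hβ : Smooth R β' b') (bb : Module.Basis (Fin (m + 1)) K F)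
    (hbb : ∀ v : F, v ∈ DL 𝔟 ↔ ∀ i, ∃ a : 𝓞 K, bb.repr v i = a) :
    ∀ (e : ℕ) (v : Fin (m + 1) → F), (∀ i, Gen 𝔟 β' (v i)) →
      (∃ (k : ℕ) (u : 𝓞 K), Odd k ∧ ¬ (2 : 𝓞 K) ∣ u ∧ (k : K) * bb.det v = 2 ^ e * (u : K)) →
      ∃ S : Finset F, (∀ w ∈ S, Gen 𝔟 β' w) ∧ (∀ i, v i ∈ S) ∧
        ∀ (I : (Fin (m + 1) → F) → ℂ) (M : AddSubgroup ℂ),
          (∀ w : Fin (m + 2) → F, (∀ i, w i ∈ S) →
            ∑ i : Fin (m + 2), (-1) ^ (i : ℕ) * I (fun j => w (i.succAbove j)) = 0) →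
          (∀ w : Fin (m + 1) → F, (∀ i, w i ∈ S) → ¬ LinearIndependent K w → I w = 0) →
          (∀ w : Fin (m + 1) → F, (∀ i, w i ∈ S) → LinearIndependent K w → Unimod bb w →
            I w ∈ M) → I v ∈ M := by
  classical
  intro e
  induction e with
  | zero =>
    intro v hv hdet
    obtain ⟨k, u, hk, hu, hku⟩ := hdet
    rw [pow_zero, one_mul] at hku
    refine ⟨Finset.univ.image v, ?_, fun i => Finset.mem_image_of_mem v (Finset.mem_univ i), ?_⟩
    · intro w hw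
      obtain ⟨i, _, rfl⟩ := Finset.mem_image.mp hw
      exact hv i
    · intro I M _ _ h3
      refine h3 v (fun i => Finset.mem_image_of_mem v (Finset.mem_univ i)) ?_ ⟨k, u, hk, hu, hku⟩
      rw [ar1_det_ne bb]
      intro h0
      rw [h0, mul_zero] at hku
      apply hu
      have : u = 0 := by
        refine ar1_inj _ _ ?_
        rw [← hku, ar1_zero]
      rw [this]
      exact dvd_zero _
  | succ e ih =>
    intro v hv hdet
    obtain ⟨k, u, hk, hu, hku⟩ := hdet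
    choose M hM using fun i => ar1_coord 𝔟 β' b' hβ bb hbb (v i) (hv i).1
    have h1 := ar1_detmat bb v b' (Matrix.of M) hM
    have h2 : (2 : 𝓞 K) ∣ (Matrix.of M).det := by
      have h3 : (2 : 𝓞 K) ∣ (k : 𝓞 K) * (Matrix.of M).det := by
        refine ⟨b' ^ (m + 1) * (2 ^ e * u), ?_⟩
        refine ar1_inj _ _ ?_
        rw [ar1_mul, ar1_mul, ar1_mul, ar1_mul, ar1_pow, ar1_pow, ar1_ofTwo, ar1_nat]
        calc (k : K) * ((Matrix.of M).det : K) = (b' : K) ^ (m + 1) * ((k : K) * bb.det v) := by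
              rw [h1]; ring
          _ = _ := by rw [hku]; ring
      rcases kf_two _ _ h3 with h | h
      · exact absurd h (ar1_odd k hk)
      · exact h
    obtain ⟨c, ⟨i₁, hi₁⟩, hc0, hcM⟩ := ar_dep (Matrix.of M) h2
    obtain ⟨y, w', hw', hrel⟩ := ar1_step 𝔟 β' b' hβ bb hbb v hv M hM c hcM i₁
    set cc : Fin (m + 1) → 𝓞 K := fun i => c i + if i = i₁ then 2 * (1 - y) else 0 with hcc
    have hcc1 : ∀ i, cc i = 0 ∨ ¬ (2 : 𝓞 K) ∣ cc i := by
      intro i
      by_cases hi : i = i₁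
      · right
        rw [hcc]
        simp only [hi, if_true]
        intro h
        exact hi₁ ((dvd_add_left (Dvd.intro _ rfl)).mp h)
      · by_cases h2 : (2 : 𝓞 K) ∣ c i
        · left
          rw [hcc]
          simp only [if_neg hi, add_zero]
          exact hc0 i h2
        · right
          rw [hcc]
          simp only [if_neg hi, add_zero]
          exact h2
    set w : F := v i₁ + w' with hwdef
    have hGw : Gen 𝔟 β' w := gen_add 𝔟 β' _ _ (hv i₁) hw'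
    have hwsum : w = ∑ i, ((2 : K)⁻¹ * (cc i : K)) • v i := by
      have e1 : ∀ i, ((2 : K)⁻¹ * (cc i : K)) • v i =
          (2 : K)⁻¹ • ((c i : K) • v i) + if i = i₁ then (1 - (y : K)) • v i₁ else 0 := by
        intro i
        rw [hcc]
        by_cases hi : i = i₁
        · simp only [hi, if_true]
          rw [ar1_add, ar1_mul, ar1_sub, ar1_one, ar1_ofTwo, mul_add, add_smul, smul_smul]
          congr 2
          rw [← mul_assoc, inv_mul_cancel₀ two_ne_zero, one_mul]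
        · simp only [if_neg hi, add_zero]
          rw [smul_smul]
      simp only [e1]
      rw [Finset.sum_add_distrib, ← Finset.smul_sum, Finset.sum_ite_eq' Finset.univ i₁,
        if_pos (Finset.mem_univ i₁), hrel, hwdef, sub_smul, one_smul, Algebra.smul_def (y : K)]
      ring
    set T : Fin (m + 1) → (Fin (m + 1) → F) := fun j =>
      (Fin.cons w (fun i => v (j.succAbove i)) : Fin (m + 1) → F) with hT
    have hTdet : ∀ j, bb.det (T j) = (-1) ^ (j : ℕ) * ((2 : K)⁻¹ * (cc j : K)) * bb.det v := by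
      intro j
      rw [hT]
      simp only
      rw [hwsum]
      exact ar_det bb v _ j
    have hTGen : ∀ j i, Gen 𝔟 β' (T j i) := by
      intro j i
      refine Fin.cases ?_ (fun i => ?_) i
      · rw [hT]
        simp only [Fin.cons_zero]
        exact hGw
      · rw [hT]
        simp only [Fin.cons_succ]
        exact hv _
    have hSj : ∀ j, ∃ S : Finset F, (∀ w ∈ S, Gen 𝔟 β' w) ∧ (∀ i, T j i ∈ S) ∧
        ∀ (I : (Fin (m + 1) → F) → ℂ) (M : AddSubgroup ℂ),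
          (∀ w : Fin (m + 2) → F, (∀ i, w i ∈ S) →
            ∑ i : Fin (m + 2), (-1) ^ (i : ℕ) * I (fun j => w (i.succAbove j)) = 0) →
          (∀ w : Fin (m + 1) → F, (∀ i, w i ∈ S) → ¬ LinearIndependent K w → I w = 0) →
          (∀ w : Fin (m + 1) → F, (∀ i, w i ∈ S) → LinearIndependent K w → Unimod bb w →
            I w ∈ M) → I (T j) ∈ M := by
      intro j
      rcases hcc1 j with h0 | h0
      · refine ⟨Finset.univ.image (T j), ?_,
          fun i => Finset.mem_image_of_mem _ (Finset.mem_univ i), ?_⟩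
        · intro x hx
          obtain ⟨i, _, rfl⟩ := Finset.mem_image.mp hx
          exact hTGen j i
        · intro I M _ h2 _
          rw [h2 (T j) (fun i => Finset.mem_image_of_mem _ (Finset.mem_univ i)) ?_]
          · exact M.zero_mem
          · rw [ar1_det_ne bb, not_not, hTdet, h0, ar1_zero]
            ring
      · refine ih (T j) (hTGen j) ⟨k, (-1) ^ (j : ℕ) * (cc j * u), hk, ?_, ?_⟩
        · intro h
          have h3 : (2 : 𝓞 K) ∣ cc j * u := by
            rcases neg_one_pow_eq_or (𝓞 K) (j : ℕ) with h4 | h4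
            · rwa [h4, one_mul] at h
            · rw [h4, neg_one_mul, dvd_neg] at h
              exact h
          rcases kf_two _ _ h3 with h4 | h4
          · exact h0 h4
          · exact hu h4
        · rw [hTdet, ar1_mul, ar1_mul, ar1_pow, ar1_neg, ar1_one]
          have e1 : (k : K) * ((-1) ^ (j : ℕ) * ((2 : K)⁻¹ * (cc j : K)) * bb.det v) =
              (-1) ^ (j : ℕ) * ((2 : K)⁻¹ * (cc j : K)) * ((k : K) * bb.det v) := by ring
          rw [e1, hku, pow_succ]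
          have e2 : (2 : K)⁻¹ * 2 = 1 := inv_mul_cancel₀ two_ne_zero
          linear_combination ((-1) ^ (j : ℕ) * (cc j : K) * 2 ^ e * (u : K)) * e2
    choose S hS1 hS2 hS3 using hSj
    refine ⟨Finset.univ.biUnion S ∪ Finset.univ.image v, ?_, ?_, ?_⟩
    · intro x hx
      rcases Finset.mem_union.mp hx with h | h
      · obtain ⟨j, _, hj⟩ := Finset.mem_biUnion.mp h
        exact hS1 j x hj
      · obtain ⟨i, _, rfl⟩ := Finset.mem_image.mp h
        exact hv i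
    · intro i
      exact Finset.mem_union_right _ (Finset.mem_image_of_mem v (Finset.mem_univ i))
    · intro I M hI1 hI2 hI3
      have hsub : ∀ j, ∀ x ∈ S j, x ∈ Finset.univ.biUnion S ∪ Finset.univ.image v := fun j x hx =>
        Finset.mem_union_left _ (Finset.mem_biUnion.mpr ⟨j, Finset.mem_univ j, hx⟩)
      have hTM : ∀ j, I (T j) ∈ M := fun j =>
        hS3 j I M (fun x hx => hI1 x fun i => hsub j _ (hx i))
          (fun x hx => hI2 x fun i => hsub j _ (hx i))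
          (fun x hx => hI3 x fun i => hsub j _ (hx i))
      have hco := hI1 (Fin.cons w v : Fin (m + 2) → F) (by
        intro i
        refine Fin.cases ?_ (fun i => ?_) i
        · rw [Fin.cons_zero]
          refine hsub 0 _ ?_
          have := hS2 0 0
          rwa [hT] at this
        · rw [Fin.cons_succ]
          exact Finset.mem_union_right _ (Finset.mem_image_of_mem v (Finset.mem_univ i)))
      rw [Fin.sum_univ_succ] at hco
      have hz : (fun j => (Fin.cons w v : Fin (m + 2) → F) ((0 : Fin (m + 2)).succAbove j)) = v := by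
        funext j
        rw [Fin.succAbove_zero, Fin.cons_succ]
      have hs : ∀ i : Fin (m + 1), (fun j => (Fin.cons w v : Fin (m + 2) → F)
          (i.succ.succAbove j)) = T i := by
        intro i
        funext j
        refine Fin.cases ?_ (fun j => ?_) j
        · rw [Fin.succ_succAbove_zero, Fin.cons_zero, hT]
          rfl
        · rw [Fin.succ_succAbove_succ, Fin.cons_succ, hT]
          rfl
      rw [hz] at hco
      simp only [hs, Fin.val_zero, pow_zero, one_mul, Fin.val_succ, pow_succ] at hco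
      have hv' : I v = ∑ i : Fin (m + 1), (-1) ^ (i : ℕ) * I (T i) := by
        have e1 : ∑ i : Fin (m + 1), (-1) ^ (i : ℕ) * (-1 : ℂ) * I (T i) =
            -∑ i : Fin (m + 1), (-1) ^ (i : ℕ) * I (T i) := by
          rw [← Finset.sum_neg_distrib]
          refine Finset.sum_congr rfl fun i _ => ?_
          ring
        rw [e1] at hco
        exact add_neg_eq_zero.mp hco
      rw [hv']
      refine AddSubgroup.sum_mem _ fun i _ => ?_
      rcases neg_one_pow_eq_or ℂ (i : ℕ) with h4 | h4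
      · rw [h4, one_mul]
        exact hTM i
      · rw [h4, neg_one_mul]
        exact M.neg_mem (hTM i)

/-- The exponent exists for independent tuples. -/
theorem ar_exp {m : ℕ} (𝔟 : Ideal (𝓞 F)) (hb : 𝔟 ≠ ⊥) {R : ℕ} (β' : 𝓞 F) (b' : 𝓞 K)
    (hβ : Smooth R β' b') (bb : Module.Basis (Fin (m + 1)) K F)
    (hbb : ∀ v : F, v ∈ DL 𝔟 ↔ ∀ i, ∃ a : 𝓞 K, bb.repr v i = a) (v : Fin (m + 1) → F)
    (hv : ∀ i, Gen 𝔟 β' (v i)) (hl : LinearIndependent K v) :
    ∃ (e k : ℕ) (u : 𝓞 K), Odd k ∧ ¬ (2 : 𝓞 K) ∣ u ∧ (k : K) * bb.det v = 2 ^ e * (u : K) := by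
  have hdet := (ar1_det_ne bb v).mp hl
  choose M hM using fun i => ar1_coord 𝔟 β' b' hβ bb hbb (v i) (hv i).1
  have h1 := ar1_detmat bb v b' (Matrix.of M) hM
  obtain ⟨c, k', hk', hck, -⟩ := kf_odd b' hβ.odd0
  have hk0 : (k' : K) ≠ 0 := by
    have : k' ≠ 0 := by
      rintro rfl
      simp at hk'
    exact_mod_cast this
  set y : 𝓞 K := c ^ (m + 1) * (Matrix.of M).det with hy
  have hyK : (y : K) = (k' : K) ^ (m + 1) * bb.det v := by
    have h2 : (b' : K) * (c : K) = (k' : K) := by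
      rw [← ar1_mul, hck, ar1_nat]
    rw [hy, ar1_mul, ar1_pow, h1, ← h2]
    ring
  have hy0 : y ≠ 0 := by
    intro h
    rw [h, ar1_zero] at hyK
    exact mul_ne_zero (pow_ne_zero _ hk0) hdet hyK.symm
  have h2u : ¬ IsUnit (2 : 𝓞 K) := fun h => ar1_two (isUnit_iff_dvd_one.mp h)
  have hfin : FiniteMultiplicity (2 : 𝓞 K) y := FiniteMultiplicity.of_not_isUnit h2u hy0
  obtain ⟨u, hu, hu2⟩ := hfin.exists_eq_pow_mul_and_not_dvd
  refine ⟨multiplicity 2 y, k' ^ (m + 1), u, hk'.pow, hu2, ?_⟩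
  rw [Nat.cast_pow, ← hyK]
  conv_lhs => rw [hu]
  rw [ar1_mul, ar1_pow, ar1_ofTwo]

end Pool.Agent.Lib.MP_1a91b9_ntT
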