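import Pool.Agent.Lib.MP_1a91b9_ntT.S6.Sm1

/-!
# Job S6_Sm2: the smoothing elements, existence and variation (DOC6 6.2)

Take `θ`, `D` from `sm_theta`, `D = 2^j D'` with `D'` odd. `sm_c`: `c₀ ∈ 𝓞 K` with
`c₀ ≡ 1 mod R D'`, `c₀ ≡ omO mod 2` (Chinese remainder, `2` and `R D'` are coprime integers:
`c₀ = 1 + R D' e (omO - 1)` with `e = R D'` (odd, so `e² ≡ 1 mod 2`): `c₀ = 1 + (R D')² (omO - 1)`
works). It is coprime to `2 R D`: coprime to `R D'` and, since `omO` is a unit, to `2`, hence to the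
product `2^(j+1) R D'`. For every `c ≡ c₀ mod 2 R D` the hypotheses of `sm_elt` hold.
* `sm_exists`: `c = c₀`, `b` from `nf_int`.
* `sm_gt`: if `3 ∣ R` then `b` is not a unit: `β ≡ 1 mod 3` so `b ≡ 1 mod 3` (`nf_cong`), a unit
  `≡ 1 mod 3` is `1` (`kf_unit`), but `2 ∤ b - 1`. `b ≠ 0`. So `‖embK b‖² ≥ 2` (`kf_normInt`,
  a natural number, `1` would make `b` a unit).
* `sm_var`: if `s₀.re ≠ 3/2` any `β` works: the absolute value of the second term is
  `‖b‖ ^ (3 - 2 s₀.re) ≠ 1`. Let `s₀ = 3/2 + i τ`. The second term is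
  `(conj b / ‖b‖) * ‖b‖ ^ (-2 i τ)`. Let `ρ ∈ {1, omO}` and `c_k = c₀ + 2 R D k ρ`,
  `b_k = N(c_k + 2 R D θ) = ∏_j (c_k + 2 R D σ_j θ)` (`nf_prod`); as `k → ∞`,
  `b_k / (2 R D k ρ)^n → 1` (each factor divided by `2 R D k ρ` tends to `1`). Assume the second
  term is `1` for all of them. Then `conj b_k/‖b_k‖ → conj(ρ)^n` (`‖ρ‖ = 1`) and
  `log ‖b_k‖ - n log k → n log (2 R D)`, so `exp (-2 i τ n log k) → ` a limit of absolute value
  `1`; comparing `k`, `2k`, `3k`: `exp (-2 i τ n log 2) = 1 = exp (-2 i τ n log 3)`, so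
  `τ n log 2 = π p`, `τ n log 3 = π q`, if `τ ≠ 0` then `p, q ≠ 0` and `2^q = 3^p` up to signs:
  impossible (`log 2 / log 3` irrational: `2^|q| = 3^|p|` parity). If `τ = 0` then
  `conj b_k / ‖b_k‖ = 1` for all `k`, so `conj(ρ)^n = 1` for `ρ = omO`, `n = 2^k`: contradiction
  (`zt ^ (2^k) ≠ 1`).
-/

set_option autoImplicit false

namespace Pool.Agent.Lib.MP_1a91b9_ntT

open NumberField Polynomial

universe u

theorem sm2_om3 : omO ^ 3 = (1 : 𝓞 K) := by
  apply RingOfIntegers.ext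
  have := om_spec.pow_eq_one
  simpa [omO] using this

theorem sm_c (R D : ℕ) (hR : Odd R) (hD : 0 < D) :
    ∃ c₀ : 𝓞 K, ∀ c : 𝓞 K, ((2 * R * D : ℕ) : 𝓞 K) ∣ c - c₀ →
      (R : 𝓞 K) ∣ c - 1 ∧ (2 : 𝓞 K) ∣ c - omO ∧ IsCoprime c ((2 * R * D : ℕ) : 𝓞 K) := by
  obtain ⟨j, D', hD', rfl⟩ := Nat.exists_eq_two_pow_mul_odd hD.ne'
  set e : ℕ := R * D' with he
  have heo : Odd e := hR.mul hD'
  refine ⟨1 + (e : 𝓞 K) ^ 2 * (omO - 1), fun c hc => ?_⟩
  obtain ⟨t, ht⟩ := hc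
  have hc1 : (e : 𝓞 K) ∣ c - 1 := by
    refine ⟨2 ^ (j + 1) * t + e * (omO - 1), ?_⟩
    have : c = (1 + (e : 𝓞 K) ^ 2 * (omO - 1)) + ((2 * R * (2 ^ j * D') : ℕ) : 𝓞 K) * t := by
      rw [← ht]; ring
    rw [this, he]
    push_cast
    ring
  have hc2 : (2 : 𝓞 K) ∣ c - omO := by
    obtain ⟨m, hm⟩ := heo
    have h2 : (e : 𝓞 K) = 2 * m + 1 := by rw [hm]; push_cast; ring
    refine ⟨(R * (2 ^ j * D') : ℕ) * t + (2 * m ^ 2 + 2 * m) * (omO - 1), ?_⟩
    have : c = (1 + (e : 𝓞 K) ^ 2 * (omO - 1)) + ((2 * R * (2 ^ j * D') : ℕ) : 𝓞 K) * t := by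
      rw [← ht]; ring
    rw [this, h2]
    push_cast
    ring
  refine ⟨dvd_trans ⟨(D' : 𝓞 K), by rw [he]; push_cast; ring⟩ hc1, hc2, ?_⟩
  have hcop1 : IsCoprime c (e : 𝓞 K) := by
    obtain ⟨s, hs⟩ := hc1
    exact ⟨1, -s, by linear_combination hs⟩
  have hcop2 : IsCoprime c (2 : 𝓞 K) := by
    obtain ⟨s, hs⟩ := hc2
    exact ⟨omO ^ 2, -(omO ^ 2 * s), by linear_combination omO ^ 2 * hs + sm2_om3⟩
  have h3 : ((2 * R * (2 ^ j * D') : ℕ) : 𝓞 K) = 2 ^ (j + 1) * (e : 𝓞 K) := by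
    rw [he]; push_cast; ring
  rw [h3]
  exact (hcop2.pow_right).mul_right hcop1

variable {F : Type u} [Field F] [NumberField F] [Algebra K F]

theorem sm_exists (k : ℕ) (hk : Module.finrank K F = 2 ^ k) (R : ℕ) (hR : Odd R) :
    ∃ (β : 𝓞 F) (b : 𝓞 K), Smooth R β b := by
  obtain ⟨θ, D, hD, hθ⟩ := sm_theta F
  obtain ⟨c₀, hc⟩ := sm_c R D hR hD
  obtain ⟨h1, h2, h3⟩ := hc c₀ (by simp)
  obtain ⟨b, hb⟩ := nf_int (algebraMap (𝓞 K) (𝓞 F) c₀ + ((2 * R * D : ℕ) : 𝓞 F) * θ : 𝓞 F)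
  exact ⟨_, b, sm_elt k hk θ D hD hθ R c₀ h1 h2 h3 b hb⟩

theorem sm_gt (R : ℕ) (h3 : 3 ∣ R) (β : 𝓞 F) (b : 𝓞 K) (h : Smooth R β b) :
    2 ≤ ‖embK (b : K)‖ ^ 2 := by
  obtain ⟨k, hk, hdvd⟩ := kf_normInt b
  rw [← hk]
  have h0 : k ≠ 0 := by
    rintro rfl
    have h1 : embK (b : K) = 0 := by
      rw [← norm_eq_zero, ← sq_eq_zero_iff, ← hk]; simp
    have h2 : b = 0 := by
      have h4 : (b : K) = 0 := (map_eq_zero embK).1 h1
      exact_mod_cast h4
    exact h.odd0 (h2 ▸ dvd_zero _)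
  have h1 : k ≠ 1 := by
    rintro rfl
    have hu : IsUnit b := isUnit_of_dvd_one (by simpa using hdvd)
    have h5 : ((3 : ℕ) : 𝓞 K) ∣ b - 1 := by
      refine nf_cong 3 β 1 b 1 h.nrm (by simp) ?_
      refine dvd_trans ?_ h.one
      obtain ⟨r, rfl⟩ := h3
      exact ⟨r, by push_cast; ring⟩
    have h6 := kf_unit b hu (by exact_mod_cast h5)
    exact h.odd1 (by rw [h6, sub_self]; exact dvd_zero _)
  have : 2 ≤ k := by omega
  exact_mod_cast this

theorem sm2_pow23 (p q : ℤ) (h : (q : ℝ) * Real.log 2 = p * Real.log 3) (hq : q ≠ 0) : False := by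
  have h1 : (q.natAbs : ℝ) * Real.log 2 = (p.natAbs : ℝ) * Real.log 3 := by
    have h2 := congrArg abs h
    rw [abs_mul, abs_mul, abs_of_pos (Real.log_pos (by norm_num : (1:ℝ) < 2)),
      abs_of_pos (Real.log_pos (by norm_num : (1:ℝ) < 3))] at h2
    rw [Nat.cast_natAbs, Nat.cast_natAbs]
    exact_mod_cast h2
  rw [← Real.log_pow, ← Real.log_pow] at h1
  have h3 := Real.log_injOn_pos (by simp : (0:ℝ) < 2 ^ q.natAbs) (by simp : (0:ℝ) < 3 ^ p.natAbs) h1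
  have h4 : 2 ^ q.natAbs = 3 ^ p.natAbs := by exact_mod_cast h3
  have h5 : Even (2 ^ q.natAbs) := (Nat.even_pow).2 ⟨even_two, by simpa using hq⟩
  have h6 : Odd (3 ^ p.natAbs) := Odd.pow (by decide)
  rw [h4] at h5
  exact (Nat.not_even_iff_odd.2 h6) h5

theorem sm2_step (τ : ℝ) (L : ℂ) (m : ℕ) (hm : 0 < m)
    (h : Filter.Tendsto (fun k : ℕ => Complex.exp (-2 * Complex.I * τ * Real.log k))
      Filter.atTop (nhds L)) (hL : L ≠ 0) : ∃ p : ℤ, τ * Real.log m = p * Real.pi := by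
  have h1 : Filter.Tendsto (fun k : ℕ => m * k) Filter.atTop Filter.atTop :=
    Filter.tendsto_id.const_mul_atTop' hm
  have h2 := h.comp h1
  have h3 := h.mul_const (Complex.exp (-2 * Complex.I * τ * Real.log m))
  have h4 : L = L * Complex.exp (-2 * Complex.I * τ * Real.log m) := by
    refine tendsto_nhds_unique (h2.congr' ?_) h3
    filter_upwards [Filter.eventually_gt_atTop 0] with k hk
    rw [Function.comp_apply, ← Complex.exp_add]
    congr 1
    have h7 : Real.log ((m * k : ℕ) : ℝ) = Real.log m + Real.log k := by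
      push_cast
      exact Real.log_mul (by positivity) (by positivity)
    rw [h7, Complex.ofReal_add]
    ring
  have h5 : Complex.exp (-2 * Complex.I * τ * Real.log m) = 1 := by
    have := mul_left_cancel₀ hL (h4.symm.trans (mul_one L).symm)
    exact this
  rw [Complex.exp_eq_one_iff] at h5
  obtain ⟨n, hn⟩ := h5
  refine ⟨-n, ?_⟩
  have h6 : ((-2 * τ * Real.log m : ℝ) : ℂ) * Complex.I =
      ((n * (2 * Real.pi) : ℝ) : ℂ) * Complex.I := by
    rw [Complex.ofReal_mul, Complex.ofReal_mul, Complex.ofReal_neg, Complex.ofReal_ofNat,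
      Complex.ofReal_mul, Complex.ofReal_mul, Complex.ofReal_ofNat, Complex.ofReal_intCast]
    linear_combination hn
  have h8 := Complex.ofReal_injective (mul_right_cancel₀ Complex.I_ne_zero h6)
  rw [Int.cast_neg]
  linarith

theorem sm_log (τ : ℝ) (L : ℂ)
    (h : Filter.Tendsto (fun k : ℕ => Complex.exp (-2 * Complex.I * τ * Real.log k))
      Filter.atTop (nhds L)) (hL : L ≠ 0) : τ = 0 := by
  obtain ⟨p, hp⟩ := sm2_step τ L 2 (by norm_num) h hL
  obtain ⟨q, hq⟩ := sm2_step τ L 3 (by norm_num) h hL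
  by_contra hτ
  push_cast at hp hq
  have h2 := Real.log_pos (by norm_num : (1:ℝ) < 2)
  have h3 := Real.log_pos (by norm_num : (1:ℝ) < 3)
  have hπ := Real.pi_pos
  refine sm2_pow23 p q ?_ ?_
  · have h4 : (τ * Real.pi) * ((q : ℝ) * Real.log 2) = (τ * Real.pi) * (p * Real.log 3) := by
      linear_combination (q : ℝ) * Real.pi * hp - (p : ℝ) * Real.pi * hq
    exact mul_left_cancel₀ (mul_ne_zero hτ hπ.ne') h4
  · rintro rfl
    rw [Int.cast_zero, zero_mul] at hq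
    exact mul_ne_zero hτ h3.ne' hq

theorem sm_lim (θ : 𝓞 F) (M : ℕ) (hM : 0 < M) (c₀ ρ : 𝓞 K) (hρ : ‖embK (ρ : K)‖ = 1)
    (b : ℕ → 𝓞 K)
    (hb : ∀ k : ℕ, Algebra.norm K ((algebraMap (𝓞 K) (𝓞 F) (c₀ + (M : 𝓞 K) * k * ρ) +
      (M : 𝓞 F) * θ : 𝓞 F) : F) = b k) :
    Filter.Tendsto (fun k : ℕ => embK (b k : K) / (M * k * embK (ρ : K)) ^ (Module.finrank K F))
      Filter.atTop (nhds 1) := by
  obtain ⟨σ, hσ⟩ := nf_exists (F := F)
  have hρ0 : embK (ρ : K) ≠ 0 := by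
    rw [← norm_ne_zero_iff, hρ]; exact one_ne_zero
  have hMC : (M : ℂ) ≠ 0 := by exact_mod_cast hM.ne'
  have h1 : ∀ k : ℕ, embK (b k : K) / (M * k * embK (ρ : K)) ^ (Module.finrank K F) =
      ∏ j, ((embK (c₀ : K) + M * σ j (θ : F)) + M * k * embK (ρ : K)) / (M * k * embK (ρ : K)) := by
    intro k
    rw [Finset.prod_div_distrib, Finset.prod_const, Finset.card_univ, Fintype.card_fin]
    congr 1
    have h2 := nf_prod σ hσ
      ((algebraMap (𝓞 K) (𝓞 F) (c₀ + (M : 𝓞 K) * k * ρ) + (M : 𝓞 F) * θ : 𝓞 F) : F)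
    rw [NF, hb k] at h2
    rw [h2]
    refine Finset.prod_congr rfl fun j _ => ?_
    have h3 : ((algebraMap (𝓞 K) (𝓞 F) (c₀ + (M : 𝓞 K) * k * ρ) + (M : 𝓞 F) * θ : 𝓞 F) : F) =
        algebraMap K F ((c₀ : K) + (M : K) * k * (ρ : K)) + (M : F) * (θ : F) := by
      simp only [map_add, map_mul, map_natCast]
      rfl
    rw [h3, map_add, AlgHom.commutes, algebraMap_eq, map_mul, map_natCast]
    simp only [map_add, map_mul, map_natCast]
    ring
  simp_rw [h1]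
  rw [show (1 : ℂ) = ∏ j : Fin (Module.finrank K F), (1 : ℂ) by simp]
  refine tendsto_finsetProd _ fun j _ => ?_
  set A : ℂ := embK (c₀ : K) + M * σ j (θ : F) with hA
  have h4 : Filter.Tendsto (fun k : ℕ => A / (M * embK (ρ : K)) * ((k : ℂ)⁻¹) + 1) Filter.atTop
      (nhds (A / (M * embK (ρ : K)) * 0 + 1)) :=
    (tendsto_const_nhds.mul (tendsto_inv_atTop_nhds_zero_nat (𝕜 := ℂ))).add tendsto_const_nhds
  rw [mul_zero, zero_add] at h4
  refine h4.congr' ?_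
  filter_upwards [Filter.eventually_gt_atTop 0] with k hk
  have hkC : (k : ℂ) ≠ 0 := by exact_mod_cast hk.ne'
  field_simp

/-- the limit of the second term -/
theorem sm2_main (n : ℕ) (hn : n ≠ 0) (M : ℕ) (hM : 0 < M) (ρ : ℂ) (hρ : ‖ρ‖ = 1) (τ : ℝ)
    (x : ℕ → ℂ) (hx0 : ∀ k, x k ≠ 0)
    (hx : Filter.Tendsto (fun k : ℕ => x k / (M * k * ρ) ^ n) Filter.atTop (nhds 1))
    (hT : ∀ k, (starRingEnd ℂ) (x k) * Complex.exp (-2 * Complex.I * τ * Real.log ‖x k‖) = ‖x k‖) :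
    τ = 0 ∧ ρ ^ n = 1 := by
  have hρ0 : ρ ≠ 0 := by
    rw [← norm_ne_zero_iff, hρ]; exact one_ne_zero
  have hMC : (M : ℂ) ≠ 0 := by exact_mod_cast hM.ne'
  have hMR : (0 : ℝ) < M := by exact_mod_cast hM
  -- norms
  have h2 : Filter.Tendsto (fun k : ℕ => ‖x k‖ / (M * k : ℝ) ^ n) Filter.atTop (nhds 1) := by
    have := hx.norm
    rw [norm_one] at this
    refine this.congr fun k => ?_
    rw [norm_div, norm_pow, norm_mul, norm_mul, hρ, mul_one, Complex.norm_natCast,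
      Complex.norm_natCast]
  have h3 : Filter.Tendsto (fun k : ℕ => (starRingEnd ℂ) (x k) / (M * k * (starRingEnd ℂ) ρ) ^ n)
      Filter.atTop (nhds 1) := by
    have := (Complex.continuous_conj.tendsto 1).comp hx
    rw [map_one] at this
    refine this.congr fun k => ?_
    simp only [Function.comp_apply, map_div₀, map_pow, map_mul, map_natCast]
  have hcρ : (starRingEnd ℂ) ρ ≠ 0 := (_root_.map_ne_zero _).2 hρ0
  -- the quotient
  have h4 : Filter.Tendsto (fun k : ℕ => (‖x k‖ : ℂ) / (starRingEnd ℂ) (x k)) Filter.atTop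
      (nhds ((((starRingEnd ℂ) ρ) ^ n)⁻¹)) := by
    have h5 : Filter.Tendsto (fun k : ℕ => ((‖x k‖ / (M * k : ℝ) ^ n : ℝ) : ℂ)) Filter.atTop
        (nhds ((1 : ℝ) : ℂ)) := (Complex.continuous_ofReal.tendsto 1).comp h2
    have h6 := (h5.div h3 one_ne_zero).mul_const ((((starRingEnd ℂ) ρ) ^ n)⁻¹)
    rw [Complex.ofReal_one, div_one, one_mul] at h6
    refine h6.congr' ?_
    filter_upwards [Filter.eventually_gt_atTop 0] with k hk
    have hkC : (k : ℂ) ≠ 0 := by exact_mod_cast hk.ne'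
    have hxk : (starRingEnd ℂ) (x k) ≠ 0 := (_root_.map_ne_zero _).2 (hx0 k)
    simp only [Pi.div_apply]
    push_cast
    field_simp
    ring
  have h5 : Filter.Tendsto (fun k : ℕ => Complex.exp (2 * Complex.I * τ *
      ((Real.log (‖x k‖ / (M * k : ℝ) ^ n) + n * Real.log M : ℝ) : ℂ))) Filter.atTop
      (nhds (Complex.exp (2 * Complex.I * τ * ((n * Real.log M : ℝ) : ℂ)))) := by
    have h6 : Filter.Tendsto (fun k : ℕ => Real.log (‖x k‖ / (M * k : ℝ) ^ n) + n * Real.log M)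
        Filter.atTop (nhds (n * Real.log M)) := by
      have := ((Real.continuousAt_log one_ne_zero).tendsto.comp h2).add_const (n * Real.log M)
      rw [Real.log_one, zero_add] at this
      exact this
    have h7 : Continuous fun t : ℝ => Complex.exp (2 * Complex.I * τ * (t : ℂ)) := by
      fun_prop
    exact (h7.tendsto _).comp h6
  have h6 : Filter.Tendsto (fun k : ℕ => Complex.exp (-2 * Complex.I * ((τ * n : ℝ) : ℂ) *
      Real.log k)) Filter.atTop (nhds ((((starRingEnd ℂ) ρ) ^ n)⁻¹ *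
        Complex.exp (2 * Complex.I * τ * ((n * Real.log M : ℝ) : ℂ)))) := by
    refine (h4.mul h5).congr' ?_
    filter_upwards [Filter.eventually_gt_atTop 0] with k hk
    have hkR : (0 : ℝ) < k := by exact_mod_cast hk
    have hxk : (starRingEnd ℂ) (x k) ≠ 0 := (_root_.map_ne_zero _).2 (hx0 k)
    have hxn : ‖x k‖ ≠ 0 := norm_ne_zero_iff.2 (hx0 k)
    have h8 : (‖x k‖ : ℂ) / (starRingEnd ℂ) (x k) =
        Complex.exp (-2 * Complex.I * τ * Real.log ‖x k‖) := by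
      rw [div_eq_iff hxk, mul_comm]; exact (hT k).symm
    rw [h8, ← Complex.exp_add]
    congr 1
    have h9 : Real.log (‖x k‖ / (M * k : ℝ) ^ n) + n * Real.log M =
        Real.log ‖x k‖ - n * Real.log k := by
      rw [Real.log_div hxn (by positivity), Real.log_pow, Real.log_mul hMR.ne' hkR.ne']
      ring
    rw [h9, Complex.ofReal_sub, Complex.ofReal_mul, Complex.ofReal_mul, Complex.ofReal_natCast]
    ring
  have h7 := sm_log (τ * n) _ h6 (mul_ne_zero (inv_ne_zero (pow_ne_zero _ hcρ))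
    (Complex.exp_ne_zero _))
  have h8 : τ = 0 := by
    rcases mul_eq_zero.1 h7 with h | h
    · exact h
    · exact absurd (by exact_mod_cast h) hn
  refine ⟨h8, ?_⟩
  have h9 : Filter.Tendsto (fun k : ℕ => (‖x k‖ : ℂ) / (starRingEnd ℂ) (x k)) Filter.atTop
      (nhds 1) := by
    refine tendsto_const_nhds.congr fun k => ?_
    have hxk : (starRingEnd ℂ) (x k) ≠ 0 := (_root_.map_ne_zero _).2 (hx0 k)
    have := hT k
    rw [h8] at this
    simp only [Complex.ofReal_zero, mul_zero, zero_mul, Complex.exp_zero, mul_one] at this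
    rw [← this, div_self hxk]
  have h10 := tendsto_nhds_unique h4 h9
  rw [inv_eq_one, ← map_pow] at h10
  have h11 := congrArg (starRingEnd ℂ) h10
  rwa [Complex.conj_conj, map_one] at h11

/-- the second term -/
theorem sm2_term (x : ℂ) (hx : 2 ≤ ‖x‖ ^ 2) (s₀ : ℂ)
    (h : 1 - (‖x‖ ^ 2 : ℝ) * (starRingEnd ℂ) x * (‖x‖ : ℂ) ^ (-2 * s₀) = 0) :
    s₀.re = 3 / 2 ∧
      (starRingEnd ℂ) x * Complex.exp (-2 * Complex.I * s₀.im * Real.log ‖x‖) = ‖x‖ := by
  have hr1 : 1 < ‖x‖ := by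
    by_contra hcon
    push Not at hcon
    have h0 := norm_nonneg x
    nlinarith
  have hr : 0 < ‖x‖ := by linarith
  have hrC : (‖x‖ : ℂ) ≠ 0 := by exact_mod_cast hr.ne'
  have h1 : ((‖x‖ ^ 2 : ℝ) : ℂ) * (starRingEnd ℂ) x * (‖x‖ : ℂ) ^ (-2 * s₀) = 1 := by
    linear_combination -h
  have h2 := congrArg norm h1
  rw [norm_mul, norm_mul, RCLike.norm_conj, Complex.norm_real, norm_pow, norm_norm,
    Complex.norm_cpow_eq_rpow_re_of_pos hr, norm_one] at h2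
  have h3 : (-2 * s₀).re = -2 * s₀.re := by simp
  rw [h3] at h2
  have hre : s₀.re = 3 / 2 := by
    have h4 := congrArg Real.log h2
    rw [Real.log_mul (by positivity) (by positivity), Real.log_mul (by positivity) (by positivity),
      Real.log_pow, Real.log_rpow hr, Real.log_one] at h4
    have h5 : (3 - 2 * s₀.re) * Real.log ‖x‖ = 0 := by
      push_cast at h4
      linarith
    rcases mul_eq_zero.1 h5 with h | h
    · linarith
    · exact absurd h (Real.log_pos hr1).ne'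
  refine ⟨hre, ?_⟩
  rw [Complex.cpow_def_of_ne_zero hrC, ← Complex.ofReal_log hr.le] at h1
  have h6 : (Real.log ‖x‖ : ℂ) * (-2 * s₀) = -2 * Complex.I * s₀.im * Real.log ‖x‖ +
      ((-3 * Real.log ‖x‖ : ℝ) : ℂ) := by
    have h7 : s₀ = (3 / 2 : ℂ) + s₀.im * Complex.I := by
      apply Complex.ext
      · simp [hre]
      · simp
    rw [h7]
    push_cast
    simp
    ring
  rw [h6, Complex.exp_add, ← Complex.ofReal_exp] at h1
  have h8 : Real.exp (-3 * Real.log ‖x‖) = (‖x‖ ^ 3)⁻¹ := by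
    rw [show -3 * Real.log ‖x‖ = -(((3 : ℕ) : ℝ) * Real.log ‖x‖) by push_cast; ring, Real.exp_neg,
      Real.exp_nat_mul, Real.exp_log hr]
  rw [h8] at h1
  push_cast at h1
  have h9 : -2 * Complex.I * (s₀.im : ℂ) * (Real.log ‖x‖ : ℂ) =
      -(2 * Complex.I * s₀.im * Real.log ‖x‖) := by ring
  rw [h9] at h1 ⊢
  field_simp at h1
  exact h1

theorem sm_var (k : ℕ) (hk : Module.finrank K F = 2 ^ k) (R : ℕ) (hR : Odd R) (h3 : 3 ∣ R)
    (s₀ : ℂ) :
    ∃ (β : 𝓞 F) (b : 𝓞 K), Smooth R β b ∧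
      1 - (‖embK (b : K)‖ ^ 2 : ℝ) * (starRingEnd ℂ) (embK (b : K)) *
        (‖embK (b : K)‖ : ℂ) ^ (-2 * s₀) ≠ 0 := by
  by_contra hcon
  push Not at hcon
  obtain ⟨θ, D, hD, hθ⟩ := sm_theta F
  obtain ⟨c₀, hc⟩ := sm_c R D hR hD
  set M : ℕ := 2 * R * D with hM
  have hM0 : 0 < M := by
    have := hR.pos
    positivity
  have hc' : ∀ j : ℕ, (M : 𝓞 K) ∣ (c₀ + (M : 𝓞 K) * j * omO) - c₀ := fun j =>
    ⟨j * omO, by ring⟩
  choose b hb using fun j : ℕ =>
    nf_int (algebraMap (𝓞 K) (𝓞 F) (c₀ + (M : 𝓞 K) * j * omO) + (M : 𝓞 F) * θ : 𝓞 F)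
  have hsm : ∀ j : ℕ, Smooth R
      (algebraMap (𝓞 K) (𝓞 F) (c₀ + (M : 𝓞 K) * j * omO) + (M : 𝓞 F) * θ : 𝓞 F) (b j) := by
    intro j
    obtain ⟨h1, h2, h4⟩ := hc _ (hc' j)
    exact sm_elt k hk θ D hD hθ R _ h1 h2 h4 (b j) (hb j)
  have hgt : ∀ j, 2 ≤ ‖embK (b j : K)‖ ^ 2 := fun j => sm_gt R h3 _ _ (hsm j)
  have hnorm : ‖embK (omO : K)‖ = 1 := by
    have h5 : embK (omO : K) = zt := embK_om
    rw [h5]
    exact zt_spec.norm'_eq_one (by norm_num)
  have hlim := sm_lim θ M hM0 c₀ omO hnorm b hb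
  have hT := fun j => sm2_term _ (hgt j) s₀ (hcon _ _ (hsm j))
  have h6 := sm2_main (Module.finrank K F) (by rw [hk]; positivity) M hM0 (embK (omO : K)) hnorm
    s₀.im (fun j => embK (b j : K)) (fun j h => by
      have := hgt j
      rw [h] at this
      norm_num at this) hlim (fun j => (hT j).2)
  have h7 : zt ^ (Module.finrank K F) = 1 := by
    have h5 : embK (omO : K) = zt := embK_om
    rw [← h5]; exact h6.2
  have h8 := (zt_spec.pow_eq_one_iff_dvd _).1 h7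
  rw [hk] at h8
  have h9 := Nat.Prime.dvd_of_dvd_pow Nat.prime_three h8
  omega

end Pool.Agent.Lib.MP_1a91b9_ntT
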