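import Pool.Agent.Lib.MP_1a91b9_ntT.S6.Co1
import Pool.Agent.Lib.MP_1a91b9_ntT.S6.Sm2

/-!
# Job S6_Co2: entire continuation of the partial series (DOC6 6.8)

Notation `fac b s = 1 - ‖b‖² conj b ‖b‖^(-2s)` (entire in `s`, `b ≠ 0`), `cls = cls 𝔟 𝔪 t`, `V = unV 𝔪`,
`ε` from `un_free`, `N𝔪 = absNorm 𝔪` odd (`𝔪` coprime to `2`), `R₀` from `de_adm1`.
* `co_gb`: for `β, b` with `Smooth R β b`, `R` divisible by `3 R₀ N𝔪` : `Adm2 (del1 ..) ∅`, `s2_main`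
  (with `S = ∅`, fourth clause, `ε` as elements of `F`: nonzero, norm one by `un_norm`, invariance
  `co_inv`, `regM` by `un_det`) gives an entire `g` with, for every set `X` of representatives of
  `cls = support (del1 ..)` (`co_sup1`, `co_reps`) and `Re s > 2`:
  `HasSum (del1 z * term s z) (g s)` (over `X`). Since `‖del1 z‖ ≥ 1` on `cls` the family `term s` is
  summable over `X`, with sum `T s`, and by `co_smooth1` `g s = T s * fac b s`.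
* `co_entire`: for every `s₀` choose (`sm_var`, with `R = 3 R₀ N𝔪`) `β_{s₀}`, `b_{s₀}` with
  `fac b_{s₀} s₀ ≠ 0`; `A s := g_{β_s} s / fac b_s s`. For two choices `β, β₁`,
  `g_β s fac b₁ s = g_{β₁} s fac b s` for `Re s > 2`, hence for all `s` (identity theorem for entire
  functions, `AnalyticOnNhd.eq_of_eventuallyEq` ...). So `A s * fac b s = g_β s` for every `β`, all `s`;
  near `s₀`, `A = g_{β_{s₀}} / fac b_{s₀}` is differentiable; for `Re s > 2`, `A s = T s`.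
  `T` does not depend on the representatives (`co_indep`, `co_termV`).
-/

set_option autoImplicit false

namespace Pool.Agent.Lib.MP_1a91b9_ntT

open NumberField

universe u

/-- The smoothing factor. -/
noncomputable def facQ (b : 𝓞 K) (s : ℂ) : ℂ :=
  1 - (‖embK (b : K)‖ ^ 2 : ℝ) * (starRingEnd ℂ) (embK (b : K)) *
    (‖embK (b : K)‖ : ℂ) ^ (-2 * s)

variable {F : Type u} [Field F] [NumberField F] [Algebra K F]

theorem facQ_diff (b : 𝓞 K) (hb : b ≠ 0) : Differentiable ℂ (facQ b) := by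
  have h0 : embK (b : K) ≠ 0 := by
    rw [map_ne_zero]
    intro h
    exact hb (RingOfIntegers.ext h)
  have h1 : ((‖embK (b : K)‖ : ℝ) : ℂ) ≠ 0 := by
    rw [Complex.ofReal_ne_zero]
    exact norm_ne_zero_iff.mpr h0
  unfold facQ
  intro s
  have h2 : DifferentiableAt ℂ (fun s : ℂ => (‖embK (b : K)‖ : ℂ) ^ (-2 * s)) s :=
    DifferentiableAt.const_cpow (by fun_prop) (Or.inl h1)
  fun_prop

theorem co2_odd (𝔪 : Ideal (𝓞 F)) (hm : 𝔪 ≠ ⊥) (hm2 : IsCoprime 𝔪 (Ideal.span {2})) :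
    Odd (Ideal.absNorm 𝔪) := by
  rw [← Nat.not_even_iff_odd, even_iff_two_dvd]
  intro h2
  rw [Ideal.absNorm_apply, Submodule.cardQuot_apply] at h2
  have hfin : Finite (𝓞 F ⧸ 𝔪) := Ideal.finiteQuotientOfFreeOfNeBot 𝔪 hm
  have : Fact (Nat.Prime 2) := ⟨Nat.prime_two⟩
  obtain ⟨x, hx⟩ := exists_prime_addOrderOf_dvd_card' (G := 𝓞 F ⧸ 𝔪) 2 h2
  have h3 : (2 : ℕ) • x = 0 := by rw [← hx]; exact addOrderOf_nsmul_eq_zero x
  have hx0 : x ≠ 0 := by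
    intro h
    rw [h, addOrderOf_zero] at hx
    norm_num at hx
  rw [Ideal.isCoprime_iff_exists] at hm2
  obtain ⟨i, hi, j, hj, hij⟩ := hm2
  obtain ⟨y, hy⟩ := Ideal.mem_span_singleton.mp hj
  apply hx0
  have h4 : (Ideal.Quotient.mk 𝔪 (i + j)) = 1 := by rw [hij, map_one]
  rw [map_add, Ideal.Quotient.eq_zero_iff_mem.mpr hi, zero_add, hy, map_mul, map_ofNat] at h4
  calc x = 1 * x := (one_mul x).symm
    _ = (2 * Ideal.Quotient.mk 𝔪 y) * x := by rw [h4]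
    _ = Ideal.Quotient.mk 𝔪 y * ((2 : ℕ) • x) := by rw [nsmul_eq_mul]; push_cast; ring
    _ = 0 := by rw [h3, mul_zero]

theorem co_gb {m : ℕ} (σ : Fin (m + 1) → (F →ₐ[K] ℂ)) (hσ : Function.Bijective σ)
    (𝔟 𝔪 : Ideal (𝓞 F)) (hb : 𝔟 ≠ ⊥) (hm : 𝔪 ≠ ⊥) (hm2 : IsCoprime 𝔪 (Ideal.span {2}))
    (h3 : 𝔪 ≤ Ideal.span {3}) (t : 𝓞 F) (ht : t ∈ 𝔟) (ht' : t ∉ 𝔪 * 𝔟) :
    ∃ R₁ : ℕ, Odd R₁ ∧ 3 ∣ R₁ ∧ ∀ (β : 𝓞 F) (b : 𝓞 K), Smooth R₁ β b →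
      ∃ g : ℂ → ℂ, Differentiable ℂ g ∧ ∀ X : Set F, IsRepsU 𝔪 (cls 𝔟 𝔪 t) X →
        ∀ s : ℂ, 2 < s.re → ∃ T : ℂ, HasSum (fun z : X => term s (z : F)) T ∧
          g s = T * facQ b s := by
  obtain ⟨R₀, hR₀, hadm⟩ := de_adm1 𝔟 𝔪 hb hm t ht ht'
  have hN := co2_odd 𝔪 hm hm2
  obtain ⟨ε, hε, hbas⟩ := un_free σ hσ 𝔪 hm h3
  have hdet := un_det σ hσ 𝔪 hm h3 ε hε hbas
  refine ⟨3 * R₀ * Ideal.absNorm 𝔪, ((by decide : Odd 3).mul hR₀).mul hN,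
    ⟨R₀ * Ideal.absNorm 𝔪, by ring⟩, ?_⟩
  intro β b hsm
  have hR : ((3 * R₀ * Ideal.absNorm 𝔪 : ℕ) : 𝓞 F) ∈ 𝔪 := by
    push_cast
    exact 𝔪.mul_mem_left _ (Ideal.absNorm_mem 𝔪)
  have h3R : 3 ∣ 3 * R₀ * Ideal.absNorm 𝔪 := ⟨R₀ * Ideal.absNorm 𝔪, by ring⟩
  have hA := hadm _ β b (⟨3 * Ideal.absNorm 𝔪, by ring⟩ : R₀ ∣ 3 * R₀ * Ideal.absNorm 𝔪) hsm
  obtain ⟨I, -, -, -, h4⟩ := s2_main σ hσ (del1 𝔟 𝔪 t β b) ∅ Set.finite_empty hA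
  obtain ⟨g, hg, hgs, -⟩ := h4 (fun i => ((ε i : 𝓞 F) : F)) (fun i => by
      intro h0
      have h1 : ((ε i : (𝓞 F)ˣ) : 𝓞 F) = 0 := RingOfIntegers.ext h0
      exact (ε i).ne_zero h1) (fun i => un_norm 𝔪 h3 (ε i) (hε i))
    (fun i z => (co_inv 𝔟 𝔪 t ht β β b (ε i) (hε i) z).2) hdet
  refine ⟨g, hg, fun X hX s hs => ?_⟩
  have hX' : IsReps (fun i => ((ε i : 𝓞 F) : F)) (Function.support (del1 𝔟 𝔪 t β b)) X := by
    rw [co_sup1 𝔟 𝔪 t h3R hsm]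
    exact (co_reps 𝔪 ε hε hbas _ X).mp hX
  have h5 := hgs X hX' s hs
  have h6 : HasSum (fun z : X => del1 𝔟 𝔪 t β b z * term s (z : F)) (g s) := by
    have e : (fun z : X => del1 𝔟 𝔪 t β b z * term s (z : F)) = fun z : X =>
        del1 𝔟 𝔪 t β b z * (starRingEnd ℂ) (NF (z : F)) * (‖NF (z : F)‖ : ℂ) ^ (-2 * s) := by
      funext z
      unfold term
      rw [mul_assoc]
    rw [e]
    exact h5
  have hgt := sm_gt _ h3R β b hsm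
  have h7 : Summable (fun z : X => term s (z : F)) := by
    have h8 : Summable (fun z : X => ‖del1 𝔟 𝔪 t β b z * term s (z : F)‖) := h6.summable.norm
    refine Summable.of_norm_bounded h8 fun z => ?_
    rw [norm_mul]
    refine le_mul_of_one_le_left (norm_nonneg _) ?_
    unfold del1
    rw [if_pos (hX.1 z.2)]
    by_cases hm : (z : F) ∈ mulI 𝔟 β
    · rw [if_pos hm, mul_one, ← Complex.ofReal_one, ← Complex.ofReal_sub, Complex.norm_real,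
        Real.norm_eq_abs, abs_sub_comm, abs_of_nonneg (by linarith)]
      linarith
    · rw [if_neg hm, mul_zero, sub_zero, norm_one]
  obtain ⟨T, hT⟩ := h7
  refine ⟨T, hT, ?_⟩
  exact h6.unique (co_smooth1 𝔟 𝔪 t ht ht' h3 hR hsm X hX s T hT)

theorem co_entire {m : ℕ} (σ : Fin (m + 1) → (F →ₐ[K] ℂ)) (hσ : Function.Bijective σ)
    (k : ℕ) (hk : Module.finrank K F = 2 ^ k)
    (𝔟 𝔪 : Ideal (𝓞 F)) (hb : 𝔟 ≠ ⊥) (hm : 𝔪 ≠ ⊥) (hm2 : IsCoprime 𝔪 (Ideal.span {2}))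
    (h3 : 𝔪 ≤ Ideal.span {3}) (t : 𝓞 F) (ht : t ∈ 𝔟) (ht' : t ∉ 𝔪 * 𝔟) :
    ∃ g : ℂ → ℂ, Differentiable ℂ g ∧ ∀ X : Set F, IsRepsU 𝔪 (cls 𝔟 𝔪 t) X →
      ∀ s : ℂ, 2 < s.re → HasSum (fun z : X => term s (z : F)) (g s) := by
  obtain ⟨R₁, hodd, h3R, hall⟩ := co_gb σ hσ 𝔟 𝔪 hb hm hm2 h3 t ht ht'
  obtain ⟨h0, hV⟩ := co_cls 𝔟 𝔪 t ht ht'
  obtain ⟨X₀, hX₀⟩ := co_exists 𝔪 (cls 𝔟 𝔪 t) h0 hV
  have hsel : ∀ s₀ : ℂ, ∃ (b : 𝓞 K) (G : ℂ → ℂ), b ≠ 0 ∧ facQ b s₀ ≠ 0 ∧ Differentiable ℂ G ∧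
      ∀ X : Set F, IsRepsU 𝔪 (cls 𝔟 𝔪 t) X →
        ∀ s : ℂ, 2 < s.re → ∃ T : ℂ, HasSum (fun z : X => term s (z : F)) T ∧
          G s = T * facQ b s := by
    intro s₀
    obtain ⟨β, b, hsm, hne⟩ := sm_var k hk R₁ hodd h3R s₀
    obtain ⟨G, hG, hGs⟩ := hall β b hsm
    refine ⟨b, G, ?_, hne, hG, hGs⟩
    intro hb0
    apply hsm.odd0
    rw [hb0]
    exact dvd_zero _
  choose b G hbne hfac hG hGs using hsel
  have hident : ∀ s₀ s₁ : ℂ, (fun s => G s₀ s * facQ (b s₁) s) = fun s => G s₁ s * facQ (b s₀) s := by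
    intro s₀ s₁
    have hd1 : Differentiable ℂ (fun s => G s₀ s * facQ (b s₁) s) :=
      (hG s₀).mul (facQ_diff _ (hbne s₁))
    have hd2 : Differentiable ℂ (fun s => G s₁ s * facQ (b s₀) s) :=
      (hG s₁).mul (facQ_diff _ (hbne s₀))
    have ha1 : AnalyticOnNhd ℂ (fun s => G s₀ s * facQ (b s₁) s) Set.univ :=
      fun z _ => hd1.analyticAt z
    have ha2 : AnalyticOnNhd ℂ (fun s => G s₁ s * facQ (b s₀) s) Set.univ :=
      fun z _ => hd2.analyticAt z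
    refine ha1.eq_of_eventuallyEq ha2 (z₀ := 3) ?_
    have hopen : IsOpen {s : ℂ | 2 < s.re} := isOpen_lt continuous_const Complex.continuous_re
    filter_upwards [hopen.mem_nhds (show (3 : ℂ) ∈ {s : ℂ | 2 < s.re} by
      show (2 : ℝ) < (3 : ℂ).re
      norm_num)] with s hs
    obtain ⟨T, hT, e1⟩ := hGs s₀ X₀ hX₀ s hs
    obtain ⟨T', hT', e2⟩ := hGs s₁ X₀ hX₀ s hs
    rw [e1, e2, hT.unique hT']
    ring
  refine ⟨fun s => G s s / facQ (b s) s, ?_, ?_⟩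
  · intro s₀
    have hd : DifferentiableAt ℂ (fun s => G s₀ s / facQ (b s₀) s) s₀ :=
      ((hG s₀) s₀).div ((facQ_diff _ (hbne s₀)) s₀) (hfac s₀)
    refine hd.congr_of_eventuallyEq ?_
    have hc : ContinuousAt (facQ (b s₀)) s₀ := ((facQ_diff _ (hbne s₀)) s₀).continuousAt
    filter_upwards [hc.eventually_ne (hfac s₀)] with s hs
    have h1 := congrFun (hident s s₀) s
    rw [div_eq_div_iff (hfac s) hs]
    exact h1
  · intro X hX s hs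
    obtain ⟨T, hT, e1⟩ := hGs s X hX s hs
    have e2 : G s s / facQ (b s) s = T := by
      rw [e1, mul_div_cancel_right₀ _ (hfac s)]
    show HasSum (fun z : X => term s (z : F)) (G s s / facQ (b s) s)
    rw [e2]
    exact hT

end Pool.Agent.Lib.MP_1a91b9_ntT
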