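import Pool.Agent.Lib.MP_1a91b9_ntT.S6.Du2
import Pool.Agent.Lib.MP_1a91b9_ntT.S3.Iface

/-!
# Job S6_Fr1: unimodular frames have 2-integral values (DOC6 6.7)

* `fr_val`: `k'` odd natural number with `β' ∣ k'` (`nf_dvd` and `kf_odd` for `b'`), `D := k'`.
  `k' v_i = (k'/β') (β' v_i) ∈ DL 𝔟`, and for `z ∈ 𝔟`, `D Tr(v_i z) = Tr((k' v_i) z) ∈ 𝓞 K`.
  (`del z ≠ 0` implies `z ∈ cls ⊆ 𝔟`.)
  `c₁ := absNorm 𝔪 * k' * k` (`β ∣ k` odd): odd, and for `w ∈ 𝔟`: `c₁ w ∈ 𝔪 𝔟 ∩ β' 𝔟 ∩ β 𝔟`, so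
  `del (z + c₁ w) = del z`. Let `V_ij = bb.repr (v i) j`, `k' V` has entries in `𝓞 K`;
  `bb j = ∑ M_ji v_i`, `M = V⁻¹ = adj(V)/det V`, `adj(V) = adj(k' V)/k'^m`,
  `1/det V = k_u/u = k_u c_u / k₂` (`Unimod`: `k_u det V = u`, `kf_odd`: `u c_u = k₂` odd). So
  `c₂ := k'^m k₂` is odd and `c₂ M` has entries in `𝓞 K`. `c := c₁ c₂`. If `Tr(v_i μ) = c a_i` for all
  `i` then `Tr(bb_j μ) = ∑ M_ji c a_i ∈ c₁ 𝓞 K`, so `μ / c₁ ∈ 𝔟` (second property of `bb`).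
* `fr_det`: `d β' v_i` is integral for an odd `d` (`dl_int`), so `d k' v_i` is integral,
  `σ_j (v_i) ∈ A` (`kf_mem`), the determinant is a polynomial in them.
* `fr_mem`: all factors are in `A`: the values of `del` are integers (`‖embK b‖²` is a natural
  number, `kf_normInt`), `c` is odd so `c⁻¹ ∈ A`, `E1 (ixC D c x / c) / Om ∈ A` by `s3_mem` with
  `m = D c` (`D c * (ixC D c x / c) = p + q zt`). Divide the product of the `m + 1` factors by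
  `Om ^ (m + 1)`.
-/

set_option autoImplicit false

namespace Pool.Agent.Lib.MP_1a91b9_ntT

open NumberField

universe u

variable {F : Type u} [Field F] [NumberField F] [Algebra K F]

theorem fr1_vm {L : Type u} [Field L] (a b : 𝓞 L) : ((a * b : 𝓞 L) : L) = (a : L) * (b : L) := rfl

theorem fr1_va {L : Type u} [Field L] (a b : 𝓞 L) : ((a + b : 𝓞 L) : L) = (a : L) + (b : L) := rfl

theorem fr1_vs {L : Type u} [Field L] (a b : 𝓞 L) : ((a - b : 𝓞 L) : L) = (a : L) - (b : L) := rfl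

theorem fr1_vn {L : Type u} [Field L] (k : ℕ) : (((k : ℕ) : 𝓞 L) : L) = (k : L) :=
  map_natCast (algebraMap (𝓞 L) L) k

theorem fr1_vsum {L : Type u} [Field L] {n : ℕ} (f : Fin n → 𝓞 L) :
    ((∑ i, f i : 𝓞 L) : L) = ∑ i, (f i : L) :=
  map_sum (algebraMap (𝓞 L) L) f Finset.univ

theorem fr1_odd (𝔪 : Ideal (𝓞 F)) (hm : 𝔪 ≠ ⊥) (h : IsCoprime 𝔪 (Ideal.span {2})) :
    Odd (Ideal.absNorm 𝔪) := by
  by_contra hodd
  rw [Nat.not_odd_iff_even, even_iff_two_dvd, Ideal.absNorm_apply, Submodule.cardQuot_apply] at hodd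
  have : Finite (𝓞 F ⧸ 𝔪) := Ideal.finiteQuotientOfFreeOfNeBot 𝔪 hm
  have : Fact (Nat.Prime 2) := ⟨Nat.prime_two⟩
  obtain ⟨x, hx⟩ := exists_prime_addOrderOf_dvd_card' 2 hodd
  obtain ⟨y, rfl⟩ := Ideal.Quotient.mk_surjective x
  have h2 : (2 : ℕ) • (Ideal.Quotient.mk 𝔪 y) = 0 := by rw [← hx]; exact addOrderOf_nsmul_eq_zero _
  have h3 : 2 * y ∈ 𝔪 := by
    have e : 2 * y = (2 : ℕ) • y := by rw [nsmul_eq_mul]; norm_num
    rw [← Ideal.Quotient.eq_zero_iff_mem, e, map_nsmul, h2]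
  obtain ⟨i, hi, j, hj, hij⟩ := Ideal.isCoprime_iff_exists.mp h
  obtain ⟨z, rfl⟩ := Ideal.mem_span_singleton'.mp hj
  have h4 : y ∈ 𝔪 := by
    have e : y = y * i + z * (2 * y) := by
      calc y = y * (i + z * 2) := by rw [hij, mul_one]
        _ = _ := by ring
    rw [e]
    exact 𝔪.add_mem (𝔪.mul_mem_left _ hi) (𝔪.mul_mem_left _ h3)
  rw [← Ideal.Quotient.eq_zero_iff_mem] at h4
  rw [h4, addOrderOf_zero] at hx
  norm_num at hx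

/-- An odd natural number is a multiple of a smoothing element. -/
theorem fr1_mult {R : ℕ} {β : 𝓞 F} {b : 𝓞 K} (h : Smooth R β b) :
    ∃ (k : ℕ) (x : 𝓞 F), Odd k ∧ (k : 𝓞 F) = β * x := by
  obtain ⟨c, k, hk, hc, -⟩ := kf_odd b h.odd0
  obtain ⟨y, hy⟩ := nf_dvd β b h.nrm
  refine ⟨k, y * algebraMap (𝓞 K) (𝓞 F) c, hk, ?_⟩
  have e : (k : 𝓞 F) = algebraMap (𝓞 K) (𝓞 F) (k : 𝓞 K) := by simp
  rw [e, ← hc, map_mul, hy]
  ring

theorem fr1_cast (k : ℕ) : ((k : 𝓞 F) : F) = algebraMap K F (k : K) := by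
  rw [fr1_vn, map_natCast]

theorem fr1_tr (k : ℕ) (z : F) :
    Algebra.trace K F (((k : 𝓞 F) : F) * z) = (k : K) * Algebra.trace K F z := by
  rw [fr1_cast, ← Algebra.smul_def, map_smul, smul_eq_mul]

theorem fr1_k {𝔟 : Ideal (𝓞 F)} {β' x : 𝓞 F} {k : ℕ} (hk : (k : 𝓞 F) = β' * x) {v : F}
    (hv : (β' : F) * v ∈ DL 𝔟) : ((k : 𝓞 F) : F) * v ∈ DL 𝔟 := by
  have e : ((k : 𝓞 F) : F) * v = (x : F) * ((β' : F) * v) := by
    rw [hk, fr1_vm]; ring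
  rw [e]
  exact dl_smul 𝔟 x hv

theorem fr1_mulI {𝔟 : Ideal (𝓞 F)} {β x w : 𝓞 F} {c : 𝓞 F} (hc : c = β * x) (hw : w ∈ 𝔟) (z : F) :
    z + ((c * w : 𝓞 F) : F) ∈ mulI 𝔟 β ↔ z ∈ mulI 𝔟 β := by
  have hxw : x * w ∈ 𝔟 := 𝔟.mul_mem_left _ hw
  constructor
  · rintro ⟨y, hy, e⟩
    refine ⟨y - x * w, 𝔟.sub_mem hy hxw, ?_⟩
    rw [hc, fr1_vm, fr1_vm] at e
    rw [fr1_vs, fr1_vm]
    linear_combination e
  · rintro ⟨y, hy, e⟩
    refine ⟨y + x * w, 𝔟.add_mem hy hxw, ?_⟩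
    rw [hc, e, fr1_va, fr1_vm, fr1_vm, fr1_vm]
    ring

theorem fr1_cls {𝔟 𝔪 : Ideal (𝓞 F)} {t w c : 𝓞 F} (hc : c * w ∈ 𝔪 * 𝔟) (z : F) :
    z + ((c * w : 𝓞 F) : F) ∈ cls 𝔟 𝔪 t ↔ z ∈ cls 𝔟 𝔪 t := by
  constructor
  · rintro ⟨y, hy, e⟩
    refine ⟨y - c * w, ?_, ?_⟩
    · rw [fr1_vs, hy]; ring
    · have : y - c * w - t = (y - t) - c * w := by ring
      rw [this]
      exact (𝔪 * 𝔟).sub_mem e hc
  · rintro ⟨y, hy, e⟩
    refine ⟨y + c * w, ?_, ?_⟩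
    · rw [fr1_va, hy]
    · have : y + c * w - t = (y - t) + c * w := by ring
      rw [this]
      exact (𝔪 * 𝔟).add_mem e hc

theorem fr1_delc {𝔟 𝔪 : Ideal (𝓞 F)} {t β' β : 𝓞 F} {b : 𝓞 K} {y z : F}
    (e1 : y ∈ cls 𝔟 𝔪 t ↔ z ∈ cls 𝔟 𝔪 t) (e2 : y ∈ mulI 𝔟 β' ↔ z ∈ mulI 𝔟 β')
    (e3 : y ∈ mulI 𝔟 β ↔ z ∈ mulI 𝔟 β) :
    del 𝔟 𝔪 t β' β b y = del 𝔟 𝔪 t β' β b z := by
  unfold del
  by_cases h1 : z ∈ cls 𝔟 𝔪 t <;> by_cases h2 : z ∈ mulI 𝔟 β' <;> by_cases h3 : z ∈ mulI 𝔟 β <;>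
    simp [e1, e2, e3, h1, h2, h3]

/-- `del` is invariant under `c w`. -/
theorem fr1_del {𝔟 𝔪 : Ideal (𝓞 F)} {t β' β x' x w c : 𝓞 F} {b : 𝓞 K} (h1 : c * w ∈ 𝔪 * 𝔟)
    (h2 : c = β' * x') (h3 : c = β * x) (hw : w ∈ 𝔟) (z : F) :
    del 𝔟 𝔪 t β' β b (z + ((c * w : 𝓞 F) : F)) = del 𝔟 𝔪 t β' β b z := by
  exact fr1_delc (fr1_cls h1 z) (fr1_mulI h2 hw z) (fr1_mulI h3 hw z)

/-- Cramer's rule. -/
theorem fr1_cramer {n : ℕ} (V : Matrix (Fin n) (Fin n) K) (k' ku k₂ : ℕ) (u cu : 𝓞 K)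
    (W : Matrix (Fin n) (Fin n) (𝓞 K)) (hW : ∀ i j, ((W i j : 𝓞 K) : K) = (k' : K) * V i j)
    (hu : (ku : K) * V.det = u) (hcu : u * cu = k₂) (hk' : (k' : K) ≠ 0) (hk₂ : (k₂ : K) ≠ 0)
    (c₁ : ℕ) (y : Fin n → K) (a : Fin n → 𝓞 K)
    (hy : ∀ i, ∑ j, V i j * y j = ((c₁ * (k' ^ n * k₂) : ℕ) : K) * a i) (j : Fin n) :
    ∃ s : 𝓞 K, y j = (c₁ : K) * s := by
  have hWm : (algebraMap (𝓞 K) K).mapMatrix W = (k' : K) • V := by
    ext i j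
    simp only [RingHom.mapMatrix_apply, Matrix.map_apply, Matrix.smul_apply, smul_eq_mul]
    exact hW i j
  set S : 𝓞 K := ∑ i, W.adjugate j i * a i with hS
  have hdet : ((k' : K) • V).det = (k' : K) ^ n * V.det := by
    rw [Matrix.det_smul, Fintype.card_fin]
  have hadj : ((k' : K) • V).adjugate = (algebraMap (𝓞 K) K).mapMatrix W.adjugate := by
    rw [RingHom.map_adjugate, hWm]
  have h1 : ((k' : K) • V).adjugate.mulVec (((k' : K) • V).mulVec y) = ((k' : K) ^ n * V.det) • y := by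
    rw [Matrix.mulVec_mulVec, Matrix.adjugate_mul, hdet, Matrix.smul_mulVec, Matrix.one_mulVec]
  have h2 : ((k' : K) • V).mulVec y = fun i => (k' : K) * (((c₁ * (k' ^ n * k₂) : ℕ) : K) * a i) := by
    funext i
    simp only [Matrix.mulVec, dotProduct, Matrix.smul_apply, smul_eq_mul]
    rw [← hy i, Finset.mul_sum]
    refine Finset.sum_congr rfl fun j _ => by ring
  have h3 := congrFun h1 j
  rw [h2, hadj] at h3
  simp only [Matrix.mulVec, dotProduct, RingHom.mapMatrix_apply, Matrix.map_apply, Pi.smul_apply,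
    smul_eq_mul] at h3
  have h4 : ∑ i, (algebraMap (𝓞 K) K) (W.adjugate j i) *
      ((k' : K) * (((c₁ * (k' ^ n * k₂) : ℕ) : K) * (a i : K))) =
      (k' : K) * ((c₁ * (k' ^ n * k₂) : ℕ) : K) * (S : K) := by
    rw [hS, fr1_vsum, Finset.mul_sum]
    refine Finset.sum_congr rfl fun i _ => ?_
    rw [fr1_vm]
    change ((W.adjugate j i : 𝓞 K) : K) * _ = _
    ring
  rw [h4] at h3
  refine ⟨cu * (ku : 𝓞 K) * (k' : 𝓞 K) * S, ?_⟩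
  have hcu' : (u : K) * (cu : K) = (k₂ : K) := by
    rw [← fr1_vm, hcu, fr1_vn]
  have hkn : (k' : K) ^ n * (k₂ : K) ≠ 0 := mul_ne_zero (pow_ne_zero _ hk') hk₂
  apply mul_left_cancel₀ hkn
  rw [fr1_vm, fr1_vm, fr1_vm, fr1_vn, fr1_vn]
  push_cast at h3
  have h5 : (k' : K) ^ n * (k₂ : K) * y j = (cu : K) * (ku : K) * ((k' : K) ^ n * V.det * y j) := by
    rw [← hcu', ← hu]; ring
  rw [h5, ← h3]
  ring

theorem fr_val {m : ℕ} (𝔟 𝔪 : Ideal (𝓞 F)) (hb : 𝔟 ≠ ⊥) (hm : 𝔪 ≠ ⊥)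
    (hm2 : IsCoprime 𝔪 (Ideal.span {2})) (t : 𝓞 F) (ht : t ∈ 𝔟) {R' R : ℕ} (β' β : 𝓞 F)
    (b' b : 𝓞 K) (hβ' : Smooth R' β' b') (hβ : Smooth R β b)
    (bb : Module.Basis (Fin (m + 1)) K F)
    (hbb : ∀ v : F, v ∈ DL 𝔟 ↔ ∀ i, ∃ a : 𝓞 K, bb.repr v i = a)
    (hbb' : ∀ z : F, (∀ i, ∃ a : 𝓞 K, Algebra.trace K F (bb i * z) = a) ↔ ∃ w ∈ 𝔟, (w : F) = z)
    (v : Fin (m + 1) → F) (hv : ∀ i, Gen 𝔟 β' (v i)) (hu : Unimod bb v) :
    ∃ D c : ℕ, Odd D ∧ Odd c ∧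
      (∀ i z, del 𝔟 𝔪 t β' β b z ≠ 0 → ∃ a : 𝓞 K, (D : K) * Algebra.trace K F (v i * z) = a) ∧
      (∀ μ : F, (∀ i, ∃ a : 𝓞 K, Algebra.trace K F (v i * μ) = (c : K) * a) →
        ∀ z, del 𝔟 𝔪 t β' β b (z + μ) = del 𝔟 𝔪 t β' β b z) := by
  obtain ⟨k', x', hk', hx'⟩ := fr1_mult hβ'
  obtain ⟨k, x, hk, hx⟩ := fr1_mult hβ
  have hkv : ∀ i, ((k' : 𝓞 F) : F) * v i ∈ DL 𝔟 := fun i => fr1_k hx' (hv i).1
  obtain ⟨ku, u, hku, hu2, hud⟩ := hu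
  obtain ⟨cu, k₂, hk₂, hcu, -⟩ := kf_odd u hu2
  obtain ⟨N, hNodd, hNm⟩ : ∃ N : ℕ, Odd N ∧ (N : 𝓞 F) ∈ 𝔪 :=
    ⟨Ideal.absNorm 𝔪, fr1_odd 𝔪 hm hm2, Ideal.absNorm_mem 𝔪⟩
  obtain ⟨c₁, hc₁⟩ : ∃ c₁ : ℕ, c₁ = N * k' * k := ⟨_, rfl⟩
  have hc₁odd : Odd c₁ := by rw [hc₁]; exact (hNodd.mul hk').mul hk
  have hcodd : Odd (c₁ * (k' ^ (m + 1) * k₂)) := hc₁odd.mul ((Odd.pow hk').mul hk₂)
  have hk'0 : (k' : K) ≠ 0 := by
    have : k' ≠ 0 := by rintro rfl; simp at hk'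
    exact_mod_cast this
  have hk₂0 : (k₂ : K) ≠ 0 := by
    have : k₂ ≠ 0 := by rintro rfl; simp at hk₂
    exact_mod_cast this
  have hc₁0 : c₁ ≠ 0 := by intro h; rw [h] at hc₁odd; simp at hc₁odd
  refine ⟨k', c₁ * (k' ^ (m + 1) * k₂), hk', hcodd, ?_, ?_⟩
  · intro i z hz
    have hzc : z ∈ cls 𝔟 𝔪 t := by
      by_contra hzc
      apply hz
      unfold del
      rw [if_neg (fun h => hzc h.1)]
    obtain ⟨w, rfl, hw⟩ := hzc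
    have hw𝔟 : w ∈ 𝔟 := by
      have h0 : 𝔪 * 𝔟 ≤ 𝔟 := Ideal.mul_le_right
      have h1 : w - t ∈ 𝔟 := h0 hw
      have h2 : w = (w - t) + t := by ring
      rw [h2]; exact 𝔟.add_mem h1 ht
    obtain ⟨a, ha⟩ := hkv i w hw𝔟
    refine ⟨a, ?_⟩
    rw [← ha, ← fr1_tr, mul_assoc]
  · intro μ hμ z
    choose a ha using hμ
    -- the matrix of the values
    have hW : ∀ i j, ∃ s : 𝓞 K, (k' : K) * bb.repr (v i) j = s := by
      intro i j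
      obtain ⟨s, hs⟩ := (hbb _).mp (hkv i) j
      refine ⟨s, ?_⟩
      rw [← hs, fr1_cast, ← Algebra.smul_def, map_smul, Finsupp.smul_apply, smul_eq_mul]
    choose W hW using hW
    have hdet : (ku : K) * (Matrix.of fun i j => bb.repr (v i) j).det = u := by
      rw [← hud, Module.Basis.det_apply, ← Matrix.det_transpose]
      rfl
    have hy : ∀ i, ∑ j, (Matrix.of fun i j => bb.repr (v i) j) i j *
        Algebra.trace K F (bb j * μ) = ((c₁ * (k' ^ (m + 1) * k₂) : ℕ) : K) * a i := by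
      intro i
      rw [← ha i]
      conv_rhs => rw [← bb.sum_repr (v i)]
      rw [Finset.sum_mul, map_sum]
      refine Finset.sum_congr rfl fun j _ => ?_
      rw [smul_mul_assoc, map_smul, smul_eq_mul]
      rfl
    have hs := fun j => fr1_cramer (Matrix.of fun i j => bb.repr (v i) j) k' ku k₂ u cu
      (Matrix.of fun i j => W i j) (fun i j => (hW i j).symm) hdet hcu hk'0 hk₂0 c₁
      (fun j => Algebra.trace K F (bb j * μ)) a hy j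
    have hcF : (algebraMap K F (c₁ : K)) ≠ 0 := by
      rw [map_natCast]; exact_mod_cast hc₁0
    have hcK : (c₁ : K) ≠ 0 := by exact_mod_cast hc₁0
    obtain ⟨w, hw, hwz⟩ := (hbb' ((algebraMap K F (c₁ : K)⁻¹) * μ)).mp (by
      intro i
      obtain ⟨s, hs'⟩ := hs i
      refine ⟨s, ?_⟩
      have e : bb i * (algebraMap K F (c₁ : K)⁻¹ * μ) = (c₁ : K)⁻¹ • (bb i * μ) := by
        rw [Algebra.smul_def]; ring
      rw [e, map_smul, smul_eq_mul]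
      rw [hs', ← mul_assoc, inv_mul_cancel₀ hcK, one_mul])
    have hμ : μ = (((c₁ : 𝓞 F) * w : 𝓞 F) : F) := by
      rw [fr1_vm, fr1_vn, hwz, map_inv₀, map_natCast, ← mul_assoc, mul_inv_cancel₀ (by exact_mod_cast hc₁0), one_mul]
    rw [hμ]
    apply fr1_del (x' := x' * ((N * k : ℕ) : 𝓞 F)) (x := x * ((N * k' : ℕ) : 𝓞 F)) _ _ _ hw
    · rw [hc₁]
      have e : ((N * k' * k : ℕ) : 𝓞 F) * w = (N : 𝓞 F) * ((k' * k : ℕ) * w) := by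
        push_cast; ring
      rw [e]
      exact Ideal.mul_mem_mul hNm (𝔟.mul_mem_left _ hw)
    · rw [hc₁, ← mul_assoc, ← hx']; push_cast; ring
    · rw [hc₁, ← mul_assoc, ← hx]; push_cast; ring

theorem fr_det {m : ℕ} (A : ValuationSubring ℂ) (hA : Two A) (hU : U2 F) (𝔟 : Ideal (𝓞 F))
    (hb : 𝔟 ≠ ⊥) (h2 : IsCoprime 𝔟 (Ideal.span {2})) {R' : ℕ} (β' : 𝓞 F) (b' : 𝓞 K)
    (hβ' : Smooth R' β' b') (σ : Fin (m + 1) → (F →ₐ[K] ℂ)) (v : Fin (m + 1) → F)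
    (hv : ∀ i, Gen 𝔟 β' (v i)) : (Matrix.of fun i j => σ j (v i)).det ∈ A := by
  obtain ⟨d, hd, hdi⟩ := dl_int 𝔟 hb h2 hU
  obtain ⟨k', x', hk', hx'⟩ := fr1_mult hβ'
  have hmem : ∀ i j, σ j (v i) ∈ A := by
    intro i j
    apply kf_mem A hA (σ j (v i)) (d * k') (hd.mul hk')
    have h1 := hdi _ (fr1_k hx' (hv i).1)
    have h3 : IsIntegral ℤ (σ j ((d : F) * (((k' : 𝓞 F) : F) * v i))) :=
      h1.map (σ j).toRingHom.toIntAlgHom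
    have e : σ j ((d : F) * (((k' : 𝓞 F) : F) * v i)) = ((d * k' : ℕ) : ℂ) * σ j (v i) := by
      rw [fr1_vn, map_mul, map_mul, map_natCast, map_natCast]
      push_cast; ring
    rw [← e]
    exact h3
  have e : (Matrix.of fun i j => σ j (v i)) =
      (A.subtype).mapMatrix (Matrix.of fun i j => (⟨σ j (v i), hmem i j⟩ : A)) := by
    ext i j
    rfl
  rw [e, ← RingHom.map_det]
  exact (Matrix.det _ : A).2

theorem fr1_inv (A : ValuationSubring ℂ) (hA : Two A) (c : ℕ) (hc : Odd c) : (c : ℂ)⁻¹ ∈ A := by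
  apply kf_mem A hA _ c hc
  have : (c : ℂ) ≠ 0 := by
    have : c ≠ 0 := by rintro rfl; simp at hc
    exact_mod_cast this
  rw [mul_inv_cancel₀ this]
  exact isIntegral_one

theorem fr1_delmem (A : ValuationSubring ℂ) (𝔟 𝔪 : Ideal (𝓞 F)) (t β' β : 𝓞 F) (b : 𝓞 K) (z : F) :
    del 𝔟 𝔪 t β' β b z ∈ A := by
  obtain ⟨k, hk, -⟩ := kf_normInt b
  unfold del
  rw [← hk]
  split_ifs
  · refine A.sub_mem (one_mem _) (A.mul_mem _ _ ?_ (one_mem _))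
    rw [Complex.ofReal_natCast]
    exact natCast_mem A k
  · refine A.sub_mem (one_mem _) (A.mul_mem _ _ ?_ (zero_mem _))
    rw [Complex.ofReal_natCast]
    exact natCast_mem A k
  · exact zero_mem _

theorem fr_mem {m : ℕ} (A : ValuationSubring ℂ) (hA : Two A) (hU : U2 F) (𝔟 𝔪 : Ideal (𝓞 F))
    (hb : 𝔟 ≠ ⊥) (h2 : IsCoprime 𝔟 (Ideal.span {2})) (t : 𝓞 F) {R' R : ℕ} (β' β : 𝓞 F)
    (b' b : 𝓞 K) (hβ' : Smooth R' β' b') (hβ : Smooth R β b) (σ : Fin (m + 1) → (F →ₐ[K] ℂ))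
    (v : Fin (m + 1) → F) (hv : ∀ i, Gen 𝔟 β' (v i)) (D c : ℕ) (hD : Odd D) (hc : Odd c)
    (zz : (Fin (m + 1) → K) → F) :
    ((Matrix.of fun i j => σ j (v i)).det *
      ∑ x : Fin (m + 1) → Fin (c * D) × Fin (c * D),
        del 𝔟 𝔪 t β' β b (zz fun i => ixK D c (x i)) *
          ∏ i, (c : ℂ)⁻¹ * E1 (ixC D c (x i) / c)) / Om ^ (m + 1) ∈ A := by
  have hc0 : (c : ℂ) ≠ 0 := by
    have : c ≠ 0 := by rintro rfl; simp at hc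
    exact_mod_cast this
  have hD0 : (D : ℂ) ≠ 0 := by
    have : D ≠ 0 := by rintro rfl; simp at hD
    exact_mod_cast this
  have e : ((Matrix.of fun i j => σ j (v i)).det *
      ∑ x : Fin (m + 1) → Fin (c * D) × Fin (c * D),
        del 𝔟 𝔪 t β' β b (zz fun i => ixK D c (x i)) *
          ∏ i, (c : ℂ)⁻¹ * E1 (ixC D c (x i) / c)) / Om ^ (m + 1) =
      (Matrix.of fun i j => σ j (v i)).det *
      ∑ x : Fin (m + 1) → Fin (c * D) × Fin (c * D),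
        del 𝔟 𝔪 t β' β b (zz fun i => ixK D c (x i)) *
          ∏ i, (c : ℂ)⁻¹ * (E1 (ixC D c (x i) / c) / Om) := by
    rw [mul_div_assoc, Finset.sum_div]
    congr 1
    refine Finset.sum_congr rfl fun x _ => ?_
    rw [mul_div_assoc]
    congr 1
    have : ∏ i : Fin (m + 1), (c : ℂ)⁻¹ * (E1 (ixC D c (x i) / c) / Om) =
        (∏ i : Fin (m + 1), (c : ℂ)⁻¹ * E1 (ixC D c (x i) / c)) / ∏ _i : Fin (m + 1), Om := by
      rw [← Finset.prod_div_distrib]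
      refine Finset.prod_congr rfl fun i _ => ?_
      rw [mul_div_assoc]
    rw [this, Finset.prod_const, Finset.card_univ, Fintype.card_fin]
  rw [e]
  refine A.mul_mem _ _ (fr_det A hA hU 𝔟 hb h2 β' b' hβ' σ v hv) ?_
  refine sum_mem fun x _ => ?_
  refine A.mul_mem _ _ (fr1_delmem A 𝔟 𝔪 t β' β b _) ?_
  refine prod_mem fun i _ => ?_
  refine A.mul_mem _ _ (fr1_inv A hA c hc) ?_
  refine s3_mem A hA (D * c) (hD.mul hc) _ ⟨(((x i).1 : ℕ), ((x i).2 : ℕ)), ?_⟩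
  unfold ixC lp
  push_cast
  field_simp

end Pool.Agent.Lib.MP_1a91b9_ntT
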