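import Pool.Agent.Lib.MP_1a91b9_ntT.S6.KF

/-!
# Job S6_U2: the property `U2` along the tower, degrees (DOC6 6.1)

Induction on `TowerK` (the base and step statements below are used with
`induction h` / `TowerK.rec`).
* base: `algebraMap K F` bijective, `finrank K F = 1`, `trace (v * 1) = v` (for
  `v = algebraMap K F k` the trace is `k`): take `d = 1`.
* step: `F' = F(x)`, `x² = δ = a² + 4b`, `x ∉ F`. `1, x` is a basis of `F'` over `F`, so
  `trace F F' (p + q x) = 2 p`, `trace K F' = trace K F ∘ trace F F'` (`Algebra.trace_trace`).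
  Let `v = p + q x` with `trace K F' (v z') ∈ 𝓞 K` for all `z' ∈ 𝓞 F'`, `d₀` the integer of `F`.
  With `z' = z ∈ 𝓞 F`: `trace K F (2 p z) ∈ 𝓞 K`, so `P := d₀ * 2p` is integral.
  `ρ := (a + x)/2` is integral (`ρ² - aρ - b = 0`: `ρ² = (a² + 2ax + x²)/4`,
  `ρ² - aρ = (x² - a²)/4 = b`). With `z' = z ρ`: `trace F F' (v ρ) = a p + δ q`
  (`(p + q x)(a + x)/2 = (pa + qδ)/2 + (..) x`), so `Q := d₀ (a p + δ q)` is integral.
  Then `d₀ δ v = Q x - P x (a - x)/2` (check: `P x (a-x)/2 = (P a x - P δ)/2`), integral since `x`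
  and `(a - x)/2` are integral. `δ` divides the odd integer `absNorm (span {δ})` (odd because
  `IsCoprime δ 2`), so `d' := d₀ * absNorm (span {δ})` works.
* degree: `finrank K F' = 2 * finrank K F` (`finrank F F' = 2`).
-/

set_option autoImplicit false

namespace Pool.Agent.Lib.MP_1a91b9_ntT

open NumberField

universe u

private theorem u2a_finrank_one (F : Type u) [Field F] [NumberField F] [Algebra K F]
    (h : Function.Bijective (algebraMap K F)) : Module.finrank K F = 1 := by
  rw [← LinearEquiv.finrank_eq (LinearEquiv.ofBijective (Algebra.linearMap K F) h)]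
  exact Module.finrank_self K

theorem u2_base (F : Type u) [Field F] [NumberField F] [Algebra K F]
    (h : Function.Bijective (algebraMap K F)) : U2 F := by
  refine ⟨1, odd_one, fun v hv => ?_⟩
  obtain ⟨k, rfl⟩ := h.2 v
  obtain ⟨a, ha⟩ := hv 1
  have h1 : Algebra.trace K F (algebraMap K F k) = k := by
    rw [Algebra.trace_algebraMap, u2a_finrank_one F h, one_smul]
  have h2 : k = (a : K) := by
    rw [← h1, ← ha]
    congr 1
    simp
  rw [Nat.cast_one, one_mul, h2]
  exact a.2.map (algebraMap K F).toIntAlgHom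

theorem u2_trace (F F' : Type u) [Field F] [NumberField F] [Field F'] [NumberField F']
    [Algebra F F'] (δ : 𝓞 F) (x : F') (hx : x ^ 2 = algebraMap F F' δ)
    (hn : ¬ ∃ y : F, algebraMap F F' y = x)
    (hgen : ∀ z : F', ∃ a b : F, z = algebraMap F F' a + algebraMap F F' b * x) :
    Module.finrank F F' = 2 ∧ ∀ p q : F,
      Algebra.trace F F' (algebraMap F F' p + algebraMap F F' q * x) = 2 * p := by
  have hli : LinearIndependent F ![(1 : F'), x] := by
    rw [LinearIndependent.pair_iff]
    intro s t hst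
    have ht : t = 0 := by
      by_contra ht
      refine hn ⟨-(s / t), ?_⟩
      rw [Algebra.smul_def, Algebra.smul_def, mul_one] at hst
      have ht' : algebraMap F F' t ≠ 0 := by
        rw [Ne, map_eq_zero]
        exact ht
      rw [map_neg, map_div₀, eq_comm, ← sub_eq_zero]
      field_simp
      linear_combination hst
    rw [ht, zero_smul, add_zero, Algebra.smul_def, mul_one, map_eq_zero] at hst
    exact ⟨hst, ht⟩
  have hsp : ⊤ ≤ Submodule.span F (Set.range ![(1 : F'), x]) := by
    intro z _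
    obtain ⟨a, b, rfl⟩ := hgen z
    have h0 : (1 : F') ∈ Submodule.span F (Set.range ![(1 : F'), x]) :=
      Submodule.subset_span ⟨0, rfl⟩
    have h1 : x ∈ Submodule.span F (Set.range ![(1 : F'), x]) := Submodule.subset_span ⟨1, rfl⟩
    have := Submodule.add_mem _ (Submodule.smul_mem _ a h0) (Submodule.smul_mem _ b h1)
    rwa [Algebra.smul_def, Algebra.smul_def, mul_one] at this
  let bb : Module.Basis (Fin 2) F F' := Module.Basis.mk hli hsp
  have hb0 : bb 0 = 1 := by
    simp [bb]
  have hb1 : bb 1 = x := by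
    simp [bb]
  have hfr : Module.finrank F F' = 2 := by
    rw [Module.finrank_eq_card_basis bb, Fintype.card_fin]
  refine ⟨hfr, fun p q => ?_⟩
  have htx : Algebra.trace F F' x = 0 := by
    rw [Algebra.trace_eq_matrix_trace bb, Matrix.trace, Fin.sum_univ_two, Matrix.diag_apply,
      Matrix.diag_apply, Algebra.leftMulMatrix_eq_repr_mul, Algebra.leftMulMatrix_eq_repr_mul, hb0,
      hb1, mul_one, ← hb1]
    have e : bb 1 * bb 1 = (δ : F) • bb 0 := by
      rw [hb1, hb0, Algebra.smul_def, mul_one, ← hx, sq]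
    rw [e, map_smul, Module.Basis.repr_self, Module.Basis.repr_self]
    simp
  rw [map_add, Algebra.trace_algebraMap, hfr, ← Algebra.smul_def, map_smul, htx, smul_zero, add_zero,
    two_smul, two_mul]

private theorem u2a_norm_odd {F : Type u} [Field F] [NumberField F] (c : 𝓞 F) :
    Odd (Algebra.norm ℤ (1 - c * 2)) := by
  classical
  rw [Algebra.norm_eq_matrix_det (RingOfIntegers.basis F)]
  have h1 : (Int.castRingHom (ZMod 2)) (Algebra.leftMulMatrix (RingOfIntegers.basis F)
      (1 - c * 2)).det = 1 := by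
    rw [RingHom.map_det]
    have h2 : (Int.castRingHom (ZMod 2)).mapMatrix (Algebra.leftMulMatrix (RingOfIntegers.basis F)
        (1 - c * 2)) = 1 := by
      have h3 : (2 : 𝓞 F) = 1 + 1 := by norm_num
      rw [h3, mul_add, mul_one, map_sub, map_add, map_one, map_sub, map_add, map_one]
      have h4 : ∀ M : Matrix (Module.Free.ChooseBasisIndex ℤ (𝓞 F))
          (Module.Free.ChooseBasisIndex ℤ (𝓞 F)) (ZMod 2), M + M = 0 := by
        intro M
        ext i j
        rw [Matrix.add_apply, Matrix.zero_apply]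
        exact CharTwo.add_self_eq_zero _
      rw [h4, sub_zero]
    rw [h2, Matrix.det_one]
  rw [← Int.not_even_iff_odd, even_iff_two_dvd]
  intro h
  rw [eq_intCast, (ZMod.intCast_zmod_eq_zero_iff_dvd _ 2).2 (by exact_mod_cast h)] at h1
  exact zero_ne_one h1

theorem u2_odd {F : Type u} [Field F] [NumberField F] (δ : 𝓞 F) (h : IsCoprime δ 2) :
    Odd (Ideal.absNorm (Ideal.span {δ})) ∧ δ ∣ ((Ideal.absNorm (Ideal.span {δ}) : ℕ) : 𝓞 F) := by
  constructor
  · rw [Ideal.absNorm_span_singleton, Int.natAbs_odd]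
    obtain ⟨a, b, hab⟩ := h
    have h1 : Algebra.norm ℤ a * Algebra.norm ℤ δ = Algebra.norm ℤ (1 - b * 2) := by
      rw [← map_mul]
      congr 1
      rw [← hab]
      ring
    have h2 := u2a_norm_odd b
    rw [← h1, Int.odd_mul] at h2
    exact h2.2
  · rw [← Ideal.mem_span_singleton]
    exact Ideal.absNorm_mem _

theorem u2_step (F F' : Type u) [Field F] [NumberField F] [Algebra K F] [Field F']
    [NumberField F'] [Algebra K F'] [Algebra F F'] [IsScalarTower K F F'] (δ : 𝓞 F)
    (hδ : Adm F δ) (x : F') (hx : x ^ 2 = algebraMap F F' δ)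
    (hn : ¬ ∃ y : F, algebraMap F F' y = x)
    (hgen : ∀ z : F', ∃ a b : F, z = algebraMap F F' a + algebraMap F F' b * x)
    (h : U2 F) : U2 F' := by
  obtain ⟨d0, hd0, hU⟩ := h
  obtain ⟨-, htr⟩ := u2_trace F F' δ x hx hn hgen
  obtain ⟨hN, c, hc⟩ := u2_odd δ hδ.odd
  set N := Ideal.absNorm (Ideal.span {δ}) with hNdef
  refine ⟨d0 * N, hd0.mul hN, fun v hv => ?_⟩
  obtain ⟨p, q, rfl⟩ := hgen v
  obtain ⟨a, b, hab⟩ := hδ.sq
  have habF : (δ : F) = (a : F) ^ 2 + 4 * (b : F) := by
    have := congrArg (algebraMap (𝓞 F) F) hab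
    rw [map_add, map_pow, map_mul, map_ofNat] at this
    exact this
  have hint : ∀ z : 𝓞 F, IsIntegral ℤ (algebraMap F F' (z : F)) := fun z =>
    z.2.map (algebraMap F F').toIntAlgHom
  have hxi : IsIntegral ℤ x := by
    refine IsIntegral.of_pow (n := 2) (by norm_num) ?_
    rw [hx]
    exact hint δ
  have hx2 : x ^ 2 = algebraMap F F' (a : F) ^ 2 + 4 * algebraMap F F' (b : F) := by
    rw [hx, habF, map_add, map_pow, map_mul, map_ofNat]
  have hρ : ∀ s : F', s ^ 2 = x ^ 2 → IsIntegral ℤ ((algebraMap F F' (a : F) + s) / 2) := by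
    intro s hs
    have h1 : IsIntegral (𝓞 F) ((algebraMap F F' (a : F) + s) / 2) := by
      refine ⟨Polynomial.X ^ 2 - (Polynomial.C a * Polynomial.X + Polynomial.C b), ?_, ?_⟩
      · refine Polynomial.monic_X_pow_sub (lt_of_le_of_lt ((Polynomial.degree_add_le _ _).trans
          (max_le (Polynomial.degree_C_mul_X_le _) (Polynomial.degree_C_le.trans ?_))) ?_)
        · norm_num
        · norm_num
      · simp only [Polynomial.eval₂_sub, Polynomial.eval₂_add, Polynomial.eval₂_mul,
          Polynomial.eval₂_pow, Polynomial.eval₂_X, Polynomial.eval₂_C]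
        have ea : algebraMap (𝓞 F) F' a = algebraMap F F' (a : F) := rfl
        have eb : algebraMap (𝓞 F) F' b = algebraMap F F' (b : F) := rfl
        rw [ea, eb]
        rw [hx2] at hs
        linear_combination (1 / 4 : F') * hs
    exact isIntegral_trans _ h1
  have hP : IsIntegral ℤ ((d0 : F) * (2 * p)) := by
    refine hU _ fun z => ?_
    obtain ⟨e, he⟩ := hv (algebraMap (𝓞 F) (𝓞 F') z)
    refine ⟨e, ?_⟩
    have e1 : (algebraMap F F' p + algebraMap F F' q * x) *
        ((algebraMap (𝓞 F) (𝓞 F') z : 𝓞 F') : F') =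
        algebraMap F F' (p * z) + algebraMap F F' (q * z) * x := by
      have e2 : ((algebraMap (𝓞 F) (𝓞 F') z : 𝓞 F') : F') = algebraMap F F' (z : F) := rfl
      rw [e2, map_mul, map_mul]
      ring
    rw [e1, ← Algebra.trace_trace (S := F), htr] at he
    rw [← he]
    congr 1
    ring
  have hQ : IsIntegral ℤ ((d0 : F) * ((a : F) * p + δ * q)) := by
    refine hU _ fun z => ?_
    obtain ⟨e, he⟩ := hv (algebraMap (𝓞 F) (𝓞 F') z * ⟨_, hρ x rfl⟩)
    refine ⟨e, ?_⟩
    have e1 : (algebraMap F F' p + algebraMap F F' q * x) *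
        ((algebraMap (𝓞 F) (𝓞 F') z * ⟨(algebraMap F F' (a : F) + x) / 2, hρ x rfl⟩ : 𝓞 F') : F') =
        algebraMap F F' ((z : F) * (p * a + q * δ) / 2) +
          algebraMap F F' ((z : F) * (p + q * a) / 2) * x := by
      have e2 : ((algebraMap (𝓞 F) (𝓞 F') z *
          ⟨(algebraMap F F' (a : F) + x) / 2, hρ x rfl⟩ : 𝓞 F') : F') =
          algebraMap F F' (z : F) * ((algebraMap F F' (a : F) + x) / 2) := rfl
      rw [e2]
      simp only [map_mul, map_add, map_div₀, map_ofNat]
      linear_combination (algebraMap F F' (z : F) * algebraMap F F' q / 2) * hx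
    rw [e1, ← Algebra.trace_trace (S := F), htr] at he
    rw [← he]
    congr 1
    ring
  have hP' := hP.map (algebraMap F F').toIntAlgHom
  have hQ' := hQ.map (algebraMap F F').toIntAlgHom
  have hfin : IsIntegral ℤ ((algebraMap F F' ((d0 : F) * ((a : F) * p + δ * q))) * x -
      (algebraMap F F' ((d0 : F) * (2 * p))) * x * ((algebraMap F F' (a : F) + -x) / 2)) :=
    (hQ'.mul hxi).sub ((hP'.mul hxi).mul (hρ (-x) (by ring)))
  have hcF : ((N : ℕ) : F) = (δ : F) * (c : F) := by
    have := congrArg (algebraMap (𝓞 F) F) hc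
    rw [map_natCast, map_mul] at this
    exact this
  have hgoal : (((d0 * N : ℕ) : F')) * (algebraMap F F' p + algebraMap F F' q * x) =
      algebraMap F F' (c : F) * ((algebraMap F F' ((d0 : F) * ((a : F) * p + δ * q))) * x -
      (algebraMap F F' ((d0 : F) * (2 * p))) * x * ((algebraMap F F' (a : F) + -x) / 2)) := by
    have e3 : ((N : ℕ) : F') = algebraMap F F' (δ : F) * algebraMap F F' (c : F) := by
      rw [← map_mul, ← hcF, map_natCast]
    rw [Nat.cast_mul, e3]
    simp only [map_mul, map_add, map_ofNat, map_natCast]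
    linear_combination (-(algebraMap F F' (c : F)) * d0 * algebraMap F F' p) * hx
  rw [hgoal]
  exact (hint c).mul hfin

theorem u2_tower (F : Type u) [Field F] [NumberField F] [Algebra K F] (h : TowerK F) : U2 F := by
  induction h with
  | base F h => exact u2_base F h
  | step F F' δ hδ x hx hn hgen h ih => exact u2_step F F' δ hδ x hx hn hgen ih

theorem finrank_tower (F : Type u) [Field F] [NumberField F] [Algebra K F] (h : TowerK F) :
    ∃ k : ℕ, Module.finrank K F = 2 ^ k := by
  induction h with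
  | base F h => exact ⟨0, by rw [u2a_finrank_one F h, pow_zero]⟩
  | step F F' δ hδ x hx hn hgen h ih =>
    obtain ⟨k, hk⟩ := ih
    refine ⟨k + 1, ?_⟩
    rw [← Module.finrank_mul_finrank K F F', hk, (u2_trace F F' δ x hx hn hgen).1, pow_succ]

end Pool.Agent.Lib.MP_1a91b9_ntT
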