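import Pool.Agent.Lib.MP_1a91b9_ntT.S6.Co2
import Pool.Agent.Lib.MP_1a91b9_ntT.S6.Ar1
import Pool.Agent.Lib.MP_1a91b9_ntT.S6.Fr1
import Pool.Agent.Lib.MP_1a91b9_ntT.S6.U2a

/-!
# Job S6_Co3: 2-integrality of the value at 1 (DOC6 6.8)

`g` = the entire function of `co_entire` (any function with the two properties). `N𝔪 = absNorm 𝔪`
(odd), `R' := 3 N𝔪`, `β', b'` from `sm_exists` (odd `R'`), `bb` from `dl_basis`, `v₀` from
`gen_exists`, `ε` from `un_free` (as elements of `F`).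
`co_S`: finite set `S` of `Gen 𝔟 β'` vectors which contains `v₀ ∏_{i ∈ T} ε_i` for all
`T : Finset (Fin m)` (these are `Gen` by `gen_unit`; all entries of `path ε s v₀` are of this form)
and, for every permutation `s` for which `path ε s v₀` is linearly independent, the set of `ar_main`
(exponent from `ar_exp`); every `I, M` as in `ar_main` for `S` satisfy `I (path ε s v₀) ∈ M`
(if the path is dependent `I = 0`).
`co_val`: `R₀` from `de_adm` for `S`; `R := 3 R₀ N𝔪 (odd part of absNorm (span {β'}))`, `β, b` from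
`sm_exists`; `IsCoprime β β'` (`β ≡ 1` modulo the odd part of `absNorm β'`, `β'` odd: `de_cop` for
`N = absNorm (span {β'})` and `β' ∣ N`). `Adm2 (del ..) S`, `s2_main` gives `I`, and the entire `g₂`
with `HasSum (del z term s z) (g₂ s)` over representatives of the support `cls \ mulI 𝔟 β'`
(`co_sup`, `co_reps`; if `X` represents `cls` then `X \ mulI 𝔟 β'` represents it, `co_mulI`, and the
sum over `X` is the same since `del = 0` on `mulI 𝔟 β'`). By `co_smooth`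
`g₂ s = g s * facQ b s * facP b' s` for `Re s > 2`, hence for all `s`, in particular at `s = 1`:
`facQ b 1 = 1 - conj b`, `facP b' 1 = 1 - 1/b'` where `facP b' s = 1 - conj b' ‖b'‖^(-2s)`.
`M := {x | x / Om^(m+1) ∈ A}` (additive subgroup). `I (path ..) ∈ M` by `co_S`: the frame clause of
`s2_main` with `fr_val`, `fr_mem` (`zz a` = the element with `Tr(v_i zz a) = a_i`, exists by
nondegeneracy of the trace form). So `g₂ 1 ∈ M`. `1 - conj b` and `1 - 1/b' = (b'-1)/b'` and their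
inverses are in `A` (`kf_unitA` for `b - 1`, `b' - 1`, `b'`; for the conjugate: `(b-1) c = k` odd
(`kf_odd`), conjugate this equation; `conj (embK c)` is integral). Hence `g 1 ∈ M`.
-/

set_option autoImplicit false

namespace Pool.Agent.Lib.MP_1a91b9_ntT

open NumberField

universe u

variable {F : Type u} [Field F] [NumberField F] [Algebra K F]

theorem co_conj (A : ValuationSubring ℂ) (hA : Two A) (a : 𝓞 K) (ha : ¬ (2 : 𝓞 K) ∣ a) :
    (starRingEnd ℂ) (embK (a : K)) ∈ A ∧ ((starRingEnd ℂ) (embK (a : K)))⁻¹ ∈ A ∧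
      (starRingEnd ℂ) (embK (a : K)) ≠ 0 := by
  obtain ⟨c, k, hk, hac, -⟩ := kf_odd a ha
  have hint : ∀ x : 𝓞 K, IsIntegral ℤ ((starRingEnd ℂ) (embK (x : K))) := fun x =>
    map_isIntegral_int (starRingEnd ℂ) (map_isIntegral_int (embK : K →+* ℂ) x.isIntegral_coe)
  have h1 : (starRingEnd ℂ) (embK (a : K)) * (starRingEnd ℂ) (embK (c : K)) = (k : ℂ) := by
    rw [← map_mul, ← map_mul]
    have h2 : (a : K) * (c : K) = ((k : ℕ) : K) := by
      have h3 := congrArg (fun x : 𝓞 K => (x : K)) hac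
      simpa using h3
    rw [h2, map_natCast, map_natCast]
  have hk0 : (k : ℂ) ≠ 0 := by
    have : k ≠ 0 := by
      rintro rfl
      exact absurd hk (by decide)
    exact_mod_cast this
  have hne : (starRingEnd ℂ) (embK (a : K)) ≠ 0 := by
    intro h0
    rw [h0, zero_mul] at h1
    exact hk0 h1.symm
  refine ⟨?_, ?_, hne⟩
  · refine kf_mem A hA _ 1 odd_one ?_
    rw [Nat.cast_one, one_mul]
    exact hint a
  · refine kf_mem A hA _ k hk ?_
    have h2 : (k : ℂ) * ((starRingEnd ℂ) (embK (a : K)))⁻¹ = (starRingEnd ℂ) (embK (c : K)) := by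
      rw [← h1, mul_comm, ← mul_assoc, inv_mul_cancel₀ hne, one_mul]
    rw [h2]
    exact hint c

omit [NumberField F] [Algebra K F] in
theorem co3_path {m : ℕ} (ε : Fin m → F) (s : Equiv.Perm (Fin m)) (v : F) (j : Fin (m + 1)) :
    ∃ T : Finset (Fin m), path ε s v j = v * ∏ i ∈ T, ε i := by
  classical
  refine ⟨(Finset.univ.filter fun i : Fin m => (i : ℕ) < (j : ℕ)).map s.toEmbedding, ?_⟩
  rw [path, Finset.prod_map, Finset.prod_filter]
  rfl

theorem co_S {m : ℕ} (𝔟 : Ideal (𝓞 F)) (hb : 𝔟 ≠ ⊥) {R : ℕ} (β' : 𝓞 F) (b' : 𝓞 K)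
    (hβ : Smooth R β' b') (bb : Module.Basis (Fin (m + 1)) K F)
    (hbb : ∀ v : F, v ∈ DL 𝔟 ↔ ∀ i, ∃ a : 𝓞 K, bb.repr v i = a) (v₀ : F) (hv₀ : Gen 𝔟 β' v₀)
    (ε : Fin m → (𝓞 F)ˣ) :
    ∃ S : Finset F, (∀ w ∈ S, Gen 𝔟 β' w) ∧
      (∀ T : Finset (Fin m), v₀ * ∏ i ∈ T, ((ε i : 𝓞 F) : F) ∈ S) ∧
      ∀ (I : (Fin (m + 1) → F) → ℂ) (M : AddSubgroup ℂ),
          (∀ w : Fin (m + 2) → F, (∀ i, w i ∈ S) →
            ∑ i : Fin (m + 2), (-1) ^ (i : ℕ) * I (fun j => w (i.succAbove j)) = 0) →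
          (∀ w : Fin (m + 1) → F, (∀ i, w i ∈ S) → ¬ LinearIndependent K w → I w = 0) →
          (∀ w : Fin (m + 1) → F, (∀ i, w i ∈ S) → LinearIndependent K w → Unimod bb w →
            I w ∈ M) →
          ∀ s : Equiv.Perm (Fin m), I (path (fun i => ((ε i : 𝓞 F) : F)) s v₀) ∈ M := by
  classical
  set ε' : Fin m → F := fun i => ((ε i : 𝓞 F) : F) with hε'
  have hgenT : ∀ T : Finset (Fin m), Gen 𝔟 β' (v₀ * ∏ i ∈ T, ε' i) := by
    intro T
    have h1 : v₀ * ∏ i ∈ T, ε' i = (((∏ i ∈ T, ε i : (𝓞 F)ˣ) : 𝓞 F) : F) * v₀ := by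
      have h2 := map_prod (algebraMap (𝓞 F) F) (fun i => ((ε i : (𝓞 F)ˣ) : 𝓞 F)) T
      rw [mul_comm, Units.coe_prod]
      exact congrArg (· * v₀) h2.symm
    rw [h1]
    exact gen_unit 𝔟 β' v₀ hv₀ _
  have hgenp : ∀ (s : Equiv.Perm (Fin m)) (j : Fin (m + 1)), Gen 𝔟 β' (path ε' s v₀ j) := by
    intro s j
    obtain ⟨T, hT⟩ := co3_path ε' s v₀ j
    rw [hT]
    exact hgenT T
  have hSs : ∀ s : Equiv.Perm (Fin m), ∃ S : Finset F, (∀ w ∈ S, Gen 𝔟 β' w) ∧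
      (LinearIndependent K (path ε' s v₀) → ∀ (I : (Fin (m + 1) → F) → ℂ) (M : AddSubgroup ℂ),
          (∀ w : Fin (m + 2) → F, (∀ i, w i ∈ S) →
            ∑ i : Fin (m + 2), (-1) ^ (i : ℕ) * I (fun j => w (i.succAbove j)) = 0) →
          (∀ w : Fin (m + 1) → F, (∀ i, w i ∈ S) → ¬ LinearIndependent K w → I w = 0) →
          (∀ w : Fin (m + 1) → F, (∀ i, w i ∈ S) → LinearIndependent K w → Unimod bb w →
            I w ∈ M) → I (path ε' s v₀) ∈ M) := by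
    intro s
    by_cases hl : LinearIndependent K (path ε' s v₀)
    · obtain ⟨e, k, u, h1, h2, h3⟩ := ar_exp 𝔟 hb β' b' hβ bb hbb (path ε' s v₀) (hgenp s) hl
      obtain ⟨S, hS1, -, hS3⟩ := ar_main 𝔟 hb β' b' hβ bb hbb e (path ε' s v₀) (hgenp s)
        ⟨k, u, h1, h2, h3⟩
      exact ⟨S, hS1, fun _ => hS3⟩
    · exact ⟨∅, fun w hw => absurd hw (Finset.notMem_empty w), fun h => absurd h hl⟩
  choose Ss hSs1 hSs2 using hSs
  refine ⟨Finset.univ.image (fun T : Finset (Fin m) => v₀ * ∏ i ∈ T, ε' i) ∪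
    Finset.univ.biUnion Ss, ?_, ?_, ?_⟩
  · intro w hw
    rcases Finset.mem_union.1 hw with h | h
    · obtain ⟨T, -, rfl⟩ := Finset.mem_image.1 h
      exact hgenT T
    · obtain ⟨s, -, hs⟩ := Finset.mem_biUnion.1 h
      exact hSs1 s w hs
  · intro T
    exact Finset.mem_union_left _ (Finset.mem_image.2 ⟨T, Finset.mem_univ _, rfl⟩)
  · intro I M hI1 hI2 hI3 s
    by_cases hl : LinearIndependent K (path ε' s v₀)
    · have hsub : ∀ w ∈ Ss s, w ∈ Finset.univ.image (fun T : Finset (Fin m) => v₀ * ∏ i ∈ T, ε' i) ∪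
          Finset.univ.biUnion Ss := fun w hw =>
        Finset.mem_union_right _ (Finset.mem_biUnion.2 ⟨s, Finset.mem_univ _, hw⟩)
      exact hSs2 s hl I M (fun w hw => hI1 w fun i => hsub _ (hw i))
        (fun w hw => hI2 w fun i => hsub _ (hw i)) (fun w hw => hI3 w fun i => hsub _ (hw i))
    · rw [hI2 _ (fun j => ?_) hl]
      · exact M.zero_mem
      · obtain ⟨T, hT⟩ := co3_path ε' s v₀ j
        rw [hT]
        exact Finset.mem_union_left _ (Finset.mem_image.2 ⟨T, Finset.mem_univ _, rfl⟩)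

/-- The trace coordinates of an independent family are arbitrary. -/
theorem co3_zz {m : ℕ} (hn : Module.finrank K F = m + 1) (w : Fin (m + 1) → F)
    (hw : LinearIndependent K w) :
    ∃ zz : (Fin (m + 1) → K) → F, ∀ a i, Algebra.trace K F (w i * zz a) = a i := by
  let T : F →ₗ[K] (Fin (m + 1) → K) :=
    { toFun := fun z i => Algebra.trace K F (w i * z)
      map_add' := by
        intro x y
        funext i
        simp [mul_add]
      map_smul' := by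
        intro r x
        funext i
        simp }
  have hspan : Submodule.span K (Set.range w) = ⊤ :=
    hw.span_eq_top_of_card_eq_finrank (by rw [Fintype.card_fin, hn])
  have hinj : Function.Injective T := by
    rw [← LinearMap.ker_eq_bot, LinearMap.ker_eq_bot']
    intro z hz
    have h1 : ∀ x : F, Algebra.trace K F (x * z) = 0 := by
      intro x
      have hx : x ∈ Submodule.span K (Set.range w) := by rw [hspan]; trivial
      induction hx using Submodule.span_induction with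
      | mem x hx =>
        obtain ⟨i, rfl⟩ := hx
        exact congrFun hz i
      | zero => simp
      | add x y _ _ h1 h2 => rw [add_mul, map_add, h1, h2, add_zero]
      | smul r x _ h1 => rw [smul_mul_assoc, map_smul, h1, smul_zero]
    by_contra hz0
    have hnd := traceForm_nondegenerate K F
    have h2 : ∀ x : F, Algebra.traceForm K F x z = 0 := fun x => by
      rw [Algebra.traceForm_apply]
      exact h1 x
    exact hz0 (hnd.2 z h2)
  have hsurj : Function.Surjective T := by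
    have hfr : Module.finrank K F = Module.finrank K (Fin (m + 1) → K) := by
      rw [hn, Module.finrank_fintype_fun_eq_card, Fintype.card_fin]
    exact (LinearMap.injective_iff_surjective_of_finrank_eq_finrank hfr).1 hinj
  choose zz hzz using hsurj
  exact ⟨zz, fun a i => congrFun (hzz a) i⟩


omit [Algebra K F] in
/-- An odd natural number in an odd ideal. -/
theorem co3_odd (𝔪 : Ideal (𝓞 F)) (hm2 : IsCoprime 𝔪 (Ideal.span {2})) :
    ∃ N : ℕ, Odd N ∧ (N : 𝓞 F) ∈ 𝔪 := by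
  obtain ⟨u, hu, v, hv, huv⟩ := Ideal.isCoprime_iff_exists.1 hm2
  obtain ⟨y, rfl⟩ := Ideal.mem_span_singleton.1 hv
  have hcop : IsCoprime u 2 := ⟨1, y, by rw [one_mul, mul_comm y]; exact huv⟩
  obtain ⟨h1, h2⟩ := u2_odd u hcop
  refine ⟨_, h1, ?_⟩
  obtain ⟨c, hc⟩ := h2
  rw [hc]
  exact 𝔪.mul_mem_right _ hu

/-- The factor attached to `β'`. -/
noncomputable def facP (b : 𝓞 K) (s : ℂ) : ℂ :=
  1 - (starRingEnd ℂ) (embK (b : K)) * (‖embK (b : K)‖ : ℂ) ^ (-2 * s)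

theorem facP_diff (b : 𝓞 K) (hb : b ≠ 0) : Differentiable ℂ (facP b) := by
  unfold facP
  have h0 : (‖embK (b : K)‖ : ℂ) ≠ 0 := by
    have h1 : embK (b : K) ≠ 0 := by
      intro h
      apply hb
      have h2 : (b : K) = 0 := (map_eq_zero embK).1 h
      exact_mod_cast h2
    exact_mod_cast norm_ne_zero_iff.2 h1
  refine (differentiable_const _).sub ((differentiable_const _).mul ?_)
  intro s
  exact DifferentiableAt.const_cpow (by fun_prop) (Or.inl h0)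

theorem co3_cpow (x : ℂ) (hx : x ≠ 0) : (‖x‖ : ℂ) ^ (-2 * (1 : ℂ)) = (x * (starRingEnd ℂ) x)⁻¹ := by
  have h0 : (‖x‖ : ℂ) ≠ 0 := by exact_mod_cast norm_ne_zero_iff.2 hx
  have h1 : (-2 * (1 : ℂ)) = ((-2 : ℤ) : ℂ) := by push_cast; ring
  rw [h1, Complex.cpow_intCast, Complex.mul_conj, Complex.normSq_eq_norm_sq]
  push_cast
  rw [zpow_neg]
  norm_cast

/-- The values at `1` of the factors. -/
theorem co3_fac (A : ValuationSubring ℂ) (hA : Two A) (b b' : 𝓞 K) (h0 : ¬ (2 : 𝓞 K) ∣ b)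
    (h1 : ¬ (2 : 𝓞 K) ∣ b - 1) (h0' : ¬ (2 : 𝓞 K) ∣ b') (h1' : ¬ (2 : 𝓞 K) ∣ b' - 1) :
    facQ b 1 ≠ 0 ∧ (facQ b 1)⁻¹ ∈ A ∧ facP b' 1 ≠ 0 ∧ (facP b' 1)⁻¹ ∈ A := by
  obtain ⟨-, -, hb⟩ := kf_unitA A hA b h0
  obtain ⟨hb'A, -, hb'⟩ := kf_unitA A hA b' h0'
  have e1 : facQ b 1 = -(starRingEnd ℂ) (embK ((b - 1 : 𝓞 K) : K)) := by
    unfold facQ
    rw [co3_cpow _ hb]
    have h2 : (((‖embK (b : K)‖ ^ 2 : ℝ)) : ℂ) = embK (b : K) * (starRingEnd ℂ) (embK (b : K)) := by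
      rw [Complex.mul_conj, Complex.normSq_eq_norm_sq]
    have h3 : (starRingEnd ℂ) (embK (b : K)) ≠ 0 := by
      simpa using hb
    have h4 : embK ((b - 1 : 𝓞 K) : K) = embK (b : K) - 1 := by
      push_cast
      rw [map_sub, map_one]
    rw [h2, h4, map_sub, map_one]
    field_simp
    ring
  have e2 : facP b' 1 = embK ((b' - 1 : 𝓞 K) : K) * (embK (b' : K))⁻¹ := by
    unfold facP
    rw [co3_cpow _ hb']
    have h3 : (starRingEnd ℂ) (embK (b' : K)) ≠ 0 := by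
      simpa using hb'
    have h4 : embK ((b' - 1 : 𝓞 K) : K) = embK (b' : K) - 1 := by
      push_cast
      rw [map_sub, map_one]
    rw [h4]
    field_simp
  obtain ⟨-, hc2, hc3⟩ := co_conj A hA (b - 1) h1
  obtain ⟨-, hd2, hd3⟩ := kf_unitA A hA (b' - 1) h1'
  refine ⟨?_, ?_, ?_, ?_⟩
  · rw [e1]
    exact neg_ne_zero.2 hc3
  · rw [e1, inv_neg]
    exact neg_mem hc2
  · rw [e2]
    exact mul_ne_zero hd3 (inv_ne_zero hb')
  · rw [e2, mul_inv, inv_inv]
    exact mul_mem hd2 hb'A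

/-- The additive group of the `x` with `x / Om ^ n ∈ A`. -/
def co3_M (A : ValuationSubring ℂ) (n : ℕ) : AddSubgroup ℂ where
  carrier := {x | x / Om ^ n ∈ A}
  zero_mem' := by
    rw [Set.mem_ofPred_eq, zero_div]
    exact zero_mem A
  add_mem' := by
    intro a b ha hb
    rw [Set.mem_ofPred_eq, add_div]
    exact add_mem ha hb
  neg_mem' := by
    intro a ha
    rw [Set.mem_ofPred_eq, neg_div]
    exact neg_mem ha

theorem co3_memM (A : ValuationSubring ℂ) (n : ℕ) (x : ℂ) : x ∈ co3_M A n ↔ x / Om ^ n ∈ A :=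
  Iff.rfl

theorem co_val {m : ℕ} (σ : Fin (m + 1) → (F →ₐ[K] ℂ)) (hσ : Function.Bijective σ)
    (k : ℕ) (hk : Module.finrank K F = 2 ^ k) (hU : U2 F)
    (𝔟 𝔪 : Ideal (𝓞 F)) (hb : 𝔟 ≠ ⊥) (hb2 : IsCoprime 𝔟 (Ideal.span {2})) (hm : 𝔪 ≠ ⊥)
    (hm2 : IsCoprime 𝔪 (Ideal.span {2}))
    (h3 : 𝔪 ≤ Ideal.span {3}) (t : 𝓞 F) (ht : t ∈ 𝔟) (ht' : t ∉ 𝔪 * 𝔟)
    (g : ℂ → ℂ) (hg : Differentiable ℂ g)
    (hgs : ∀ X : Set F, IsRepsU 𝔪 (cls 𝔟 𝔪 t) X →
      ∀ s : ℂ, 2 < s.re → HasSum (fun z : X => term s (z : F)) (g s))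
    (A : ValuationSubring ℂ) (hA : Two A) : g 1 / Om ^ (m + 1) ∈ A := by
  classical
  have hn : Module.finrank K F = m + 1 := nf_card σ hσ
  obtain ⟨N, hNodd, hN⟩ := co3_odd 𝔪 hm2
  have hN3 : Odd (3 * N) := Odd.mul (by decide) hNodd
  obtain ⟨β', b', hβ'⟩ := sm_exists (F := F) k hk (3 * N) hN3
  have hR' : ((3 * N : ℕ) : 𝓞 F) ∈ 𝔪 := by
    push_cast
    exact 𝔪.mul_mem_left _ hN
  obtain ⟨bb, hbb, hbb'⟩ := dl_basis 𝔟 hb hn
  obtain ⟨v₀, hv₀⟩ := gen_exists 𝔟 hb hβ'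
  obtain ⟨ε, hε, hεb⟩ := un_free σ hσ 𝔪 hm h3
  obtain ⟨S, hS1, hS2, hS3⟩ := co_S 𝔟 hb β' b' hβ' bb hbb v₀ hv₀ ε
  obtain ⟨R₀, hR₀, hadm⟩ := de_adm 𝔟 𝔪 hb hm t ht (Dvd.intro N rfl) β' b' hβ' S hS1
  have hβ'2 : IsCoprime β' 2 := by
    have h := de_cop hβ' 2 (by norm_num) (by
      intro q hq hq2
      rcases (Nat.dvd_prime Nat.prime_two).1 hq2 with h | h
      · rw [h]; exact one_dvd _
      · rw [h] at hq; exact absurd hq (by decide))
    exact_mod_cast h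
  obtain ⟨hN1, hN2⟩ := u2_odd β' hβ'2
  set N' : ℕ := Ideal.absNorm (Ideal.span {β'}) with hN'
  have hRodd : Odd (3 * R₀ * N * N') := ((Odd.mul (by decide) hR₀).mul hNodd).mul hN1
  obtain ⟨β, b, hβ⟩ := sm_exists (F := F) k hk (3 * R₀ * N * N') hRodd
  have hR : ((3 * R₀ * N * N' : ℕ) : 𝓞 F) ∈ 𝔪 := by
    push_cast
    exact 𝔪.mul_mem_right _ (𝔪.mul_mem_left _ hN)
  have hcop : IsCoprime β β' := by
    have h := de_cop hβ N' hN1.pos (fun q _ hq2 => hq2.mul_left _)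
    exact h.of_isCoprime_of_dvd_right hN2
  have hAdm := hadm (3 * R₀ * N * N') β b
    (((Dvd.intro_left 3 rfl).mul_right _).mul_right _) hβ
  obtain ⟨I, hI1, hI2, hI3, hI4⟩ := s2_main σ hσ (del 𝔟 𝔪 t β' β b) (S : Set F) S.finite_toSet hAdm
  set ε' : Fin m → F := fun i => ((ε i : 𝓞 F) : F) with hε'
  obtain ⟨g₂, hg₂, hg₂s, hg₂v⟩ := hI4 ε' (fun i => by
      have h1 : ((ε i : (𝓞 F)ˣ) : 𝓞 F) ≠ 0 := (ε i).ne_zero
      exact RingOfIntegers.coe_ne_zero_iff.2 h1)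
    (fun i => un_norm 𝔪 h3 (ε i) (hε i))
    (fun i z => (co_inv 𝔟 𝔪 t ht β' β b (ε i) (hε i) z).1)
    (un_det σ hσ 𝔪 hm h3 ε hε hεb)
  -- the value of `g₂` at `1`
  have hval := hg₂v v₀ (by
      have h1 := hS2 ∅
      rw [Finset.prod_empty, mul_one] at h1
      exact (hAdm.ne v₀ h1).1) (fun T => hS2 T)
  have hpathM : ∀ s : Equiv.Perm (Fin m), I (path ε' s v₀) ∈ co3_M A (m + 1) := by
    refine hS3 I (co3_M A (m + 1)) (fun w hw => hI1 w hw) (fun w hw => hI2 w hw) ?_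
    intro w hw hl hu
    obtain ⟨D, c, hD, hc, h1, h2⟩ := fr_val 𝔟 𝔪 hb hm hm2 t ht β' β b' b hβ' hβ bb hbb hbb' w
      (fun i => hS1 _ (hw i)) hu
    obtain ⟨zz, hzz⟩ := co3_zz hn w hl
    rw [co3_memM, hI3 w hw hl D c hD.pos hc.pos h1 h2 zz hzz]
    exact fr_mem A hA hU 𝔟 𝔪 hb hb2 t β' β b' b hβ' hβ σ w (fun i => hS1 _ (hw i)) D c hD hc zz
  have hg2M : g₂ 1 ∈ co3_M A (m + 1) := by
    have hint : ∀ (z : ℤ) (x : ℂ), x ∈ co3_M A (m + 1) → (z : ℂ) * x ∈ co3_M A (m + 1) := by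
      intro z x hx
      have h := (co3_M A (m + 1)).zsmul_mem hx z
      rwa [zsmul_eq_mul] at h
    rw [hval]
    refine hint _ _ (AddSubgroup.sum_mem _ fun s _ => ?_)
    exact hint _ _ (hpathM s)
  -- the functional equation of the smoothing
  obtain ⟨h0cls, hVcls⟩ := co_cls 𝔟 𝔪 t ht ht'
  obtain ⟨X, hX⟩ := co_exists 𝔪 (cls 𝔟 𝔪 t) h0cls hVcls
  have hX' : IsRepsU 𝔪 (Function.support (del 𝔟 𝔪 t β' β b)) (X \ mulI 𝔟 β') := by
    rw [co_sup 𝔟 𝔪 t β' (⟨R₀ * N * N', by ring⟩) hβ]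
    refine ⟨fun z hz => ⟨hX.1 hz.1, hz.2⟩, ?_⟩
    rintro z ⟨hz1, hz2⟩
    obtain ⟨v, ⟨hv1, hv2⟩, hv3⟩ := hX.2 z hz1
    refine ⟨v, ⟨hv1, hv2, ?_⟩, ?_⟩
    · rw [co_mulI]
      exact hz2
    · rintro y ⟨hy1, hy2, -⟩
      exact hv3 y ⟨hy1, hy2⟩
  have hX'' : IsReps ε' (Function.support (del 𝔟 𝔪 t β' β b)) (X \ mulI 𝔟 β') :=
    (co_reps 𝔪 ε hε hεb _ _).1 hX'
  have heq : ∀ s : ℂ, 2 < s.re → g₂ s = g s * facQ b s * facP b' s := by
    intro s hs
    have h1 := hg₂s _ hX'' s hs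
    have h2 := co_smooth 𝔟 𝔪 t ht ht' h3 hR hR' hβ hβ' hcop X hX s (g s) (hgs X hX s hs)
    have h3' : ∀ Y : Set F, ∀ a : ℂ, HasSum (fun z : Y => del 𝔟 𝔪 t β' β b z * term s (z : F)) a ↔
        HasSum (Y.indicator fun z : F => del 𝔟 𝔪 t β' β b z * term s z) a := fun Y a =>
      hasSum_subtype_iff_indicator (f := fun z : F => del 𝔟 𝔪 t β' β b z * term s z)
    have h4 : HasSum (fun z : (X \ mulI 𝔟 β' : Set F) => del 𝔟 𝔪 t β' β b z * term s (z : F))
        (g₂ s) := by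
      have h5 : (fun z : (X \ mulI 𝔟 β' : Set F) => del 𝔟 𝔪 t β' β b z * term s (z : F))
          = fun z : (X \ mulI 𝔟 β' : Set F) => del 𝔟 𝔪 t β' β b z *
            (starRingEnd ℂ) (NF (z : F)) * (‖NF (z : F)‖ : ℂ) ^ (-2 * s) := by
        funext z
        rw [term, mul_assoc]
      rw [h5]
      exact h1
    have h5 := (h3' _ _).1 h4
    have h6 := (h3' _ _).1 h2
    have h7 : (X \ mulI 𝔟 β').indicator (fun z : F => del 𝔟 𝔪 t β' β b z * term s z)
        = X.indicator (fun z : F => del 𝔟 𝔪 t β' β b z * term s z) := by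
      funext z
      by_cases hz : z ∈ X
      · by_cases hz2 : z ∈ mulI 𝔟 β'
        · have hd : del 𝔟 𝔪 t β' β b z = 0 := by
            unfold del
            rw [if_neg]
            exact fun h => h.2 hz2
          rw [Set.indicator_of_notMem (fun h => h.2 hz2), Set.indicator_of_mem hz, hd, zero_mul]
        · rw [Set.indicator_of_mem (show z ∈ X \ mulI 𝔟 β' from ⟨hz, hz2⟩),
            Set.indicator_of_mem hz]
      · rw [Set.indicator_of_notMem (fun h => hz h.1), Set.indicator_of_notMem hz]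
    rw [h7] at h5
    exact h5.unique h6
  -- identity theorem
  obtain ⟨hQ1, hQ2, hP1, hP2⟩ := co3_fac A hA b b' hβ.odd0 hβ.odd1 hβ'.odd0 hβ'.odd1
  have hbne : ∀ c : 𝓞 K, ¬ (2 : 𝓞 K) ∣ c → c ≠ 0 := by
    rintro c hc rfl
    exact hc (dvd_zero _)
  have hid : g₂ = fun s => g s * facQ b s * facP b' s := by
    have hd2 : Differentiable ℂ (fun s => g s * facQ b s * facP b' s) :=
      (hg.mul (facQ_diff b (hbne b hβ.odd0))).mul (facP_diff b' (hbne b' hβ'.odd0))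
    have ha1 : AnalyticOnNhd ℂ g₂ Set.univ := fun z _ => hg₂.analyticAt z
    have ha2 : AnalyticOnNhd ℂ (fun s => g s * facQ b s * facP b' s) Set.univ :=
      fun z _ => hd2.analyticAt z
    refine ha1.eq_of_eventuallyEq ha2 (z₀ := 3) ?_
    have hopen : IsOpen {s : ℂ | 2 < s.re} := isOpen_lt continuous_const Complex.continuous_re
    filter_upwards [hopen.mem_nhds (show (3 : ℂ) ∈ {s : ℂ | 2 < s.re} by
      show (2 : ℝ) < (3 : ℂ).re
      norm_num)] with s hs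
    exact heq s hs
  have h1 : g₂ 1 = g 1 * facQ b 1 * facP b' 1 := congrFun hid 1
  have h2 : g 1 / Om ^ (m + 1) = g₂ 1 / Om ^ (m + 1) * (facQ b 1)⁻¹ * (facP b' 1)⁻¹ := by
    rw [h1]
    field_simp
  rw [h2]
  exact mul_mem (mul_mem ((co3_memM A (m + 1) _).1 hg2M) hQ2) hP2

end Pool.Agent.Lib.MP_1a91b9_ntT
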