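import Pool.Agent.Lib.MP_1a91b9_ntT.S6.Du2

/-!
# Job S6_De1: the mean value property (DOC6 6.4)

`Smooth R β b`, `α ∈ 𝔟`, `α ≠ 0`, `R` divisible by the odd part of `Nα := absNorm (span {α})`:
* `de_cop`: `β` is coprime to `Nα` in `𝓞 F`: `β ≡ 1 mod R` and `β` is odd (`β ∣ b ∣ k` odd,
  `nf_dvd`, `kf_odd`), `Nα = 2^j * (odd part)`, the odd part divides `R`.
* `de_surj`: for `z ∈ 𝔟` there is `a ∈ 𝓞 K` with `z - a α ∈ β 𝔟`. `x β + y Nα = 1`,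
  `Nα = α w₁` (`Ideal.absNorm_mem`), `z = β (x z) + α (y w₁ z)`, `y w₁ z = a + β w'` (`gen`), and
  `α β w' = β (α w')` with `α w' ∈ 𝔟`.
* `de_iff`: for `z ∈ 𝔟` there is `x ∈ 𝓞 K` such that for all `y`: `z + y α ∈ β 𝔟 ↔ b ∣ y - x`.
  Existence from `de_surj` for `-z`. The set `Z = {y | y α ∈ β 𝔟}` is an ideal of `𝓞 K` containing
  `b` (`β ∣ b`), and `𝓞 K / Z → 𝔟 / β 𝔟` is a bijection, `𝔟 / β 𝔟` has
  `absNorm (span {β}) = ‖NF β‖² = ‖embK b‖²` elements (`nf_abs`; index of `β 𝔟` in `𝔟`: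
  `Ideal.absNorm` multiplicative, `absNorm (β 𝔟) = absNorm (span {β}) * absNorm 𝔟`), and
  `𝓞 K / b` has `‖embK b‖²` elements too (the same for `K`, or `absNorm (span {b})`).
  So `Z = span {b}`.
* `de_fam`: a family `x_j` of representatives of `𝓞 K / b`, `j < r = ‖embK b‖²`.
-/

set_option autoImplicit false

namespace Pool.Agent.Lib.MP_1a91b9_ntT

open NumberField

universe u

variable {F : Type u} [Field F] [NumberField F] [Algebra K F]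

theorem de1_mem {𝔟 : Ideal (𝓞 F)} {β z : 𝓞 F} : (z : F) ∈ mulI 𝔟 β ↔ ∃ w ∈ 𝔟, z = β * w := by
  constructor
  · rintro ⟨w, hw, h⟩
    exact ⟨w, hw, RingOfIntegers.ext h⟩
  · rintro ⟨w, hw, h⟩
    refine ⟨w, hw, ?_⟩
    rw [h]
    rfl

theorem de_cop {R : ℕ} {β : 𝓞 F} {b : 𝓞 K} (h : Smooth R β b) (N : ℕ) (hN : 0 < N)
    (hR : ∀ q : ℕ, Odd q → q ∣ N → q ∣ R) : IsCoprime β (N : 𝓞 F) := by
  obtain ⟨c, k, hk, hbc, _⟩ := kf_odd b h.odd0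
  have h1 : β ∣ (k : 𝓞 F) := by
    have h2 := nf_dvd β b h.nrm
    have h3 : algebraMap (𝓞 K) (𝓞 F) b ∣ (k : 𝓞 F) := by
      refine ⟨algebraMap (𝓞 K) (𝓞 F) c, ?_⟩
      rw [← map_mul, hbc, map_natCast]
    exact h2.trans h3
  have h4 : IsCoprime (k : 𝓞 F) 2 := by
    obtain ⟨t, rfl⟩ := hk
    refine ⟨1, -(t : 𝓞 F), ?_⟩
    push_cast
    ring
  have h5 : IsCoprime β (2 : 𝓞 F) := h4.of_isCoprime_of_dvd_left h1
  obtain ⟨j, q, hq, hNq⟩ := Nat.exists_eq_two_pow_mul_odd hN.ne'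
  have h6 : q ∣ R := hR q hq (by rw [hNq]; exact Dvd.intro_left _ rfl)
  have h7 : IsCoprime β (q : 𝓞 F) := by
    have h8 : (q : 𝓞 F) ∣ β - 1 := (Nat.cast_dvd_cast h6).trans h.one
    obtain ⟨t, ht⟩ := h8
    refine ⟨1, -t, ?_⟩
    linear_combination ht
  rw [hNq]
  push_cast
  exact (h5.pow_right).mul_right h7

theorem de_surj (𝔟 : Ideal (𝓞 F)) {R : ℕ} {β : 𝓞 F} {b : 𝓞 K} (h : Smooth R β b) (α : 𝓞 F)
    (hα : α ∈ 𝔟) (hα0 : α ≠ 0)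
    (hR : ∀ q : ℕ, Odd q → q ∣ Ideal.absNorm (Ideal.span {α}) → q ∣ R) (z : 𝓞 F) (hz : z ∈ 𝔟) :
    ∃ a : 𝓞 K, ((z - algebraMap (𝓞 K) (𝓞 F) a * α : 𝓞 F) : F) ∈ mulI 𝔟 β := by
  have hN : 0 < Ideal.absNorm (Ideal.span {α}) := by
    rw [Nat.pos_iff_ne_zero, Ne, Ideal.absNorm_eq_zero_iff, Ideal.span_singleton_eq_bot]
    exact hα0
  obtain ⟨x, y, hxy⟩ := de_cop h _ hN hR
  obtain ⟨w₁, hw₁⟩ := Ideal.mem_span_singleton.1 (Ideal.absNorm_mem (Ideal.span {α}))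
  obtain ⟨a, w', hw'⟩ := h.gen (y * w₁ * z)
  refine ⟨a, de1_mem.2 ⟨x * z + w' * α, ?_, ?_⟩⟩
  · exact 𝔟.add_mem (Ideal.mul_mem_left _ x hz) (Ideal.mul_mem_left _ w' hα)
  · rw [hw₁] at hxy
    linear_combination (-z) * hxy + α * hw'

theorem de1_absK (b : 𝓞 K) : ((Ideal.absNorm (Ideal.span {b}) : ℕ) : ℝ) = ‖embK (b : K)‖ ^ 2 := by
  have h := nf_abs (F := K) b
  rw [← h, NF, Algebra.norm_self]
  rfl

theorem de1_key {R : ℕ} {β : 𝓞 F} {b : 𝓞 K} (h : Smooth R β b) (t : 𝓞 K)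
    (ht : β ∣ algebraMap (𝓞 K) (𝓞 F) t) : b ∣ t := by
  have hβ : β ≠ 0 := smooth_ne h
  have hb : b ≠ 0 := fun h0 => h.odd0 (h0 ▸ dvd_zero _)
  set J : Ideal (𝓞 K) := (Ideal.span {β}).comap (algebraMap (𝓞 K) (𝓞 F)) with hJ
  have hbJ : Ideal.span {b} ≤ J := by
    rw [Ideal.span_singleton_le_iff_mem, hJ, Ideal.mem_comap, Ideal.mem_span_singleton]
    exact nf_dvd β b h.nrm
  have hcard : Ideal.absNorm J = Ideal.absNorm (Ideal.span {β}) := by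
    rw [Ideal.absNorm_apply, Ideal.absNorm_apply, Submodule.cardQuot_apply, Submodule.cardQuot_apply]
    refine Nat.card_congr (Equiv.ofBijective
      (Ideal.quotientMap (Ideal.span {β}) (algebraMap (𝓞 K) (𝓞 F)) (le_refl J)) ⟨?_, ?_⟩)
    · exact Ideal.quotientMap_injective
    · intro q
      obtain ⟨z, rfl⟩ := Ideal.Quotient.mk_surjective q
      obtain ⟨a, w, hw⟩ := h.gen z
      refine ⟨Ideal.Quotient.mk J a, ?_⟩
      rw [Ideal.quotientMap_mk, Ideal.Quotient.eq, Ideal.mem_span_singleton]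
      exact ⟨-w, by rw [hw]; ring⟩
  have hnat : Ideal.absNorm (Ideal.span {b}) = Ideal.absNorm J := by
    have h1 : ((Ideal.absNorm (Ideal.span {b}) : ℕ) : ℝ) = ((Ideal.absNorm J : ℕ) : ℝ) := by
      rw [de1_absK, hcard, ← nf_abs, NF, h.nrm]
    exact_mod_cast h1
  obtain ⟨I, hI⟩ := Ideal.dvd_iff_le.2 hbJ
  have hI1 : Ideal.absNorm I = 1 := by
    rw [hI, map_mul] at hnat
    have hJ0 : Ideal.absNorm J ≠ 0 := by
      rw [hcard, Ne, Ideal.absNorm_eq_zero_iff, Ideal.span_singleton_eq_bot]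
      exact hβ
    have h2 : Ideal.absNorm J * Ideal.absNorm I = Ideal.absNorm J * 1 := by rw [hnat, mul_one]
    exact Nat.eq_of_mul_eq_mul_left (Nat.pos_of_ne_zero hJ0) h2
  rw [Ideal.absNorm_eq_one_iff] at hI1
  rw [hI1, Ideal.mul_top] at hI
  rw [← Ideal.mem_span_singleton, hI, hJ, Ideal.mem_comap, Ideal.mem_span_singleton]
  exact ht

theorem de_iff (𝔟 : Ideal (𝓞 F)) (hb : 𝔟 ≠ ⊥) {R : ℕ} {β : 𝓞 F} {b : 𝓞 K} (h : Smooth R β b)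
    (α : 𝓞 F) (hα : α ∈ 𝔟) (hα0 : α ≠ 0)
    (hR : ∀ q : ℕ, Odd q → q ∣ Ideal.absNorm (Ideal.span {α}) → q ∣ R) (z : 𝓞 F) (hz : z ∈ 𝔟) :
    ∃ x : 𝓞 K, ∀ y : 𝓞 K,
      ((z + algebraMap (𝓞 K) (𝓞 F) y * α : 𝓞 F) : F) ∈ mulI 𝔟 β ↔ b ∣ y - x := by
  have hN : 0 < Ideal.absNorm (Ideal.span {α}) := by
    rw [Nat.pos_iff_ne_zero, Ne, Ideal.absNorm_eq_zero_iff, Ideal.span_singleton_eq_bot]
    exact hα0
  have hcop := de_cop h _ hN hR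
  obtain ⟨w₁, hw₁⟩ := Ideal.mem_span_singleton.1 (Ideal.absNorm_mem (Ideal.span {α}))
  obtain ⟨x, hx⟩ := de_surj 𝔟 h α hα hα0 hR (-z) (𝔟.neg_mem hz)
  obtain ⟨w, hw, hwe⟩ := de1_mem.1 hx
  refine ⟨x, fun y => ?_⟩
  rw [de1_mem]
  constructor
  · rintro ⟨v, hv, hve⟩
    refine de1_key h (y - x) ?_
    have h1 : algebraMap (𝓞 K) (𝓞 F) (y - x) * α = β * (v + w) := by
      rw [map_sub]
      linear_combination hve + hwe
    have h2 : β ∣ algebraMap (𝓞 K) (𝓞 F) (y - x) * (Ideal.absNorm (Ideal.span {α}) : 𝓞 F) := by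
      rw [hw₁, ← mul_assoc, h1]
      exact ⟨(v + w) * w₁, by ring⟩
    exact hcop.dvd_of_dvd_mul_right h2
  · rintro ⟨t, ht⟩
    obtain ⟨β', hβ'⟩ := nf_dvd β b h.nrm
    have h1 : algebraMap (𝓞 K) (𝓞 F) y = algebraMap (𝓞 K) (𝓞 F) x + β * β' * algebraMap (𝓞 K) (𝓞 F) t := by
      rw [← hβ', ← map_mul, ← ht, map_sub]
      ring
    refine ⟨-w + β' * algebraMap (𝓞 K) (𝓞 F) t * α, ?_, ?_⟩
    · exact 𝔟.add_mem (𝔟.neg_mem hw) (Ideal.mul_mem_left _ _ hα)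
    · rw [h1]
      linear_combination -hwe

theorem de_fam (b : 𝓞 K) (hb : b ≠ 0) :
    ∃ (r : ℕ) (x : Fin r → 𝓞 K), (r : ℝ) = ‖embK (b : K)‖ ^ 2 ∧ 0 < r ∧
      ∀ y : 𝓞 K, ∃! j, b ∣ x j - y := by
  have hne : Ideal.absNorm (Ideal.span {b}) ≠ 0 := by
    rw [Ne, Ideal.absNorm_eq_zero_iff, Ideal.span_singleton_eq_bot]
    exact hb
  have hcard : Ideal.absNorm (Ideal.span {b}) = Nat.card (𝓞 K ⧸ Ideal.span {b}) := by
    rw [Ideal.absNorm_apply, Submodule.cardQuot_apply]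
  have hfin : Finite (𝓞 K ⧸ Ideal.span {b}) := by
    apply Nat.finite_of_card_ne_zero
    rw [← hcard]
    exact hne
  have e : 𝓞 K ⧸ Ideal.span {b} ≃ Fin (Nat.card (𝓞 K ⧸ Ideal.span {b})) := Finite.equivFin _
  refine ⟨Nat.card (𝓞 K ⧸ Ideal.span {b}), fun j => (e.symm j).out, ?_, ?_, fun y => ?_⟩
  · rw [← hcard, de1_absK]
  · rw [← hcard]
    exact Nat.pos_of_ne_zero hne
  · have key : ∀ j, b ∣ (e.symm j).out - y ↔ j = e (Ideal.Quotient.mk (Ideal.span {b}) y) := by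
      intro j
      rw [← Ideal.mem_span_singleton, ← Ideal.Quotient.eq]
      have h1 : Ideal.Quotient.mk (Ideal.span {b}) (e.symm j).out = e.symm j := Quotient.out_eq' _
      rw [h1]
      exact e.symm_apply_eq
    exact ⟨e (Ideal.Quotient.mk (Ideal.span {b}) y), (key _).2 rfl, fun j hj => (key j).1 hj⟩

end Pool.Agent.Lib.MP_1a91b9_ntT
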