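import Pool.Agent.Lib.MP_1a91b9_ntT.S6.Co2
import Pool.Agent.Lib.MP_1a91b9_ntT.S3.Iface

/-!
# Job S6_Bs1: the base case, finite sums of `E₁` (DOC6 6.9)

`b ∈ 𝓞 K`, `Smooth 3 β b` in the base field: `algebraMap K F` is bijective, so `[F : K] = 1`, the
norm and the trace of `algebraMap K F x` are `x`, `β = b` under the bijection, `3 ∣ b - 1`,
`k = ‖embK b‖²` is a natural number, odd, `k = b * conj b`.
* `bs_sum1`: `∑_{(p,q) mod 3k, p + q ω ≡ 1 mod 3} (3k)⁻¹ E1((p + q zt)/(3k)) = E1(1/3)/3`: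
  `p = 1 + 3u`, `q = 3v`, `u, v mod k`: `(p + q zt)/(3k) = 1/(3k) + (u + v zt)/k`; `s3_dist` with
  `α = (k, 0)`, `T = {(u + v zt)/k}` (`k²` elements), `z = 1/(3k)`: the sum over `T` is
  `k E1(1/3)` (`k z = 1/3` is not a lattice point).
* `bs_sum2`: `∑_{(p,q) mod 3k, ≡ 1 mod 3, b ∣ p + q ω} (3k)⁻¹ E1((p+q zt)/(3k)) =
  conj b * E1(1/3)/(3k)`: `p + q ω = b (1 + 3w)` with `w` modulo `conj b` (`b ≡ 1 mod 3`), so
  `(p + q zt)/(3k) = 1/(3 conj b) + w/conj b`; `s3_dist` with `lp α = conj b`, `T` = the `k` classes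
  `w / conj b`. (Periodicity `s3_period` to change representatives.)
* `bs_val`: so `∑ δ(p + qω) (3k)⁻¹ E1((p+q zt)/(3k)) = (1 - conj b) E1(1/3)/3`,
  `δ = 1[≡ 1 mod 3](1 - k 1[b ∣ ·])`.
-/

set_option autoImplicit false

namespace Pool.Agent.Lib.MP_1a91b9_ntT

open NumberField

noncomputable section

open Classical in
/-- The weight of the residue class `(p, q)`. -/
def bsw (b : 𝓞 K) (k : ℕ) (x : Fin (3 * k) × Fin (3 * k)) : ℂ :=
  if (3 : 𝓞 K) ∣ ((x.1 : ℕ) : 𝓞 K) + ((x.2 : ℕ) : 𝓞 K) * omO - 1 then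
    1 - k * (if b ∣ ((x.1 : ℕ) : 𝓞 K) + ((x.2 : ℕ) : 𝓞 K) * omO then 1 else 0) else 0

theorem bs1_zero (p q : ℤ) (h : (p : ℂ) + q * zt = 0) : p = 0 ∧ q = 0 := by
  have him := congrArg Complex.im h
  have hre := congrArg Complex.re h
  simp at him hre
  have hq : q = 0 := by
    rcases him with h | h
    · exact h
    · exact absurd h zt_ne
  subst hq
  simp at hre
  exact ⟨hre, rfl⟩

theorem bs1_zeroO (p q : ℤ) (h : (p : 𝓞 K) + (q : 𝓞 K) * omO = 0) : p = 0 ∧ q = 0 := by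
  apply bs1_zero
  rw [← kf_emb, h]
  simp

theorem bs1_lp (l : ℤ × ℤ) : lp l = embK (((l.1 : 𝓞 K) + (l.2 : 𝓞 K) * omO : 𝓞 K) : K) := by
  rw [kf_emb]
  rfl

theorem bs1_normK (x : K) : ((Algebra.norm ℚ x : ℚ) : ℂ) = embK x * (starRingEnd ℂ) (embK x) := by
  classical
  have h1 := Algebra.norm_eq_prod_embeddings ℚ ℂ (x := x)
  let cj : K →ₐ[ℚ] ℂ := (Complex.conjAe.toAlgHom.restrictScalars ℚ).comp embK
  have hcj : ∀ y, cj y = (starRingEnd ℂ) (embK y) := fun y => rfl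
  have hne : embK ≠ cj := by
    intro h
    have h2 := DFunLike.congr_fun h om
    rw [hcj, embK_om] at h2
    have h3 := congrArg Complex.im h2
    simp at h3
    exact zt_ne (by linarith)
  have hcard : Fintype.card (K →ₐ[ℚ] ℂ) = 2 := by
    rw [AlgHom.card]
    rw [IsCyclotomicExtension.finrank (n := 3) K (Polynomial.cyclotomic.irreducible_rat (by norm_num))]
    rfl
  have huniv : (Finset.univ : Finset (K →ₐ[ℚ] ℂ)) = {embK, cj} := by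
    symm
    apply Finset.eq_of_subset_of_card_le (Finset.subset_univ _)
    rw [Finset.card_pair hne, Finset.card_univ, hcard]
  rw [huniv, Finset.prod_pair hne, hcj] at h1
  exact h1

theorem bs1_card (a : 𝓞 K) : (Nat.card (𝓞 K ⧸ Ideal.span {a}) : ℝ) = ‖embK (a : K)‖ ^ 2 := by
  have h1 : Nat.card (𝓞 K ⧸ Ideal.span {a}) = (Algebra.norm ℤ a).natAbs := by
    rw [← Ideal.absNorm_span_singleton, Ideal.absNorm_apply, Submodule.cardQuot_apply]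
  have h2 := Algebra.coe_norm_int a
  have h3 := bs1_normK (a : K)
  rw [Complex.mul_conj, Complex.normSq_eq_norm_sq] at h3
  have h4 : ((Algebra.norm ℚ (a : K) : ℚ) : ℝ) = ‖embK (a : K)‖ ^ 2 := by
    exact_mod_cast h3
  have h5 : ((Algebra.norm ℤ a : ℤ) : ℝ) = ‖embK (a : K)‖ ^ 2 := by
    rw [← h4, ← h2]
    push_cast
    rfl
  rw [h1, ← h5]
  have h6 : 0 ≤ Algebra.norm ℤ a := by
    have : (0:ℝ) ≤ ((Algebra.norm ℤ a : ℤ) : ℝ) := by rw [h5]; positivity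
    exact_mod_cast this
  rw [Nat.cast_natAbs, abs_of_nonneg h6]

/-- The element of the ring of integers attached to an index. -/
def bs1_a (k : ℕ) (x : Fin (3 * k) × Fin (3 * k)) : 𝓞 K :=
  ((x.1 : ℕ) : 𝓞 K) + ((x.2 : ℕ) : 𝓞 K) * omO

theorem bs1_emb (k : ℕ) (x : Fin (3 * k) × Fin (3 * k)) :
    embK (bs1_a k x : K) = ((x.1 : ℕ) : ℂ) + ((x.2 : ℕ) : ℂ) * zt := by
  have h := kf_emb ((x.1 : ℕ) : ℤ) ((x.2 : ℕ) : ℤ)
  simp only [Int.cast_natCast] at h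
  exact h

/-- Distinct indices give elements which are distinct modulo `3 k`. -/
theorem bs1_inj (k : ℕ) (x y : Fin (3 * k) × Fin (3 * k)) (e : 𝓞 K)
    (h : bs1_a k x - bs1_a k y = 3 * (k : 𝓞 K) * e) : x = y := by
  obtain ⟨e1, e2, he⟩ := kf_repr e
  have h1 : ((((x.1 : ℕ) : ℤ) - ((y.1 : ℕ) : ℤ) - 3 * k * e1 : ℤ) : 𝓞 K) +
      ((((x.2 : ℕ) : ℤ) - ((y.2 : ℕ) : ℤ) - 3 * k * e2 : ℤ) : 𝓞 K) * omO = 0 := by
    rw [he] at h
    unfold bs1_a at h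
    push_cast
    linear_combination h
  obtain ⟨h2, h3⟩ := bs1_zeroO _ _ h1
  have key : ∀ (u v : Fin (3 * k)) (f : ℤ), ((u : ℕ) : ℤ) - ((v : ℕ) : ℤ) - 3 * k * f = 0 → u = v := by
    intro u v f h4
    have hu := u.2
    have hv := v.2
    apply Fin.ext
    have h5 : ((u : ℕ) : ℤ) - ((v : ℕ) : ℤ) = ((3 * k : ℕ) : ℤ) * f := by
      push_cast
      linarith
    have h6 : |((u : ℕ) : ℤ) - ((v : ℕ) : ℤ)| < ((3 * k : ℕ) : ℤ) := by
      rw [abs_lt]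
      constructor <;> omega
    have h7 : ((u : ℕ) : ℤ) - ((v : ℕ) : ℤ) = 0 :=
      Int.eq_zero_of_abs_lt_dvd (Dvd.intro _ h5.symm) h6
    omega
  exact Prod.ext (key _ _ _ h2) (key _ _ _ h3)

/-- Every element is congruent to one of the given elements modulo `3 k`. -/
theorem bs1_surj (k : ℕ) (hk : 0 < k) (a : 𝓞 K) :
    ∃ (x : Fin (3 * k) × Fin (3 * k)) (e : 𝓞 K), a - bs1_a k x = 3 * (k : 𝓞 K) * e := by
  obtain ⟨p, q, rfl⟩ := kf_repr a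
  have hpos : (0 : ℤ) < ((3 * k : ℕ) : ℤ) := by
    have : 0 < 3 * k := by omega
    exact_mod_cast this
  have key : ∀ u : ℤ, ∃ (v : Fin (3 * k)) (f : ℤ), u = ((v : ℕ) : ℤ) + 3 * k * f := by
    intro u
    have h1 := Int.emod_nonneg u hpos.ne'
    have h2 := Int.emod_lt_of_pos u hpos
    refine ⟨⟨(u % ((3 * k : ℕ) : ℤ)).toNat, by omega⟩, u / ((3 * k : ℕ) : ℤ), ?_⟩
    have h3 := Int.emod_add_mul_ediv u ((3 * k : ℕ) : ℤ)
    simp only [Int.toNat_of_nonneg h1]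
    rw [← h3]
    push_cast
    have h4 : (u % (3 * (k : ℤ)) + 3 * (k : ℤ) * (u / (3 * (k : ℤ)))) = u := by
      exact Int.emod_add_mul_ediv u (3 * (k : ℤ))
    rw [h4]
    exact h4.symm
  obtain ⟨v1, f1, h1⟩ := key p
  obtain ⟨v2, f2, h2⟩ := key q
  refine ⟨(v1, v2), (f1 : 𝓞 K) + (f2 : 𝓞 K) * omO, ?_⟩
  unfold bs1_a
  rw [h1, h2]
  push_cast
  ring

/-- The number of indices in the class. -/
theorem bs1_count (b c : 𝓞 K) (k : ℕ) (hk : 0 < k) (hbc : b * c = k) (h1 : (3 : 𝓞 K) ∣ b - 1)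
    (S : Finset (Fin (3 * k) × Fin (3 * k)))
    (hS : ∀ x, x ∈ S ↔ (3 : 𝓞 K) ∣ bs1_a k x - 1 ∧ b ∣ bs1_a k x) :
    (S.card : ℝ) = ‖embK (c : K)‖ ^ 2 := by
  have hk0 : (k : 𝓞 K) ≠ 0 := by exact_mod_cast hk.ne'
  have hb0 : b ≠ 0 := fun h => hk0 (by rw [← hbc, h, zero_mul])
  have h3 : (3 : 𝓞 K) ≠ 0 := by
    have : ((3 : ℕ) : 𝓞 K) ≠ 0 := Nat.cast_ne_zero.2 (by norm_num)
    exact_mod_cast this
  obtain ⟨e, he⟩ := h1
  have hw : ∀ x : S, ∃ w : 𝓞 K, bs1_a k x.1 = b * (1 + 3 * w) := by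
    rintro ⟨x, hx⟩
    obtain ⟨⟨z, hz⟩, y, hy⟩ := (hS x).1 hx
    refine ⟨z - e * y, ?_⟩
    rw [hy]
    rw [hy] at hz
    linear_combination b * hz - b * y * he
  choose w hw using hw
  rw [← bs1_card c, ← Fintype.card_coe S, ← Nat.card_eq_fintype_card]
  congr 1
  refine Nat.card_congr (Equiv.ofBijective (fun x : S => (Ideal.Quotient.mk (Ideal.span {c}) (w x))) ⟨?_, ?_⟩)
  · intro x y hxy
    have h4 := Ideal.Quotient.eq.1 hxy
    rw [Ideal.mem_span_singleton] at h4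
    obtain ⟨f, hf⟩ := h4
    apply Subtype.ext
    apply bs1_inj k x.1 y.1 f
    rw [hw x, hw y, ← hbc]
    linear_combination 3 * b * hf
  · intro z
    obtain ⟨z, rfl⟩ := Ideal.Quotient.mk_surjective z
    obtain ⟨x, f, hx⟩ := bs1_surj k hk (b * (1 + 3 * z))
    have hxa : bs1_a k x = b * (1 + 3 * z - 3 * c * f) := by
      rw [← hbc] at hx
      linear_combination -hx
    have hxS : x ∈ S := by
      rw [hS]
      refine ⟨⟨e + b * z - b * c * f, ?_⟩, ⟨_, hxa⟩⟩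
      rw [hxa]
      linear_combination he
    refine ⟨⟨x, hxS⟩, ?_⟩
    apply Ideal.Quotient.eq.2
    rw [Ideal.mem_span_singleton]
    refine ⟨-f, ?_⟩
    have h5 := hw ⟨x, hxS⟩
    have h6 : b * (1 + 3 * w ⟨x, hxS⟩) = b * (1 + 3 * z - 3 * c * f) := by
      rw [← h5]
      exact hxa
    have h7 := mul_left_cancel₀ hb0 h6
    have h8 : 3 * (w ⟨x, hxS⟩ - z) = 3 * (c * -f) := by linear_combination h7
    exact mul_left_cancel₀ h3 h8

open Classical in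
theorem bs1_gen (b c : 𝓞 K) (k : ℕ) (hk : 0 < k) (hbc : b * c = k) (h1 : (3 : 𝓞 K) ∣ b - 1) :
    ∑ x : Fin (3 * k) × Fin (3 * k),
      (if (3 : 𝓞 K) ∣ bs1_a k x - 1 ∧ b ∣ bs1_a k x then
        ((3 * k : ℕ) : ℂ)⁻¹ * E1 ((((x.1 : ℕ) : ℂ) + ((x.2 : ℕ) : ℂ) * zt) / (3 * k : ℕ)) else 0) =
      embK (c : K) * E1 (1 / 3) / (3 * k) := by
  have hk0 : (k : 𝓞 K) ≠ 0 := by exact_mod_cast hk.ne'
  have hkC : (k : ℂ) ≠ 0 := by exact_mod_cast hk.ne'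
  have hc0 : c ≠ 0 := fun h => hk0 (by rw [← hbc, h, mul_zero])
  have hbcC : embK (b : K) * embK (c : K) = k := by
    rw [← map_mul]
    have h2 : ((b : K) * (c : K)) = ((b * c : 𝓞 K) : K) := rfl
    rw [h2, hbc]
    simp
  have hcC : embK (c : K) ≠ 0 := fun h => hkC (by rw [← hbcC, h, mul_zero])
  have hbC : embK (b : K) ≠ 0 := fun h => hkC (by rw [← hbcC, h, zero_mul])
  set S : Finset (Fin (3 * k) × Fin (3 * k)) := Finset.univ.filter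
    (fun x => (3 : 𝓞 K) ∣ bs1_a k x - 1 ∧ b ∣ bs1_a k x) with hSdef
  have hS : ∀ x, x ∈ S ↔ (3 : 𝓞 K) ∣ bs1_a k x - 1 ∧ b ∣ bs1_a k x := by
    intro x
    simp [hSdef]
  rw [← Finset.sum_filter, ← Finset.mul_sum]
  obtain ⟨e, he⟩ := h1
  have hw : ∀ x, x ∈ S → ∃ w : 𝓞 K, bs1_a k x = b * (1 + 3 * w) := by
    intro x hx
    obtain ⟨⟨z, hz⟩, y, hy⟩ := (hS x).1 hx
    refine ⟨z - e * y, ?_⟩
    rw [hy]
    rw [hy] at hz
    linear_combination b * hz - b * y * he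
  let t : Fin (3 * k) × Fin (3 * k) → ℂ := fun x =>
    (((x.1 : ℕ) : ℂ) + ((x.2 : ℕ) : ℂ) * zt) / (3 * k : ℕ) - 1 / (3 * embK (c : K))
  have ht : ∀ x ∈ S, ∀ w : 𝓞 K, bs1_a k x = b * (1 + 3 * w) → embK (c : K) * t x = embK (w : K) := by
    intro x _ w hw
    have h2 : ((x.1 : ℕ) : ℂ) + ((x.2 : ℕ) : ℂ) * zt = embK (b : K) * (1 + 3 * embK (w : K)) := by
      have h30 : embK ((algebraMap (𝓞 K) K) 3) = 3 := by
        rw [map_ofNat]
        exact map_ofNat embK 3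
      rw [← bs1_emb, hw]
      simp [h30]
    show embK (c : K) * ((((x.1 : ℕ) : ℂ) + ((x.2 : ℕ) : ℂ) * zt) / (3 * k : ℕ) - 1 / (3 * embK (c : K))) = _
    rw [h2]
    push_cast
    rw [← hbcC]
    field_simp
    ring
  have htinj : ∀ x ∈ S, ∀ y ∈ S, (∃ l : ℤ × ℤ, t x - t y = lp l) → x = y := by
    rintro x hx y hy ⟨l, hl⟩
    obtain ⟨wx, hwx⟩ := hw x hx
    obtain ⟨wy, hwy⟩ := hw y hy
    have h2 := ht x hx wx hwx
    have h3 := ht y hy wy hwy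
    rw [bs1_lp] at hl
    have h4 : embK ((wx - wy : 𝓞 K) : K) = embK ((c * ((l.1 : 𝓞 K) + (l.2 : 𝓞 K) * omO) : 𝓞 K) : K) := by
      have e1 : ((wx - wy : 𝓞 K) : K) = (wx : K) - (wy : K) := rfl
      have e2 : ((c * ((l.1 : 𝓞 K) + (l.2 : 𝓞 K) * omO) : 𝓞 K) : K) =
        (c : K) * (((l.1 : 𝓞 K) + (l.2 : 𝓞 K) * omO : 𝓞 K) : K) := rfl
      rw [e1, e2, map_mul, ← hl, map_sub, ← h2, ← h3]
      ring
    have h5 : wx - wy = c * ((l.1 : 𝓞 K) + (l.2 : 𝓞 K) * omO) := by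
      apply RingOfIntegers.coe_injective
      exact embK.toRingHom.injective h4
    apply bs1_inj k x y ((l.1 : 𝓞 K) + (l.2 : 𝓞 K) * omO)
    rw [hwx, hwy, ← hbc]
    linear_combination 3 * b * h5
  obtain ⟨p, q, hpq⟩ := kf_repr c
  have hlp : lp (p, q) = embK (c : K) := by
    rw [bs1_lp, hpq]
  have hdist := s3_dist (p, q) ?_ (S.image t) ?_ ?_ ?_ (1 / (3 * embK (c : K))) ?_
  · rw [Finset.sum_image] at hdist
    · have h6 : ∀ x ∈ S, E1 ((((x.1 : ℕ) : ℂ) + ((x.2 : ℕ) : ℂ) * zt) / (3 * k : ℕ)) =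
          E1 (1 / (3 * embK (c : K)) + t x) := by
        intro x _
        congr 1
        show _ = 1 / (3 * embK (c : K)) + ((((x.1 : ℕ) : ℂ) + ((x.2 : ℕ) : ℂ) * zt) / (3 * k : ℕ) -
          1 / (3 * embK (c : K)))
        ring
      rw [Finset.sum_congr rfl h6, hdist, hlp]
      have h7 : embK (c : K) * (1 / (3 * embK (c : K))) = 1 / 3 := by
        field_simp
      rw [h7]
      push_cast
      field_simp
    · intro x hx y hy hxy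
      exact htinj x hx y hy ⟨(0, 0), by
        have h8 : t x = t y := hxy
        rw [h8]
        simp [lp]⟩
  · intro h
    apply hc0
    rw [Prod.mk_eq_zero] at h
    rw [hpq, h.1, h.2]
    simp
  · intro u hu
    obtain ⟨x, hx, rfl⟩ := Finset.mem_image.1 hu
    obtain ⟨wx, hwx⟩ := hw x hx
    obtain ⟨l1, l2, hl⟩ := kf_repr wx
    refine ⟨(l1, l2), ?_⟩
    rw [hlp, ht x hx wx hwx, bs1_lp, hl]
  · intro u hu v hv huv
    obtain ⟨x, hx, rfl⟩ := Finset.mem_image.1 hu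
    obtain ⟨y, hy, rfl⟩ := Finset.mem_image.1 hv
    rw [htinj x hx y hy huv]
  · have h9 : (S.image t).card = S.card := by
      apply Finset.card_image_of_injOn
      intro x hx y hy hxy
      exact htinj x hx y hy ⟨(0, 0), by
        have h8 : t x = t y := hxy
        rw [h8]
        simp [lp]⟩
    rw [h9]
    have h10 := bs1_count b c k hk hbc ⟨e, he⟩ S hS
    have h11 : embK (c : K) = (p : ℂ) + q * zt := by
      rw [← hlp]
      rfl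
    rw [h11, kf_norm p q] at h10
    have h12 : ((S.card : ℤ) : ℝ) = ((p ^ 2 - p * q + q ^ 2 : ℤ) : ℝ) := by
      rw [← h10]
      simp
    exact_mod_cast h12
  · rintro ⟨l, hl⟩
    rw [hlp] at hl
    have h7 : embK (c : K) * (1 / (3 * embK (c : K))) = 1 / 3 := by
      field_simp
    rw [h7] at hl
    have h13 : ((3 * l.1 - 1 : ℤ) : ℂ) + ((3 * l.2 : ℤ) : ℂ) * zt = 0 := by
      have h14 : lp l = (l.1 : ℂ) + l.2 * zt := rfl
      rw [h14] at hl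
      push_cast
      linear_combination -3 * hl
    have h15 := (bs1_zero _ _ h13).1
    omega

open Classical in
theorem bs_sum1 (k : ℕ) (hk : Odd k) :
    ∑ x : Fin (3 * k) × Fin (3 * k),
      (if (3 : 𝓞 K) ∣ ((x.1 : ℕ) : 𝓞 K) + ((x.2 : ℕ) : 𝓞 K) * omO - 1 then
        ((3 * k : ℕ) : ℂ)⁻¹ * E1 ((((x.1 : ℕ) : ℂ) + ((x.2 : ℕ) : ℂ) * zt) / (3 * k : ℕ)) else 0) =
      E1 (1 / 3) / 3 := by
  have hk0 : 0 < k := hk.pos
  have hkC : (k : ℂ) ≠ 0 := by exact_mod_cast hk0.ne'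
  have h := bs1_gen 1 (k : 𝓞 K) k hk0 (one_mul _) (by simp)
  have h2 : embK (((k : 𝓞 K)) : K) = k := by simp
  rw [h2] at h
  have h3 : (k : ℂ) * E1 (1 / 3) / (3 * k) = E1 (1 / 3) / 3 := by
    field_simp
  rw [h3] at h
  rw [← h]
  apply Finset.sum_congr rfl
  intro x _
  simp only [one_dvd, and_true]
  rfl

open Classical in
theorem bs_sum2 (b : 𝓞 K) (k : ℕ) (hk : Odd k) (hb : (k : ℝ) = ‖embK (b : K)‖ ^ 2)
    (h1 : (3 : 𝓞 K) ∣ b - 1) :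
    ∑ x : Fin (3 * k) × Fin (3 * k),
      (if (3 : 𝓞 K) ∣ ((x.1 : ℕ) : 𝓞 K) + ((x.2 : ℕ) : 𝓞 K) * omO - 1 ∧
          b ∣ ((x.1 : ℕ) : 𝓞 K) + ((x.2 : ℕ) : 𝓞 K) * omO then
        ((3 * k : ℕ) : ℂ)⁻¹ * E1 ((((x.1 : ℕ) : ℂ) + ((x.2 : ℕ) : ℂ) * zt) / (3 * k : ℕ)) else 0) =
      (starRingEnd ℂ) (embK (b : K)) * E1 (1 / 3) / (3 * k) := by
  have hk0 : 0 < k := hk.pos
  have hkC : (k : ℂ) ≠ 0 := by exact_mod_cast hk0.ne'
  obtain ⟨k', hk', c, hc⟩ := kf_normInt b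
  have hkk : k' = k := by
    have h2 : (k' : ℝ) = k := by rw [hk', hb]
    exact_mod_cast h2
  rw [hkk] at hc
  have h := bs1_gen b c k hk0 hc.symm h1
  have hbcC : embK (b : K) * embK (c : K) = k := by
    rw [← map_mul]
    have h2 : ((b : K) * (c : K)) = ((b * c : 𝓞 K) : K) := rfl
    rw [h2, ← hc]
    simp
  have hbC : embK (b : K) ≠ 0 := fun h => hkC (by rw [← hbcC, h, zero_mul])
  have h2 : embK (b : K) * (starRingEnd ℂ) (embK (b : K)) = k := by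
    rw [Complex.mul_conj, Complex.normSq_eq_norm_sq, ← hb]
    simp
  have h3 : embK (c : K) = (starRingEnd ℂ) (embK (b : K)) := by
    apply mul_left_cancel₀ hbC
    rw [hbcC, h2]
  rw [h3] at h
  rw [← h]
  rfl

theorem bs_val (b : 𝓞 K) (k : ℕ) (hk : Odd k) (hb : (k : ℝ) = ‖embK (b : K)‖ ^ 2)
    (h1 : (3 : 𝓞 K) ∣ b - 1) :
    ∑ x : Fin (3 * k) × Fin (3 * k), bsw b k x *
        (((3 * k : ℕ) : ℂ)⁻¹ * E1 ((((x.1 : ℕ) : ℂ) + ((x.2 : ℕ) : ℂ) * zt) / (3 * k : ℕ))) =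
      (1 - (starRingEnd ℂ) (embK (b : K))) * E1 (1 / 3) / 3 := by
  classical
  have hk0 : 0 < k := hk.pos
  have hkC : (k : ℂ) ≠ 0 := by exact_mod_cast hk0.ne'
  have h2 := bs_sum1 k hk
  have h3 := bs_sum2 b k hk hb h1
  have h4 : (1 - (starRingEnd ℂ) (embK (b : K))) * E1 (1 / 3) / 3 =
      E1 (1 / 3) / 3 - k * ((starRingEnd ℂ) (embK (b : K)) * E1 (1 / 3) / (3 * k)) := by
    field_simp
  rw [h4, ← h2, ← h3, Finset.mul_sum, ← Finset.sum_sub_distrib]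
  apply Finset.sum_congr rfl
  intro x _
  unfold bsw
  by_cases hA : (3 : 𝓞 K) ∣ ((x.1 : ℕ) : 𝓞 K) + ((x.2 : ℕ) : 𝓞 K) * omO - 1
  · by_cases hB : b ∣ ((x.1 : ℕ) : 𝓞 K) + ((x.2 : ℕ) : 𝓞 K) * omO
    · simp only [if_pos hA, if_pos hB, if_pos (And.intro hA hB)]
      ring
    · have hAB : ¬ ((3 : 𝓞 K) ∣ ((x.1 : ℕ) : 𝓞 K) + ((x.2 : ℕ) : 𝓞 K) * omO - 1 ∧
          b ∣ ((x.1 : ℕ) : 𝓞 K) + ((x.2 : ℕ) : 𝓞 K) * omO) := fun h => hB h.2
      simp only [if_pos hA, if_neg hB, if_neg hAB]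
      ring
  · have hAB : ¬ ((3 : 𝓞 K) ∣ ((x.1 : ℕ) : 𝓞 K) + ((x.2 : ℕ) : 𝓞 K) * omO - 1 ∧
          b ∣ ((x.1 : ℕ) : 𝓞 K) + ((x.2 : ℕ) : 𝓞 K) * omO) := fun h => hA h.1
    simp only [if_neg hA, if_neg hAB]
    ring

end

end Pool.Agent.Lib.MP_1a91b9_ntT
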