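import Pool.Agent.Lib.MP_1a91b9_ntT.S6.Defs

/-!
# Job S6_KF: elementary facts on `K = ℚ(ω)`

`om² + om + 1 = 0` (`om_spec.isRoot...`, or `IsPrimitiveRoot` of order 3). Ring of integers `ℤ[om]`:
Mathlib `IsCyclotomicExtension.Rat.isIntegralClosure_adjoin_singleton...`,
`IsPrimitiveRoot.integralPowerBasis`, `IsPrimitiveRoot.toInteger`; `𝓞 K` is a principal ideal ring
(`IsCyclotomicExtension.Rat.three_pid`), units: `IsCyclotomicExtension.Rat.Three.Units.mem`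
(`u = ± om^i`).
* `kf_repr`: power basis `1, om` of `𝓞 K` over `ℤ`.
* `kf_norm`: `‖p + q zt‖² = p² - pq + q²` (`zt = -1/2 + (√3/2) i`, or `zt + conj zt = -1`,
  `zt * conj zt = 1`).
* `kf_odd`: `a = p + q om` not divisible by `2` means `p, q` not both even; then
  `k = p² - pq + q²` is odd and `k = a * (p + q om²)`.
* `kf_unit`: a unit `± om^i` congruent to `1` modulo `3` is `1`
  (`om^i - 1`, `- om^i - 1` have norm `3` or `1` or `4`, not divisible by `9 = N(3)`).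
* `kf_ompow`: `2^k` is not divisible by `3`, `om^(2^k) ∈ {om, om²}` and `om - 1`, `om² - 1` have
  norm `3`; `om^j` is a unit.
* `kf_two`: `2` is prime in `𝓞 K` : if `2 ∣ a b` then `2 ∣ a` or `2 ∣ b` (use `kf_odd`:
  if `2 ∤ a`, `k` odd multiple of `a`, then `2 ∣ k b` so `2 ∣ b`).
-/

set_option autoImplicit false

namespace Pool.Agent.Lib.MP_1a91b9_ntT

open NumberField

theorem kf_om : om ^ 2 + om + 1 = 0 := by
  have h := om_spec.isRoot_cyclotomic (by decide)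
  simpa [Polynomial.cyclotomic_three] using h

theorem kf_zt : zt ^ 2 + zt + 1 = 0 := by
  have h := zt_spec.isRoot_cyclotomic (by decide)
  simpa [Polynomial.cyclotomic_three] using h

theorem kf_castN (n : ℕ) : embK (((n : ℕ) : 𝓞 K) : K) = n := by
  rw [RingOfIntegers.coe_eq_algebraMap, map_natCast, map_natCast]

theorem kf_cast2 : embK ((2 : 𝓞 K) : K) = 2 := by
  have h := kf_castN 2
  exact_mod_cast h

theorem kf_cast3 : embK ((3 : 𝓞 K) : K) = 3 := by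
  have h := kf_castN 3
  exact_mod_cast h

theorem kf_omO : omO ^ 2 + omO + 1 = 0 := by
  apply RingOfIntegers.ext
  have h : ((omO : 𝓞 K) : K) = om := rfl
  simp only [map_add, map_pow, map_one, map_zero, h]
  exact kf_om

theorem kf_zt_re : zt.re = -1 / 2 := by
  have h := congrArg Complex.im kf_zt
  simp [pow_two] at h
  have h2 : zt.im * (2 * zt.re + 1) = 0 := by linarith
  rcases mul_eq_zero.1 h2 with h3 | h3
  · exact absurd h3 zt_ne
  · linarith

theorem kf_zt_im : zt.im ^ 2 = 3 / 4 := by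
  have h := congrArg Complex.re kf_zt
  simp [pow_two, kf_zt_re] at h
  nlinarith

theorem kf_repr (a : 𝓞 K) : ∃ p q : ℤ, a = (p : 𝓞 K) + (q : 𝓞 K) * omO := by
  obtain ⟨f, hf, ha⟩ := om_spec.integralPowerBasis.exists_eq_aeval a
  rw [om_spec.integralPowerBasis_dim] at hf
  have h2 : Nat.totient 3 = 2 := by decide
  rw [h2] at hf
  have h3 := Polynomial.eq_X_add_C_of_natDegree_le_one (p := f) (by omega)
  rw [om_spec.integralPowerBasis_gen] at ha
  refine ⟨f.coeff 0, f.coeff 1, ?_⟩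
  rw [ha, h3]
  have h4 : om_spec.toInteger = omO := rfl
  rw [h4]
  simp only [map_add, map_mul, Polynomial.aeval_C, Polynomial.aeval_X, Polynomial.coeff_add,
    Polynomial.coeff_C_mul, Polynomial.coeff_X_zero, Polynomial.coeff_C_zero, mul_zero, zero_add,
    Polynomial.coeff_X_one, mul_one, Polynomial.coeff_C_succ, add_zero]
  rw [add_comm]
  simp

theorem kf_emb (p q : ℤ) : embK (((p : 𝓞 K) + (q : 𝓞 K) * omO : 𝓞 K) : K) = p + q * zt := by
  have h : ((omO : 𝓞 K) : K) = om := rfl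
  have h1 : (((p : 𝓞 K) + (q : 𝓞 K) * omO : 𝓞 K) : K) = (p : K) + (q : K) * om := by
    rw [RingOfIntegers.coe_eq_algebraMap, map_add, map_mul, ← RingOfIntegers.coe_eq_algebraMap omO, h]
    simp
  rw [h1, map_add, map_mul, embK_om]
  simp

theorem kf_norm (p q : ℤ) : ‖(p : ℂ) + q * zt‖ ^ 2 = ((p ^ 2 - p * q + q ^ 2 : ℤ) : ℝ) := by
  rw [Complex.sq_norm, Complex.normSq_apply]
  simp only [Complex.add_re, Complex.intCast_re, Complex.mul_re, Complex.intCast_im, zero_mul,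
    sub_zero, Complex.add_im, Complex.mul_im, zero_add, add_zero, kf_zt_re]
  have h := kf_zt_im
  push_cast
  nlinarith

theorem kf_conj (p q : ℤ) : ((p : 𝓞 K) + (q : 𝓞 K) * omO) * (((p - q : ℤ) : 𝓞 K) -
    (q : 𝓞 K) * omO) = ((p ^ 2 - p * q + q ^ 2 : ℤ) : 𝓞 K) := by
  have h := kf_omO
  have h2 : omO ^ 2 = -omO - 1 := by linear_combination h
  push_cast
  linear_combination (-(q : 𝓞 K) ^ 2) * h

theorem kf_pos (p q : ℤ) : 0 ≤ p ^ 2 - p * q + q ^ 2 := by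
  nlinarith [sq_nonneg (p - q), sq_nonneg (p + q), sq_nonneg p, sq_nonneg q]

theorem kf_cast (p q : ℤ) :
    (((p ^ 2 - p * q + q ^ 2).toNat : ℤ)) = p ^ 2 - p * q + q ^ 2 :=
  Int.toNat_of_nonneg (kf_pos p q)

theorem kf_odd (a : 𝓞 K) (ha : ¬ (2 : 𝓞 K) ∣ a) :
    ∃ (c : 𝓞 K) (k : ℕ), Odd k ∧ a * c = k ∧ (k : ℝ) = ‖embK (a : K)‖ ^ 2 := by
  obtain ⟨p, q, rfl⟩ := kf_repr a
  have hc := kf_cast p q
  refine ⟨((p - q : ℤ) : 𝓞 K) - (q : 𝓞 K) * omO, (p ^ 2 - p * q + q ^ 2).toNat, ?_, ?_, ?_⟩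
  · have h1 : Odd (p ^ 2 - p * q + q ^ 2) := by
      rcases Int.even_or_odd p with hp | hp
      · rcases Int.even_or_odd q with hq | hq
        · exfalso
          apply ha
          obtain ⟨r, hr⟩ := hp
          obtain ⟨s, hs⟩ := hq
          refine ⟨(r : 𝓞 K) + (s : 𝓞 K) * omO, ?_⟩
          rw [hr, hs]
          push_cast
          ring
        · obtain ⟨r, hr⟩ := hp
          obtain ⟨s, hs⟩ := hq
          rw [hr, hs]
          exact ⟨2 * r ^ 2 - (r + r) * s - r + 2 * s ^ 2 + 2 * s, by ring⟩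
      · rcases Int.even_or_odd q with hq | hq
        · obtain ⟨r, hr⟩ := hp
          obtain ⟨s, hs⟩ := hq
          rw [hr, hs]
          exact ⟨2 * r ^ 2 + 2 * r - (2 * r + 1) * s + 2 * s ^ 2, by ring⟩
        · obtain ⟨r, hr⟩ := hp
          obtain ⟨s, hs⟩ := hq
          rw [hr, hs]
          exact ⟨2 * r ^ 2 + 2 * r - (2 * r * s + r + s) + 2 * s ^ 2 + 2 * s, by ring⟩
    rw [← hc] at h1
    exact_mod_cast h1
  · rw [kf_conj]
    have h2 : ((((p ^ 2 - p * q + q ^ 2).toNat : ℤ)) : 𝓞 K) =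
      ((p ^ 2 - p * q + q ^ 2 : ℤ) : 𝓞 K) := by rw [hc]
    rw [← h2, Int.cast_natCast]
  · rw [kf_emb, kf_norm, ← hc, Int.cast_natCast, Int.toNat_natCast]

theorem kf_two_ne (m : ℕ) (d : 𝓞 K) (h : (2 : 𝓞 K) * d = ((2 * m + 1 : ℕ) : 𝓞 K)) :
    False := by
  obtain ⟨p, q, hd⟩ := kf_repr (d - (m : 𝓞 K))
  have h1 : (2 : 𝓞 K) * (d - (m : 𝓞 K)) = 1 := by
    rw [mul_sub, h]
    push_cast
    ring
  rw [hd] at h1
  have h2 : embK (((2 : 𝓞 K) * ((p : 𝓞 K) + (q : 𝓞 K) * omO) : 𝓞 K) : K) = 1 := by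
    rw [h1]
    simp
  rw [RingOfIntegers.coe_eq_algebraMap, map_mul, map_mul, ← RingOfIntegers.coe_eq_algebraMap,
    ← RingOfIntegers.coe_eq_algebraMap, kf_emb] at h2
  have h3 : ‖(2 : ℂ) * ((p : ℂ) + q * zt)‖ ^ 2 = 1 := by
    have h4 : embK ((2 : 𝓞 K) : K) = 2 := kf_cast2
    rw [h4] at h2
    rw [h2]
    simp
  rw [norm_mul, mul_pow, kf_norm] at h3
  simp only [Complex.norm_ofNat] at h3
  have h5 : (4 : ℤ) * (p ^ 2 - p * q + q ^ 2) = 1 := by
    have h6 : ((4 * (p ^ 2 - p * q + q ^ 2) : ℤ) : ℝ) = ((1 : ℤ) : ℝ) := by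
      push_cast at h3 ⊢
      linarith
    exact_mod_cast h6
  omega

theorem kf_odd' (a : 𝓞 K) (k : ℕ) (hk : Odd k) (c : 𝓞 K) (h : a * c = k) : ¬ (2 : 𝓞 K) ∣ a := by
  rintro ⟨b, hb⟩
  obtain ⟨m, rfl⟩ := hk
  apply kf_two_ne m (b * c)
  rw [← h, hb]
  ring

theorem kf_two (a b : 𝓞 K) (h : (2 : 𝓞 K) ∣ a * b) : (2 : 𝓞 K) ∣ a ∨ (2 : 𝓞 K) ∣ b := by
  by_cases ha : (2 : 𝓞 K) ∣ a
  · exact Or.inl ha
  · right
    obtain ⟨c, k, ⟨m, hm⟩, hc, -⟩ := kf_odd a ha
    obtain ⟨d, hd⟩ := h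
    refine ⟨d * c - (m : 𝓞 K) * b, ?_⟩
    have h1 : a * c = ((2 * m + 1 : ℕ) : 𝓞 K) := by rw [hc, hm]
    push_cast at h1
    linear_combination (-b) * h1 + c * hd

theorem kf_normInt (a : 𝓞 K) : ∃ k : ℕ, (k : ℝ) = ‖embK (a : K)‖ ^ 2 ∧ a ∣ (k : 𝓞 K) := by
  obtain ⟨p, q, rfl⟩ := kf_repr a
  have hc := kf_cast p q
  refine ⟨(p ^ 2 - p * q + q ^ 2).toNat, ?_, ?_⟩
  · rw [kf_emb, kf_norm, ← hc, Int.cast_natCast, Int.toNat_natCast]
  · refine ⟨((p - q : ℤ) : 𝓞 K) - (q : 𝓞 K) * omO, ?_⟩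
    rw [kf_conj]
    have h2 : ((((p ^ 2 - p * q + q ^ 2).toNat : ℤ)) : 𝓞 K) =
      ((p ^ 2 - p * q + q ^ 2 : ℤ) : 𝓞 K) := by rw [hc]
    rw [← h2, Int.cast_natCast]

theorem kf_unit (u : 𝓞 K) (hu : IsUnit u) (h : (3 : 𝓞 K) ∣ u - 1) : u = 1 := by
  obtain ⟨u, rfl⟩ := hu
  have h1 : (om_spec.toInteger - 1) ^ 2 ∣ ((u : 𝓞 K) - ((1 : ℤ) : 𝓞 K)) := by
    have h2 : (om_spec.toInteger - 1) ^ 2 ∣ (3 : 𝓞 K) := by
      refine ⟨-omO ^ 2, ?_⟩
      have h4 : om_spec.toInteger = omO := rfl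
      rw [h4]
      have h5 := kf_omO
      linear_combination (omO ^ 2 - 3 * omO + 3) * h5
    rw [Int.cast_one]
    exact h2.trans h
  rcases IsCyclotomicExtension.Rat.Three.eq_one_or_neg_one_of_unit_of_congruent om_spec u
    ⟨1, h1⟩ with h2 | h2
  · rw [h2]; rfl
  · exfalso
    rw [h2] at h
    obtain ⟨d, hd⟩ := h
    have h3 : (2 : 𝓞 K) * (-1 - d) = ((2 * 0 + 1 : ℕ) : 𝓞 K) * d := by
      simp only [Units.val_neg, Units.val_one] at hd
      push_cast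
      linear_combination hd
    have h4 : (2 : 𝓞 K) * (-1) = 3 * d := by
      simp only [Units.val_neg, Units.val_one] at hd
      linear_combination hd
    obtain ⟨p, q, hpq⟩ := kf_repr d
    have h5 : embK (((3 : 𝓞 K) * ((p : 𝓞 K) + (q : 𝓞 K) * omO) : 𝓞 K) : K) = -2 := by
      rw [← hpq, ← h4, RingOfIntegers.coe_eq_algebraMap, map_mul, map_mul, map_neg, map_neg, map_one,
        map_one, ← RingOfIntegers.coe_eq_algebraMap, kf_cast2]
      norm_num
    rw [RingOfIntegers.coe_eq_algebraMap, map_mul, map_mul, ← RingOfIntegers.coe_eq_algebraMap,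
      ← RingOfIntegers.coe_eq_algebraMap, kf_emb] at h5
    have h6 : ‖(3 : ℂ) * ((p : ℂ) + q * zt)‖ ^ 2 = 4 := by
      have h7 : embK ((3 : 𝓞 K) : K) = 3 := kf_cast3
      rw [h7] at h5
      rw [h5]
      norm_num
    rw [norm_mul, mul_pow, kf_norm] at h6
    simp only [Complex.norm_ofNat] at h6
    have h8 : (9 : ℤ) * (p ^ 2 - p * q + q ^ 2) = 4 := by
      have h9 : ((9 * (p ^ 2 - p * q + q ^ 2) : ℤ) : ℝ) = ((4 : ℤ) : ℝ) := by
        push_cast at h6 ⊢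
        linarith
      exact_mod_cast h9
    omega

theorem kf_omO3 : omO ^ 3 = 1 := by
  have h := kf_omO
  linear_combination (omO - 1) * h

theorem kf_ompow_aux (k : ℕ) : omO ^ (2 ^ k) = omO ∨ omO ^ (2 ^ k) = omO ^ 2 := by
  induction k with
  | zero => left; simp
  | succ k ih =>
    rw [pow_succ 2 k, pow_mul]
    rcases ih with h | h
    · right; rw [h]
    · left
      rw [h, ← pow_mul]
      have h3 := kf_omO3
      calc omO ^ (2 * 2) = omO ^ 3 * omO := by ring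
        _ = omO := by rw [h3, one_mul]

theorem kf_ompow (k : ℕ) : ¬ (2 : 𝓞 K) ∣ omO ^ (2 ^ k) - 1 ∧ ¬ (2 : 𝓞 K) ∣ omO ^ (2 ^ k) := by
  have h0 := kf_omO
  have h3 := kf_omO3
  constructor
  · rcases kf_ompow_aux k with h | h
    · rw [h]
      refine kf_odd' _ 3 (by decide) (-2 - omO) ?_
      push_cast
      linear_combination (-1 : 𝓞 K) * h0
    · rw [h]
      refine kf_odd' _ 3 (by decide) (omO - 1) ?_
      push_cast
      linear_combination (omO - 2) * h0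
  · rcases kf_ompow_aux k with h | h
    · rw [h]
      refine kf_odd' _ 1 (by decide) (omO ^ 2) ?_
      push_cast
      linear_combination h3
    · rw [h]
      refine kf_odd' _ 1 (by decide) omO ?_
      push_cast
      linear_combination h3

instance kf_pid : IsPrincipalIdealRing (𝓞 K) := by
  exact IsCyclotomicExtension.Rat.three_pid K

theorem kf_int (A : ValuationSubring ℂ) (y : ℂ) (hy : IsIntegral ℤ y) : y ∈ A := by
  have h1 : IsIntegral A y := hy.tower_top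
  obtain ⟨z, hz⟩ := IsIntegrallyClosed.isIntegral_iff.1 h1
  rw [← hz]
  exact z.2

theorem kf_oddinv (A : ValuationSubring ℂ) (hA : Two A) (d : ℕ) (hd : Odd d) :
    (d : ℂ)⁻¹ ∈ A := by
  by_contra h
  obtain ⟨m, hm⟩ := hd
  have h4 : (d : ℂ) ≠ 0 := by
    rw [hm]
    exact_mod_cast (by omega : 2 * m + 1 ≠ 0)
  have h2 : ∀ y : ℂ, y ≠ 0 → y⁻¹ ∉ A → A.valuation y < 1 := by
    intro y hy hyA
    rw [← A.valuation_le_one_iff, not_le, map_inv₀] at hyA
    have h5 : A.valuation y ≠ 0 := (Valuation.ne_zero_iff _).2 hy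
    exact (one_lt_inv₀ (zero_lt_iff.2 h5)).1 hyA
  have h5 := h2 _ h4 h
  have h6 := h2 2 (by norm_num) hA
  have h7 : A.valuation ((2 : ℂ) * (m : ℂ)) < 1 := by
    rw [map_mul]
    have h8 : A.valuation (m : ℂ) ≤ 1 := (A.valuation_le_one_iff _).2 (natCast_mem A m)
    exact mul_lt_one_of_lt_of_le h6 h8
  have h9 : A.valuation ((d : ℂ) - 2 * (m : ℂ)) < 1 := by
    exact lt_of_le_of_lt (Valuation.map_sub _ _ _) (max_lt h5 h7)
  have h10 : (d : ℂ) - 2 * (m : ℂ) = 1 := by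
    rw [hm]; push_cast; ring
  rw [h10, map_one] at h9
  exact lt_irrefl _ h9

/-- An element of `K` which is an odd integer times integral and `2`-adically integral. -/
theorem kf_mem (A : ValuationSubring ℂ) (hA : Two A) (x : ℂ) (d : ℕ) (hd : Odd d)
    (hx : IsIntegral ℤ ((d : ℂ) * x)) : x ∈ A := by
  -- integral elements lie in `A` (integrally closed), odd integers are units of `A`
  -- (`d = 2 k + 1`: if `d⁻¹ ∉ A` then `d` is in the maximal ideal together with `2`, so `1` too).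
  have h1 : ∀ y : ℂ, IsIntegral ℤ y → y ∈ A := kf_int A
  have h2 := h1 _ hx
  have h3 := kf_oddinv A hA d hd
  have h4 : (d : ℂ) ≠ 0 := by
    obtain ⟨m, hm⟩ := hd
    rw [hm]
    exact_mod_cast (by omega : 2 * m + 1 ≠ 0)
  have h5 : x = (d : ℂ)⁻¹ * ((d : ℂ) * x) := by field_simp
  rw [h5]
  exact A.mul_mem _ _ h3 h2

/-- Odd elements of `𝓞 K` are units of `A`. -/
theorem kf_unitA (A : ValuationSubring ℂ) (hA : Two A) (a : 𝓞 K) (ha : ¬ (2 : 𝓞 K) ∣ a) :
    embK (a : K) ∈ A ∧ (embK (a : K))⁻¹ ∈ A ∧ embK (a : K) ≠ 0 := by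
  obtain ⟨c, k, hk, hc, -⟩ := kf_odd a ha
  have hkk := kf_oddinv A hA k hk
  have h4 : (k : ℂ) ≠ 0 := by
    obtain ⟨m, hm⟩ := hk
    rw [hm]
    exact_mod_cast (by omega : 2 * m + 1 ≠ 0)
  have h5 : embK (a : K) * embK (c : K) = k := by
    have h := kf_castN k
    rw [← hc, RingOfIntegers.coe_eq_algebraMap, map_mul, map_mul] at h
    exact h
  have h6 : embK (a : K) ≠ 0 := by
    intro h
    rw [h, zero_mul] at h5
    exact h4 h5.symm
  have hi : ∀ b : 𝓞 K, embK (b : K) ∈ A := fun b => kf_int A _ (by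
    have := b.isIntegral_coe
    exact this.map embK)
  refine ⟨hi a, ?_, h6⟩
  have h7 : (embK (a : K))⁻¹ = (k : ℂ)⁻¹ * embK (c : K) := by
    rw [← h5]
    field_simp
    have h8 : embK (c : K) ≠ 0 := by
      intro h
      rw [h, mul_zero] at h5
      exact h4 h5.symm
    field_simp
  rw [h7]
  exact A.mul_mem _ _ hkk (hi c)

end Pool.Agent.Lib.MP_1a91b9_ntT
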