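import Pool.Agent.Lib.MP_1a91b9_ntT.S2.Defs

/-!
# S6 definitions
-/

set_option autoImplicit false

namespace Pool.Agent.Lib.MP_1a91b9_ntT

open NumberField

noncomputable section

universe u

theorem om_isIntegral : IsIntegral ℤ om := om_spec.isIntegral (by norm_num)

/-- `om` as an element of the ring of integers. -/
def omO : 𝓞 K := ⟨om, om_isIntegral⟩

/-- Away from `2` the dual of the ring of integers for the relative trace is integral. -/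
def U2 (F : Type u) [Field F] [NumberField F] [Algebra K F] : Prop :=
  ∃ d : ℕ, Odd d ∧ ∀ v : F, (∀ z : 𝓞 F, ∃ a : 𝓞 K, Algebra.trace K F (v * (z : F)) = a) →
    IsIntegral ℤ ((d : F) * v)

variable {F : Type u} [Field F] [NumberField F] [Algebra K F]

/-- The smoothing elements (DOC6 6.2); `b` is the relative norm of `β`. -/
structure Smooth (R : ℕ) (β : 𝓞 F) (b : 𝓞 K) : Prop where
  one : (R : 𝓞 F) ∣ β - 1
  nrm : Algebra.norm K (β : F) = b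
  gen : ∀ z : 𝓞 F, ∃ (a : 𝓞 K) (w : 𝓞 F), z = algebraMap (𝓞 K) (𝓞 F) a + β * w
  odd0 : ¬ (2 : 𝓞 K) ∣ b
  odd1 : ¬ (2 : 𝓞 K) ∣ b - 1

/-- The dual lattice of an ideal for the relative trace (DOC6 6.3, `L₀`). -/
def DL (𝔟 : Ideal (𝓞 F)) : Set F :=
  {v | ∀ z ∈ 𝔟, ∃ a : 𝓞 K, Algebra.trace K F (v * (z : F)) = a}

/-- `v` generates `β⁻¹ L₀` modulo `L₀`. -/
def Gen (𝔟 : Ideal (𝓞 F)) (β : 𝓞 F) (v : F) : Prop :=
  (β : F) * v ∈ DL 𝔟 ∧ ∀ w ∈ DL 𝔟, ∃ (x : 𝓞 K), ∃ w' ∈ DL 𝔟,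
    w = algebraMap K F x * ((β : F) * v) + (β : F) * w'

/-- The residue class `t + 𝔪 𝔟` in `F`. -/
def cls (𝔟 𝔪 : Ideal (𝓞 F)) (t : 𝓞 F) : Set F :=
  {z | ∃ w : 𝓞 F, (w : F) = z ∧ w - t ∈ 𝔪 * 𝔟}

/-- The ideal `β 𝔟` in `F`. -/
def mulI (𝔟 : Ideal (𝓞 F)) (β : 𝓞 F) : Set F :=
  {z | ∃ w ∈ 𝔟, z = (β : F) * (w : F)}

open Classical in
/-- The smoothed indicator function of `t + 𝔪 𝔟` (DOC6 6.4). -/
def del (𝔟 𝔪 : Ideal (𝓞 F)) (t β' β : 𝓞 F) (b : 𝓞 K) (z : F) : ℂ :=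
  if z ∈ cls 𝔟 𝔪 t ∧ z ∉ mulI 𝔟 β' then
    1 - (‖embK b‖ ^ 2 : ℝ) * (if z ∈ mulI 𝔟 β then 1 else 0) else 0

open Classical in
/-- The partially smoothed indicator function of `t + 𝔪 𝔟`. -/
def del1 (𝔟 𝔪 : Ideal (𝓞 F)) (t β : 𝓞 F) (b : 𝓞 K) (z : F) : ℂ :=
  if z ∈ cls 𝔟 𝔪 t then
    1 - (‖embK b‖ ^ 2 : ℝ) * (if z ∈ mulI 𝔟 β then 1 else 0) else 0

/-- `R` is a set of representatives of `X` modulo the units congruent to `1` modulo `𝔪`. -/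
def IsRepsU (𝔪 : Ideal (𝓞 F)) (X R : Set F) : Prop :=
  R ⊆ X ∧ ∀ z ∈ X, ∃! v : (𝓞 F)ˣ, (v : 𝓞 F) - 1 ∈ 𝔪 ∧ ((v : 𝓞 F) : F) * z ∈ R

/-- The summand of the partial `L`-series. -/
def term (s : ℂ) (z : F) : ℂ := (starRingEnd ℂ) (NF z) * (‖NF z‖ : ℂ) ^ (-2 * s)

/-- Unimodular at `2` with respect to a basis. -/
def Unimod {ι : Type} [Fintype ι] [DecidableEq ι] (bb : Module.Basis ι K F) (v : ι → F) : Prop :=
  ∃ (k : ℕ) (u : 𝓞 K), Odd k ∧ ¬ (2 : 𝓞 K) ∣ u ∧ (k : K) * bb.det v = u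

end

end Pool.Agent.Lib.MP_1a91b9_ntT
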