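import Pool.Agent.Lib.MP_1a91b9_ntT.S6.Du1

/-!
# Job S6_Du2: generators of `β⁻¹ L₀` modulo `L₀` (DOC6 6.3, 6.3.1)

* `dl_gen`: choose `d ≥ 1` with `d * DL 𝔟` inside `𝓞 F` (from `dl_basis`, common denominator);
  `J := {x : 𝓞 F | ∃ v ∈ DL 𝔟, x = d v}` is a nonzero ideal of `𝓞 F` and `β J ≤ J` is nonzero, so by
  `IsDedekindDomain.exists_sup_span_eq` (or a similar lemma: in a Dedekind domain `I ≤ J`, `I ≠ 0`
  gives `a` with `I ⊔ span {a} = J`) there is `a` with `β J ⊔ span {a} = J`; `u = a / d`.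
* `gen_exists`: with the `gen` property of `Smooth` : `v = x u + β v'`, `x = a + β w`, so
  `v = a u + β (w u + v')`. Take `v₀ = u / β`.
* `gen_ne`: for `w ∈ DL 𝔟`, `w = x (β v) + β w'`: `w z / β = x v z + w' z` has trace
  `x Tr(v z) + Tr(w' z) ∈ 𝓞 K`; so `z / β` is in the double dual `𝔟` (`dl_dual`).
* `gen_unit`: for a unit `ε`: `β (ε v) = ε (β v) ∈ DL`, and for `w ∈ DL` apply the property of `v`
  to `ε⁻¹ w ∈ DL`.
* `gen_rep`: if `Gen 𝔟 β v` and `β w ∈ DL 𝔟` then `w = y v + w'` with `y ∈ 𝓞 K`, `w' ∈ DL 𝔟`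
  (divide `β w = y (β v) + β w'` by `β`); and `Gen` only depends on the class modulo `DL 𝔟`:
  `gen_add`: `Gen v`, `w' ∈ DL` imply `Gen (v + w')`.
-/

set_option autoImplicit false

namespace Pool.Agent.Lib.MP_1a91b9_ntT

open NumberField

universe u

variable {F : Type u} [Field F] [NumberField F] [Algebra K F]

private theorem du2_cadd {L : Type u} [Field L] (x y : 𝓞 L) : ((x + y : 𝓞 L) : L) = x + y := rfl
private theorem du2_cmul {L : Type u} [Field L] (x y : 𝓞 L) : ((x * y : 𝓞 L) : L) = x * y := rfl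
private theorem du2_cneg {L : Type u} [Field L] (x : 𝓞 L) : ((-x : 𝓞 L) : L) = -x := rfl
private theorem du2_czero {L : Type u} [Field L] : ((0 : 𝓞 L) : L) = 0 := rfl
private theorem du2_cone {L : Type u} [Field L] : ((1 : 𝓞 L) : L) = 1 := rfl
private theorem du2_cint {L : Type u} [Field L] (d : ℤ) : ((d : 𝓞 L) : L) = d :=
  map_intCast (algebraMap (𝓞 L) L) d
private theorem du2_ne {β : 𝓞 F} (hβ : β ≠ 0) : (β : F) ≠ 0 := fun h0 =>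
  hβ (RingOfIntegers.coe_injective (h0.trans (map_zero (algebraMap (𝓞 F) F)).symm))

private theorem du2_one (𝔟 : Ideal (𝓞 F)) : (1 : F) ∈ DL 𝔟 := by
  intro z _
  have h : IsIntegral ℤ (Algebra.trace K F (1 * (z : F))) := by
    rw [one_mul]
    exact Algebra.isIntegral_trace z.2
  exact ⟨⟨_, h⟩, rfl⟩

private theorem du2_zero (𝔟 : Ideal (𝓞 F)) : (0 : F) ∈ DL 𝔟 := by
  have := dl_smul 𝔟 0 (du2_one 𝔟)
  rwa [du2_czero, zero_mul] at this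

private theorem du2_den (𝔟 : Ideal (𝓞 F)) (hb : 𝔟 ≠ ⊥) :
    ∃ d : ℤ, d ≠ 0 ∧ ∀ v ∈ DL 𝔟, IsIntegral ℤ ((d : F) * v) := by
  classical
  obtain ⟨bb, h1, -⟩ := dl_basis 𝔟 hb rfl
  obtain ⟨d, hd, hi⟩ := exists_integral_multiples ℤ ℚ (Finset.univ.image bb)
  refine ⟨d, hd, fun v hv => ?_⟩
  rw [← bb.sum_repr v, Finset.mul_sum]
  refine IsIntegral.sum _ fun i _ => ?_
  obtain ⟨a, ha⟩ := (h1 v).1 hv i
  rw [ha, Algebra.smul_def]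
  have h2 := hi (bb i) (Finset.mem_image_of_mem _ (Finset.mem_univ i))
  rw [zsmul_eq_mul] at h2
  have h3 : IsIntegral ℤ (algebraMap K F (a : K)) := a.2.map (algebraMap K F).toIntAlgHom
  have h4 : (d : F) * (algebraMap K F (a : K) * bb i) = algebraMap K F (a : K) * ((d : F) * bb i) := by
    ring
  rw [h4]
  exact h3.mul h2

theorem dl_gen (𝔟 : Ideal (𝓞 F)) (hb : 𝔟 ≠ ⊥) (β : 𝓞 F) (hβ : β ≠ 0) :
    ∃ u ∈ DL 𝔟, ∀ v ∈ DL 𝔟, ∃ x : 𝓞 F, ∃ v' ∈ DL 𝔟, v = (x : F) * u + (β : F) * v' := by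
  obtain ⟨d, hd, hint⟩ := du2_den 𝔟 hb
  have hdF : (d : F) ≠ 0 := by exact_mod_cast hd
  let J : Ideal (𝓞 F) :=
    { carrier := {x | ∃ v ∈ DL 𝔟, (x : F) = d * v}
      add_mem' := by
        rintro x y ⟨v, hv, hx⟩ ⟨w, hw, hy⟩
        refine ⟨v + w, dl_add 𝔟 hv hw, ?_⟩
        rw [du2_cadd, hx, hy]
        ring
      zero_mem' := ⟨0, du2_zero 𝔟, by rw [du2_czero, mul_zero]⟩
      smul_mem' := by
        rintro c x ⟨v, hv, hx⟩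
        refine ⟨(c : F) * v, dl_smul 𝔟 c hv, ?_⟩
        rw [smul_eq_mul, du2_cmul, hx]
        ring }
  have hJ : ∀ x : 𝓞 F, x ∈ J ↔ ∃ v ∈ DL 𝔟, (x : F) = d * v := fun x => Iff.rfl
  have hJ0 : J ≠ ⊥ := by
    intro h
    have h1 : (d : 𝓞 F) ∈ J := (hJ _).2 ⟨1, du2_one 𝔟, by rw [du2_cint, mul_one]⟩
    rw [h, Ideal.mem_bot] at h1
    exact hd (by exact_mod_cast h1)
  have hI0 : Ideal.span {β} * J ≠ 0 := by
    refine mul_ne_zero ?_ hJ0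
    rw [Ne, Ideal.zero_eq_bot, Ideal.span_singleton_eq_bot]
    exact hβ
  obtain ⟨a, ha⟩ := IsDedekindDomain.exists_sup_span_eq (Ideal.mul_le_right : Ideal.span {β} * J ≤ J) hI0
  have haJ : a ∈ J := by
    rw [← ha]
    exact Ideal.mem_sup_right (Ideal.mem_span_singleton_self a)
  obtain ⟨u, hu, hau⟩ := (hJ a).1 haJ
  refine ⟨u, hu, fun v hv => ?_⟩
  obtain ⟨t, ht⟩ : ∃ t : 𝓞 F, (t : F) = (d : F) * v := ⟨⟨(d : F) * v, hint v hv⟩, rfl⟩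
  have hv' : t ∈ J := (hJ _).2 ⟨v, hv, ht⟩
  rw [← ha] at hv'
  obtain ⟨y, hy, z, hz, hyz⟩ := Submodule.mem_sup.1 hv'
  obtain ⟨j, hj, rfl⟩ := Ideal.mem_span_singleton_mul.1 hy
  obtain ⟨x, rfl⟩ := Ideal.mem_span_singleton'.1 hz
  obtain ⟨v', hv', hjv⟩ := (hJ j).1 hj
  refine ⟨x, v', hv', ?_⟩
  have h1 : ((β * j + x * a : 𝓞 F) : F) = (d : F) * v :=
    (congrArg (algebraMap (𝓞 F) F) hyz).trans ht
  rw [du2_cadd, du2_cmul, du2_cmul, hjv, hau] at h1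
  apply mul_left_cancel₀ hdF
  rw [← h1]
  ring

theorem smooth_ne {R : ℕ} {β : 𝓞 F} {b : 𝓞 K} (h : Smooth R β b) : β ≠ 0 := by
  intro h0
  have h1 := h.nrm
  rw [h0, du2_czero, Algebra.norm_zero] at h1
  have h2 : b = 0 := RingOfIntegers.coe_injective (h1.symm.trans (map_zero (algebraMap (𝓞 K) K)).symm)
  exact h.odd0 (h2 ▸ dvd_zero _)

theorem gen_exists (𝔟 : Ideal (𝓞 F)) (hb : 𝔟 ≠ ⊥) {R : ℕ} {β : 𝓞 F} {b : 𝓞 K}
    (h : Smooth R β b) : ∃ v₀ : F, Gen 𝔟 β v₀ := by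
  have hβ := smooth_ne h
  have hβF : (β : F) ≠ 0 := du2_ne hβ
  obtain ⟨u, hu, hg⟩ := dl_gen 𝔟 hb β hβ
  have e : (β : F) * (u / β) = u := mul_div_cancel₀ u hβF
  refine ⟨u / β, ?_, fun w hw => ?_⟩
  · rw [e]
    exact hu
  · rw [e]
    obtain ⟨z, v', hv', hz⟩ := hg w hw
    obtain ⟨a, w1, hw1⟩ := h.gen z
    refine ⟨a, (w1 : F) * u + v', dl_add 𝔟 (dl_smul 𝔟 w1 hu) hv', ?_⟩
    have h1 : (z : F) = algebraMap K F (a : K) + (β : F) * (w1 : F) := by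
      have := congrArg (algebraMap (𝓞 F) F) hw1
      rw [map_add, map_mul] at this
      exact this
    rw [hz, h1]
    ring

private theorem du2_trace (x : K) (y : F) :
    Algebra.trace K F (algebraMap K F x * y) = x * Algebra.trace K F y := by
  rw [← Algebra.smul_def, map_smul, smul_eq_mul]

theorem gen_ne (𝔟 : Ideal (𝓞 F)) (hb : 𝔟 ≠ ⊥) (β : 𝓞 F) (hβ : β ≠ 0) (v : F) (hv : Gen 𝔟 β v)
    (z : 𝓞 F) (hz : z ∈ 𝔟) (a : 𝓞 K) (ha : Algebra.trace K F (v * (z : F)) = a) :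
    (z : F) ∈ mulI 𝔟 β := by
  have hβF : (β : F) ≠ 0 := du2_ne hβ
  obtain ⟨w, hw, hwz⟩ := dl_dual 𝔟 hb ((z : F) / β) (fun w hw => by
    obtain ⟨x, w', hw', e⟩ := hv.2 w hw
    obtain ⟨a', ha'⟩ := hw' z hz
    refine ⟨x * a + a', ?_⟩
    have h1 : w * ((z : F) / β) = algebraMap K F x * (v * z) + w' * z := by
      rw [e]
      field_simp
    rw [h1, map_add, du2_trace, ha, ha', du2_cadd, du2_cmul])
  refine ⟨w, hw, ?_⟩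
  rw [hwz]
  field_simp

theorem gen_unit (𝔟 : Ideal (𝓞 F)) (β : 𝓞 F) (v : F) (hv : Gen 𝔟 β v) (ε : (𝓞 F)ˣ) :
    Gen 𝔟 β (((ε : 𝓞 F) : F) * v) := by
  have he : (((ε : 𝓞 F)) : F) * (((ε⁻¹ : (𝓞 F)ˣ) : 𝓞 F) : F) = 1 := by
    rw [← map_mul, Units.mul_inv, map_one]
  constructor
  · have h1 : (β : F) * (((ε : 𝓞 F) : F) * v) = ((ε : 𝓞 F) : F) * ((β : F) * v) := by ring
    rw [h1]
    exact dl_smul 𝔟 _ hv.1
  · intro w hw
    obtain ⟨x, w', hw', e⟩ := hv.2 _ (dl_smul 𝔟 ((ε⁻¹ : (𝓞 F)ˣ) : 𝓞 F) hw)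
    refine ⟨x, ((ε : 𝓞 F) : F) * w', dl_smul 𝔟 _ hw', ?_⟩
    have h1 : w = ((ε : 𝓞 F) : F) * ((((ε⁻¹ : (𝓞 F)ˣ) : 𝓞 F) : F) * w) := by
      rw [← mul_assoc, he, one_mul]
    rw [h1, e]
    ring

private theorem du2_smulK (𝔟 : Ideal (𝓞 F)) (x : 𝓞 K) {v : F} (hv : v ∈ DL 𝔟) :
    algebraMap K F x * v ∈ DL 𝔟 :=
  dl_smul 𝔟 (algebraMap (𝓞 K) (𝓞 F) x) hv

theorem gen_add (𝔟 : Ideal (𝓞 F)) (β : 𝓞 F) (v w : F) (hv : Gen 𝔟 β v) (hw : w ∈ DL 𝔟) :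
    Gen 𝔟 β (v + w) := by
  constructor
  · rw [mul_add]
    exact dl_add 𝔟 hv.1 (dl_smul 𝔟 β hw)
  · intro w1 hw1
    obtain ⟨x, w', hw', e⟩ := hv.2 w1 hw1
    refine ⟨x, w' + algebraMap K F ((-x : 𝓞 K) : K) * w, dl_add 𝔟 hw' (du2_smulK 𝔟 (-x) hw), ?_⟩
    rw [e, du2_cneg, map_neg]
    ring

theorem gen_rep (𝔟 : Ideal (𝓞 F)) (β : 𝓞 F) (hβ : β ≠ 0) (v w : F) (hv : Gen 𝔟 β v)
    (hw : (β : F) * w ∈ DL 𝔟) : ∃ y : 𝓞 K, ∃ w' ∈ DL 𝔟, w = algebraMap K F y * v + w' := by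
  have hβF : (β : F) ≠ 0 := du2_ne hβ
  obtain ⟨x, w', hw', e⟩ := hv.2 _ hw
  refine ⟨x, w', hw', mul_left_cancel₀ hβF ?_⟩
  rw [e]
  ring

end Pool.Agent.Lib.MP_1a91b9_ntT
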