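import Pool.Agent.Lib.MP_1a91b9_ntT.S6.Co3

/-!
# S6 interface: the partial L-series (DOC6 6.8)
-/

set_option autoImplicit false

namespace Pool.Agent.Lib.MP_1a91b9_ntT

open NumberField

universe u

variable {F : Type u} [Field F] [NumberField F] [Algebra K F]

/-- The partial `L`-series of a residue class has an entire continuation, whose value at `1`,
divided by `Om ^ [F : K]`, is 2-integral. -/
theorem s6_main (h : TowerK F) (𝔟 𝔪 : Ideal (𝓞 F)) (hb : 𝔟 ≠ ⊥)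
    (hb2 : IsCoprime 𝔟 (Ideal.span {2})) (hm : 𝔪 ≠ ⊥) (hm2 : IsCoprime 𝔪 (Ideal.span {2}))
    (h3 : 𝔪 ≤ Ideal.span {3}) (t : 𝓞 F) (ht : t ∈ 𝔟) (ht' : t ∉ 𝔪 * 𝔟) :
    ∃ g : ℂ → ℂ, Differentiable ℂ g ∧
      (∀ X : Set F, IsRepsU 𝔪 (cls 𝔟 𝔪 t) X →
        ∀ s : ℂ, 2 < s.re → HasSum (fun z : X => term s (z : F)) (g s)) ∧
      ∀ A : ValuationSubring ℂ, Two A → g 1 / Om ^ (Module.finrank K F) ∈ A := by
  obtain ⟨k, hk⟩ := finrank_tower F h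
  have hex := nf_exists (F := F)
  obtain ⟨m, hm'⟩ : ∃ m, Module.finrank K F = m + 1 :=
    Nat.exists_eq_succ_of_ne_zero (by rw [hk]; positivity)
  rw [hm'] at hex
  obtain ⟨σ, hσ⟩ := hex
  obtain ⟨g, hg, hgs⟩ := co_entire σ hσ k hk 𝔟 𝔪 hb hm hm2 h3 t ht ht'
  refine ⟨g, hg, hgs, fun A hA => ?_⟩
  rw [hm']
  exact co_val σ hσ k hk (u2_tower F h) 𝔟 𝔪 hb hb2 hm hm2 h3 t ht ht' g hg hgs A hA

end Pool.Agent.Lib.MP_1a91b9_ntT
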