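import Pool.Agent.Lib.MP_1a91b9_ntT.S6.KF

/-!
# Job S6_NFa: the relative norm

`NF z = embK (Algebra.norm K z)`; `Algebra.norm_eq_prod_embeddings K ℂ z` (the algebra structure of
`ℂ` over `K` is `algKC`, `algebraMap K ℂ x = embK x` is `algebraMap_eq`).
* `nf_prod`: reindex the product over all embeddings by the bijection `σ`.
* `nf_int`: the norm of an integral element is integral (`Algebra.isIntegral_norm`,
  `RingOfIntegers`, or `RingOfIntegers.norm`).
* `nf_cong`: `∏ σ_j z - ∏ σ_j w` divided by `M` is an algebraic integer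
  (telescoping: `∏ x_j - ∏ y_j` is in the ideal generated by the `x_j - y_j` in the ring of all
  algebraic integers of `ℂ`, `integralClosure ℤ ℂ`), and it is the image of an element of `K`
  (`embK` injective), so that element is in `𝓞 K`. For `M = 0` trivial (then `z = w`).
* `nf_abs`: `‖NF z‖² = ∏_j ‖σ_j z‖²` and the embeddings of `F` in `ℂ` are the `σ_j` and their
  complex conjugates (those which send `om` to `conj zt`), so this is `|N_{F/ℚ} z|`
  (`Algebra.norm_eq_prod_embeddings ℚ ℂ`); or use `Algebra.norm_norm` (`ℚ ⊆ K ⊆ F`) and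
  `N_{K/ℚ} x = ‖embK x‖²`.
* `nf_dvd`: the norm of `z` is a multiple of `z` in `𝓞 F` (`N(z) / z` is integral: it is a product
  of conjugates; e.g. constant coefficient of the characteristic polynomial, or
  `Algebra.norm` / `minpoly`; `z ≠ 0` or not).
-/

set_option autoImplicit false

namespace Pool.Agent.Lib.MP_1a91b9_ntT

open NumberField

universe u

variable {F : Type u} [Field F] [NumberField F] [Algebra K F]

theorem nfa_finite : Module.Finite K F := Module.Finite.of_restrictScalars_finite ℚ K F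

theorem nf_prod {n : ℕ} (σ : Fin n → (F →ₐ[K] ℂ)) (hσ : Function.Bijective σ) (z : F) :
    NF z = ∏ j, σ j z := by
  have := nfa_finite (F := F)
  rw [NF, ← algebraMap_eq, Algebra.norm_eq_prod_embeddings K ℂ z]
  exact (Fintype.prod_bijective σ hσ _ _ fun _ => rfl).symm

theorem nf_card {n : ℕ} (σ : Fin n → (F →ₐ[K] ℂ)) (hσ : Function.Bijective σ) :
    Module.finrank K F = n := by
  have := nfa_finite (F := F)
  rw [← AlgHom.card K F ℂ, ← Fintype.card_of_bijective hσ, Fintype.card_fin]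

theorem nf_exists : ∃ σ : Fin (Module.finrank K F) → (F →ₐ[K] ℂ), Function.Bijective σ := by
  have := nfa_finite (F := F)
  exact ⟨_, (Fintype.equivFinOfCardEq (AlgHom.card K F ℂ)).symm.bijective⟩

theorem nf_mul (z w : F) : NF (z * w) = NF z * NF w := by
  simp [NF]

theorem nf_ne (z : F) (hz : z ≠ 0) : NF z ≠ 0 := by
  have := nfa_finite (F := F)
  rw [NF, map_ne_zero]
  exact Algebra.norm_ne_zero_iff.2 hz

theorem nf_int (z : 𝓞 F) : ∃ a : 𝓞 K, Algebra.norm K (z : F) = a := by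
  have := nfa_finite (F := F)
  exact ⟨⟨_, Algebra.isIntegral_norm K (RingOfIntegers.isIntegral_coe z)⟩, rfl⟩

theorem nfa_prod_sub {A : Type*} [CommRing A] (c : A) {ι : Type*} (s : Finset ι) (x y : ι → A)
    (h : ∀ i ∈ s, c ∣ x i - y i) : c ∣ ∏ i ∈ s, x i - ∏ i ∈ s, y i := by
  classical
  induction s using Finset.induction_on with
  | empty => simp
  | insert i s hi ih =>
    rw [Finset.prod_insert hi, Finset.prod_insert hi]
    have h1 := h i (Finset.mem_insert_self _ _)
    have h2 := ih fun j hj => h j (Finset.mem_insert_of_mem hj)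
    have e : x i * ∏ j ∈ s, x j - y i * ∏ j ∈ s, y j
        = (x i - y i) * ∏ j ∈ s, x j + y i * (∏ j ∈ s, x j - ∏ j ∈ s, y j) := by ring
    rw [e]
    exact dvd_add (Dvd.dvd.mul_right h1 _) (Dvd.dvd.mul_left h2 _)

theorem nfa_int_embK (x : K) (h : IsIntegral ℤ (embK x)) : IsIntegral ℤ x :=
  (isIntegral_algHom_iff (embK.restrictScalars ℤ) embK.injective).1 h

theorem nf_cong (M : ℕ) (z w : 𝓞 F) (a b : 𝓞 K) (ha : Algebra.norm K (z : F) = a)
    (hb : Algebra.norm K (w : F) = b) (h : (M : 𝓞 F) ∣ z - w) : (M : 𝓞 K) ∣ a - b := by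
  rcases Nat.eq_zero_or_pos M with h0 | h0
  · subst h0
    simp only [Nat.cast_zero, zero_dvd_iff, sub_eq_zero] at h ⊢
    subst h
    exact RingOfIntegers.ext (ha.symm.trans hb)
  obtain ⟨σ, hσ⟩ := nf_exists (F := F)
  obtain ⟨c, hc⟩ := h
  have hint : ∀ (j : Fin (Module.finrank K F)) (y : 𝓞 F),
      IsIntegral ℤ (σ j (y : F)) := fun j y =>
    (RingOfIntegers.isIntegral_coe y).map ((σ j).restrictScalars ℤ)
  let x' : Fin (Module.finrank K F) → integralClosure ℤ ℂ := fun j => ⟨σ j (z : F), hint j z⟩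
  let y' : Fin (Module.finrank K F) → integralClosure ℤ ℂ := fun j => ⟨σ j (w : F), hint j w⟩
  have h1 : ∀ j ∈ Finset.univ, (M : integralClosure ℤ ℂ) ∣ x' j - y' j := by
    intro j _
    refine ⟨⟨σ j (c : F), hint j c⟩, Subtype.ext ?_⟩
    have h2 : (z : F) - (w : F) = (M : F) * (c : F) := by
      have := congrArg (fun t : 𝓞 F => (t : F)) hc
      simpa using this
    change σ j (z : F) - σ j (w : F) = (M : integralClosure ℤ ℂ) * σ j (c : F)
    rw [← map_sub, h2, map_mul, map_natCast]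
    simp
  obtain ⟨e, he⟩ := nfa_prod_sub (M : integralClosure ℤ ℂ) Finset.univ x' y' h1
  have he' : NF (z : F) - NF (w : F) = (M : ℂ) * (e : ℂ) := by
    rw [nf_prod σ hσ, nf_prod σ hσ]
    have := congrArg (fun t : integralClosure ℤ ℂ => (t : ℂ)) he
    simpa [x', y'] using this
  have hM : (M : K) ≠ 0 := Nat.cast_ne_zero.2 h0.ne'
  have hMC : (M : ℂ) ≠ 0 := Nat.cast_ne_zero.2 h0.ne'
  have h3 : embK (((a : K) - (b : K)) / M) = (e : ℂ) := by
    rw [map_div₀, map_sub, map_natCast, ← ha, ← hb]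
    change (NF (z : F) - NF (w : F)) / (M : ℂ) = e
    rw [he', mul_div_cancel_left₀ _ hMC]
  have h4 : IsIntegral ℤ (((a : K) - (b : K)) / M) := nfa_int_embK _ (h3 ▸ e.2)
  obtain ⟨r, hr⟩ : ∃ r : 𝓞 K, (r : K) = ((a : K) - (b : K)) / M := ⟨⟨_, h4⟩, rfl⟩
  refine ⟨r, RingOfIntegers.ext ?_⟩
  have h5 : ((M : 𝓞 K) : K) = (M : K) := map_natCast (algebraMap (𝓞 K) K) M
  change (a : K) - b = ((M : 𝓞 K) : K) * (r : K)
  rw [h5, hr]
  field_simp

theorem nfa_normK (x : K) : ‖embK x‖ ^ 2 = ((|Algebra.norm ℚ x| : ℚ) : ℝ) := by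
  have hc : Fintype.card (InfinitePlace K) = 1 := by
    rw [InfinitePlace.card_eq_nrRealPlaces_add_nrComplexPlaces,
      IsCyclotomicExtension.Rat.nrRealPlaces_eq_zero (n := 3) K (by decide), zero_add,
      IsCyclotomicExtension.Rat.nrComplexPlaces_eq_totient_div_two (n := 3)]
    rfl
  obtain ⟨w0, hw0⟩ := Fintype.card_eq_one_iff.1 hc
  have hcx : IsTotallyComplex K := IsCyclotomicExtension.Rat.isTotallyComplex (n := 3) K (by decide)
  have h1 := InfinitePlace.prod_eq_abs_norm x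
  have : Unique (InfinitePlace K) := ⟨⟨w0⟩, hw0⟩
  rw [Fintype.prod_unique, (hcx.isComplex _).mult_eq_two] at h1
  have h2 : (default : InfinitePlace K) = InfinitePlace.mk embK.toRingHom :=
    Subsingleton.elim _ _
  rw [h2, InfinitePlace.apply] at h1
  exact h1

theorem nf_abs (z : 𝓞 F) : ‖NF (z : F)‖ ^ 2 = ((Ideal.absNorm (Ideal.span {z}) : ℕ) : ℝ) := by
  have := nfa_finite (F := F)
  rw [NF, nfa_normK, Algebra.norm_norm, ← Algebra.coe_norm_int, Ideal.absNorm_span_singleton]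
  push_cast
  rw [Nat.cast_natAbs]
  push_cast
  rfl

theorem nf_dvd (z : 𝓞 F) (a : 𝓞 K) (ha : Algebra.norm K (z : F) = a) :
    z ∣ algebraMap (𝓞 K) (𝓞 F) a := by
  have := nfa_finite (F := F)
  rcases eq_or_ne z 0 with h0 | h0
  · subst h0
    have h1 : a = 0 := by
      apply RingOfIntegers.ext
      rw [← ha]
      simp
    rw [h1, map_zero]
  obtain ⟨σ, hσ⟩ := nf_exists (F := F)
  have hpos : 0 < Module.finrank K F := Module.finrank_pos
  let j0 : Fin (Module.finrank K F) := ⟨0, hpos⟩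
  have hz : (z : F) ≠ 0 := by
    simpa using h0
  have h2 : σ j0 (algebraMap K F (a : K) / (z : F)) = ∏ j ∈ Finset.univ.erase j0, σ j (z : F) := by
    rw [map_div₀, AlgHom.commutes, algebraMap_eq, ← ha]
    change NF (z : F) / _ = _
    rw [nf_prod σ hσ, ← Finset.mul_prod_erase _ _ (Finset.mem_univ j0)]
    exact mul_div_cancel_left₀ _ ((map_ne_zero (σ j0)).2 hz)
  have h3 : IsIntegral ℤ (σ j0 (algebraMap K F (a : K) / (z : F))) := by
    rw [h2]
    exact IsIntegral.prod _ fun j _ => (RingOfIntegers.isIntegral_coe z).map ((σ j).restrictScalars ℤ)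
  have h4 : IsIntegral ℤ (algebraMap K F (a : K) / (z : F)) :=
    (isIntegral_algHom_iff ((σ j0).restrictScalars ℤ) (σ j0).injective).1 h3
  obtain ⟨r, hr⟩ : ∃ r : 𝓞 F, (r : F) = algebraMap K F (a : K) / (z : F) := ⟨⟨_, h4⟩, rfl⟩
  refine ⟨r, RingOfIntegers.ext ?_⟩
  have h5 : ((algebraMap (𝓞 K) (𝓞 F) a : 𝓞 F) : F) = algebraMap K F (a : K) := rfl
  change ((algebraMap (𝓞 K) (𝓞 F) a : 𝓞 F) : F) = (z : F) * (r : F)
  rw [hr, h5]
  field_simp

end Pool.Agent.Lib.MP_1a91b9_ntT
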